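import Pool.Agent.H86.EXT.Cel
import Pool.Agent.H86.IE.Dbl

/-!
# Events: near-constancy at a point which is almost full given the label
-/

set_option autoImplicit false

namespace Pool.EXS

open Finset Real
open Pool.Agent.H49.Ent Pool.Agent.H32.Dense Pool.STK Pool.KAF Pool.KAL Pool.KS3 Pool.M3F Pool.KJA
open Pool.IEN

/-- A variable which is almost full given a label is rarely in a small set. -/
lemma bad_ev {V Γ α : Type} [Fintype V] [Fintype α] {r : V → ℝ} (hr : IsLaw r) (c : V → Γ)
    (Y : V → α) (B : Γ → Finset α) {h : ℝ} (hh : 0 < h)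
    (hB : ∀ v, 0 < r v → ((B (c v)).card : ℝ) ≤ Real.exp (-h) * Fintype.card α) :
    ms r (fun v => Y v ∈ B (c v)) ≤
      (Real.log (Fintype.card α) - CH r Y c + Real.log 2) / h := by
  classical
  have hr0 := hr.nonneg
  set b : V → Bool := fun v => decide (Y v ∈ B (c v)) with hb
  have h1 := CH_le_add hr0 Y b c
  have h2 : CH r b c ≤ Real.log 2 := by
    refine (CH_le_H hr b c).trans ?_
    have := H_le_log_card hr.nonneg hr.sum_one b Finset.univ (fun v _ => Finset.mem_univ _)
    simpa using this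
  have hn : 0 < (Fintype.card α : ℝ) := by
    obtain ⟨v, hv⟩ : ∃ v, 0 < r v := by
      by_contra hcon
      push Not at hcon
      have h3 : ∑ v, r v = 0 :=
        Finset.sum_eq_zero fun v _ => le_antisymm (hcon v) (hr0 v)
      rw [hr.sum_one] at h3
      exact one_ne_zero h3
    have : Nonempty α := ⟨Y v⟩
    exact_mod_cast Fintype.card_pos
  have h3 : CH r Y (fun v => (b v, c v)) ≤
      ∑ z ∈ univ.image (fun v => (b v, c v)), law r (fun v => (b v, c v)) z *
        (Real.log (Fintype.card α) - if z.1 = true then h else 0) := by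
    rw [CH_eq_sum hr0]
    refine Finset.sum_le_sum fun z _ => ?_
    rcases (law_nonneg hr0 (fun v => (b v, c v)) z).eq_or_lt with h0 | h0
    · rw [← h0]
      simp
    refine mul_le_mul_of_nonneg_left ?_ h0.le
    have hq : IsLaw (cond r (fun v => (b v, c v)) z) :=
      ⟨fun v => cond_nonneg hr0 _ _ v, sum_cond r _ h0.ne'⟩
    have hqpos : ∀ v, 0 < cond r (fun v => (b v, c v)) z v → 0 < r v ∧ (b v, c v) = z :=
      fun v hv => (cond_pos_iff hr0 _ z v).mp hv
    obtain ⟨v₀, hv₀, rfl⟩ : ∃ v, 0 < r v ∧ (b v, c v) = z := by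
      by_contra hcon
      push Not at hcon
      have : law r (fun v => (b v, c v)) z = 0 := by
        unfold law
        refine Finset.sum_eq_zero fun v _ => ?_
        split_ifs with h
        · exact le_antisymm (not_lt.mp fun h' => hcon v h' h) (hr0 v)
        · rfl
      rw [this] at h0
      exact lt_irrefl _ h0
    by_cases hbt : b v₀ = true
    · have hif : (if (b v₀, c v₀).1 = true then h else 0) = h := if_pos hbt
      rw [hif]
      have h4 := H_le_log_card hq.nonneg hq.sum_one Y (B (c v₀)) (by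
        intro v hv
        have h5 := (hqpos v hv).2
        simp only [Prod.mk.injEq] at h5
        have h6 : b v = true := by rw [h5.1, hbt]
        simp only [hb, decide_eq_true_eq] at h6
        rwa [h5.2] at h6)
      refine h4.trans ?_
      have h7 := hB v₀ hv₀
      have h8 : (0 : ℝ) < ((B (c v₀)).card : ℝ) := by
        have h9 : Y v₀ ∈ B (c v₀) := by
          simpa only [hb, decide_eq_true_eq] using hbt
        exact_mod_cast Finset.card_pos.mpr ⟨_, h9⟩
      have h9 := Real.log_le_log h8 h7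
      rw [Real.log_mul (Real.exp_pos _).ne' hn.ne', Real.log_exp] at h9
      linarith
    · have hbf : b v₀ = false := by
        cases hh : b v₀ with
        | false => rfl
        | true => exact absurd hh hbt
      have hif : (if (b v₀, c v₀).1 = true then h else 0) = 0 := if_neg (by
        simp only
        rw [hbf]
        exact Bool.false_ne_true)
      rw [hif, sub_zero]
      have h4 := H_le_log_card hq.nonneg hq.sum_one Y Finset.univ
        (fun v _ => Finset.mem_univ _)
      rwa [Finset.card_univ] at h4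
  have h4 : ∑ z ∈ univ.image (fun v => (b v, c v)), law r (fun v => (b v, c v)) z *
        (Real.log (Fintype.card α) - if z.1 = true then h else 0) =
      Real.log (Fintype.card α) - h * ms r (fun v => Y v ∈ B (c v)) := by
    have h5 := rix_ex r hr0 (fun v => (b v, c v))
      (fun v => Real.log (Fintype.card α) - if b v = true then h else 0)
    have h6 : ∀ z ∈ univ.image (fun v => (b v, c v)), law r (fun v => (b v, c v)) z *
        Ex (cond r (fun v => (b v, c v)) z)
          (fun v => Real.log (Fintype.card α) - if b v = true then h else 0) =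
        law r (fun v => (b v, c v)) z *
        (Real.log (Fintype.card α) - if z.1 = true then h else 0) := by
      intro z _
      rcases (law_nonneg hr0 (fun v => (b v, c v)) z).eq_or_lt with h0 | h0
      · rw [← h0]
        simp
      congr 1
      have hq : IsLaw (cond r (fun v => (b v, c v)) z) :=
        ⟨fun v => cond_nonneg hr0 _ _ v, sum_cond r _ h0.ne'⟩
      have h7 : Ex (cond r (fun v => (b v, c v)) z)
          (fun v => Real.log (Fintype.card α) - if b v = true then h else 0) =
          Ex (cond r (fun v => (b v, c v)) z)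
          (fun _ => Real.log (Fintype.card α) - if z.1 = true then h else 0) := by
        unfold Ex
        refine Finset.sum_congr rfl fun v _ => ?_
        by_cases hv : 0 < cond r (fun v => (b v, c v)) z v
        · have h8 := ((cond_pos_iff hr0 _ z v).mp hv).2
          rw [← h8]
        · have : cond r (fun v => (b v, c v)) z v = 0 :=
            le_antisymm (not_lt.mp hv) (hq.nonneg v)
          rw [this]
          ring
      rw [h7, Ex_const hq.sum_one]
    rw [← Finset.sum_congr rfl h6, ← h5]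
    unfold Ex ms
    have h9 : ∀ v, r v * (Real.log (Fintype.card α) - if b v = true then h else 0) =
        r v * Real.log (Fintype.card α) - h * (if Y v ∈ B (c v) then r v else 0) := by
      intro v
      by_cases hv : Y v ∈ B (c v)
      · simp [hb, hv]
        ring
      · simp [hb, hv]
    rw [Finset.sum_congr rfl fun v _ => h9 v, Finset.sum_sub_distrib, ← Finset.sum_mul,
      hr.sum_one, one_mul, ← Finset.mul_sum]
    congr 2
    refine Finset.sum_congr rfl fun v _ => ?_
    by_cases hv : Y v ∈ B (c v)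
    · rw [if_pos hv, if_pos hv]
    · rw [if_neg hv, if_neg hv]
  rw [le_div_iff₀ hh]
  rw [h4] at h3
  nlinarith [h1, h2, h3]

lemma cev_real {k : ℕ} (z y : Fin k → ℝ) (P : MvPolynomial (Fin k) ℝ) :
    cev z (fun i => ((y i : ℝ) : ℂ)) P =
      ((MvPolynomial.eval (fun i => z i + y i) P : ℝ) : ℂ) := by
  unfold cev
  have h1 := MvPolynomial.aeval_algebraMap_apply ℂ (fun i => z i + y i) P
  have h2 : (algebraMap ℝ ℂ ∘ fun i => z i + y i) = fun i => ((z i : ℝ) : ℂ) + ((y i : ℝ) : ℂ) := by
    funext i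
    simp
  rw [← h2]
  exact h1

/-- Near-constancy in the real cell. -/
lemma NC.cell {k : ℕ} {a : ℝ} {z : Fin k → ℝ} {P : MvPolynomial (Fin k) ℝ} (h : NC (1 / 2) a z P)
    {z₁ z₂ : Fin k → ℝ} (h₁ : ∀ i, |z₁ i - z i| ≤ a) (h₂ : ∀ i, |z₂ i - z i| ≤ a) :
    |MvPolynomial.eval z₁ P| ≤ 3 * |MvPolynomial.eval z₂ P| := by
  have key : ∀ z' : Fin k → ℝ, (∀ i, |z' i - z i| ≤ a) →
      |MvPolynomial.eval z' P - MvPolynomial.eval z P| ≤ 1 / 2 * |MvPolynomial.eval z P| := by
    intro z' hz'
    have h3 := h.2 (fun i => ((z' i - z i : ℝ) : ℂ)) (by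
      intro i
      rw [Complex.norm_real, Real.norm_eq_abs]
      exact hz' i)
    rw [cev_real] at h3
    have h4 : (fun i => z i + (z' i - z i)) = z' := by
      funext i
      ring
    rw [h4, ← Complex.ofReal_sub, Complex.norm_real, Real.norm_eq_abs] at h3
    exact h3
  have a1 := key z₁ h₁
  have a2 := key z₂ h₂
  have b1 := abs_sub_abs_le_abs_sub (MvPolynomial.eval z₁ P) (MvPolynomial.eval z P)
  have b2 := abs_sub_abs_le_abs_sub (MvPolynomial.eval z P) (MvPolynomial.eval z₂ P)
  rw [abs_sub_comm] at b2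
  linarith

lemma NC.cs {k : ℕ} {a s : ℝ} {z : Fin k → ℝ} {P : MvPolynomial (Fin k) ℝ}
    (h : NC (1 / 2) a z P) (hs : 0 ≤ s) (hsa : s ≤ a) {z' : Fin k → ℝ}
    (h' : ∀ i, z i ≤ z' i ∧ z' i ≤ z i + s) : cs z s P ≤ 3 * |MvPolynomial.eval z' P| := by
  refine SML.cs_le _ (by positivity) fun y hy => ?_
  refine h.cell (fun i => ?_) (fun i => ?_)
  · have := hy i
    rw [abs_le]
    constructor <;> linarith [this.1, this.2]
  · have := h' i
    rw [abs_le]
    constructor <;> linarith [this.1, this.2]

/-- **Near-constancy, event form.** -/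
theorem nc_ev (k K m : ℕ) (ε : ℝ) (hε : 0 < ε) : ∃ C : ℝ, 1 ≤ C ∧
    ∀ (V Γ : Type) [Fintype V] (r : V → ℝ) (c : V → Γ) (L : ℕ) (Y : V → Fin k → Fin L)
      (P : Γ → Fin m → MvPolynomial (Fin k) ℝ) (g h : ℝ),
      IsLaw r → 1 ≤ L → 1 ≤ g → 0 < h → C * g * Real.exp h ≤ L →
      (∀ v, 0 < r v → ∀ j, (P (c v) j).totalDegree ≤ K) →
      ms r (fun v => ¬ ∀ j, P (c v) j = 0 ∨ NC ε (g / L) (gp L (Y v)) (P (c v) j)) ≤
        (k * Real.log L - CH r Y c + Real.log 2) / h := by
  classical
  obtain ⟨C₁, hC₁, hn⟩ := nc_count k K ε hε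
  refine ⟨(m + 1) * C₁, ?_, ?_⟩
  · have : (0 : ℝ) ≤ m := Nat.cast_nonneg m
    nlinarith
  intro V Γ _ r c L Y P g h hr hL hg hh hCL hdeg
  have hL0 : (0 : ℝ) < L := by exact_mod_cast hL
  -- the bad sets
  have hex : ∀ γ : Γ, ∀ j : Fin m, ∃ B : Finset (Fin k → Fin L), (P γ j).totalDegree ≤ K →
      ((B.card : ℝ) * L ≤ C₁ * g * (L : ℝ) ^ k ∧
      ∀ c, c ∉ B → P γ j = 0 ∨ NC ε (g / L) (gp L c) (P γ j)) := by
    intro γ j
    by_cases h0 : P γ j = 0
    · exact ⟨∅, fun _ => ⟨by simp; positivity, fun c _ => Or.inl h0⟩⟩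
    · by_cases hd : (P γ j).totalDegree ≤ K
      · obtain ⟨B, h1, h2⟩ := hn (P γ j) h0 hd L g hL hg
        exact ⟨B, fun _ => ⟨h1, fun c hc => Or.inr (h2 c hc)⟩⟩
      · exact ⟨∅, fun h => absurd h hd⟩
  choose B hB using hex
  set B' : Γ → Finset (Fin k → Fin L) := fun γ => Finset.univ.biUnion (B γ) with hB'
  have h1 := bad_ev hr c Y B' hh (by
    intro v hv
    have h2 : ((B' (c v)).card : ℝ) ≤ ∑ j : Fin m, ((B (c v) j).card : ℝ) := by
      exact_mod_cast Finset.card_biUnion_le (s := Finset.univ) (t := B (c v))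
    have h3 : (∑ j : Fin m, ((B (c v) j).card : ℝ)) * L ≤ m * (C₁ * g * (L : ℝ) ^ k) := by
      rw [Finset.sum_mul]
      refine (Finset.sum_le_sum fun j _ => (hB (c v) j (hdeg v hv j)).1).trans (le_of_eq ?_)
      rw [Finset.sum_const, Finset.card_univ, Fintype.card_fin, nsmul_eq_mul]
    have h4 : ((B' (c v)).card : ℝ) * L ≤ m * (C₁ * g * (L : ℝ) ^ k) :=
      (mul_le_mul_of_nonneg_right h2 hL0.le).trans h3
    have h5 : m * (C₁ * g * (L : ℝ) ^ k) ≤ Real.exp (-h) * (L : ℝ) ^ k * L := by
      have h6 : (m : ℝ) * C₁ * g ≤ Real.exp (-h) * L := by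
        have h7 : (m : ℝ) * C₁ * g * Real.exp h ≤ L := by
          refine le_trans ?_ hCL
          have : 0 ≤ C₁ * g * Real.exp h := by positivity
          nlinarith
        have h8 := mul_le_mul_of_nonneg_left h7 (Real.exp_pos (-h)).le
        calc (m : ℝ) * C₁ * g = Real.exp (-h) * (m * C₁ * g * Real.exp h) := by
              rw [Real.exp_neg]
              field_simp
          _ ≤ _ := h8
      have h9 : (0 : ℝ) ≤ (L : ℝ) ^ k := by positivity
      calc m * (C₁ * g * (L : ℝ) ^ k) = (m * C₁ * g) * (L : ℝ) ^ k := by ring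
        _ ≤ (Real.exp (-h) * L) * (L : ℝ) ^ k := mul_le_mul_of_nonneg_right h6 h9
        _ = _ := by ring
    have h6 := le_of_mul_le_mul_right (h4.trans h5) hL0
    rw [Fintype.card_fun, Fintype.card_fin, Fintype.card_fin]
    push_cast
    exact h6)
  rw [Fintype.card_fun, Fintype.card_fin, Fintype.card_fin] at h1
  push_cast at h1
  rw [Real.log_pow] at h1
  refine le_trans (ms_le hr.nonneg ?_) h1
  intro v hv hn'
  by_contra hcon
  apply hn'
  intro j
  refine (hB (c v) j (hdeg v hv j)).2 (Y v) fun h2 => hcon ?_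
  exact Finset.mem_biUnion.mpr ⟨j, Finset.mem_univ _, h2⟩

end Pool.EXS
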