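import Pool.Agent.H86.EXT.Tr
import Pool.Agent.H50.PW.Cover
import Pool.Agent.H45.EXA.Lam
import Pool.Agent.H99.GEN.Gr

/-!
# One more coordinate: labels and numbers
-/

set_option autoImplicit false

namespace Pool.EXTC

open Finset Real MvPolynomial
open Pool.Agent.H49.Ent Pool.Agent.H32.Dense Pool.STK Pool.KA Pool.KSAT Pool.K2S Pool.PB Pool.GEN
open Pool.S6C
open Pool.GRD (LbP)

variable {m J : ℕ}

/-! ### Polynomials -/

/-- The polynomial in one more variable. -/
noncomputable def upG (G : MvPolynomial (Option (Fin m)) ℝ) :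
    MvPolynomial (Option (Fin (m + 1))) ℝ := rename (Option.map Fin.castSucc) G

/-- The variables, the last one is put equal to zero. -/
noncomputable def dnV : Option (Fin (m + 1)) → MvPolynomial (Option (Fin m)) ℝ
  | none => X none
  | some i => Fin.lastCases (motive := fun _ => MvPolynomial (Option (Fin m)) ℝ) 0
      (fun j => X (some j)) i

/-- The polynomial with the last variable equal to zero. -/
noncomputable def dnG (G : MvPolynomial (Option (Fin (m + 1))) ℝ) :
    MvPolynomial (Option (Fin m)) ℝ := bind₁ dnV G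

/-- A point with last coordinate `a`. -/
noncomputable def exb (b : Option (Fin m) → ℝ) (a : ℝ) : Option (Fin (m + 1)) → ℝ
  | none => b none
  | some i => Fin.lastCases (motive := fun _ => ℝ) a (fun j => b (some j)) i

theorem exb_none (b : Option (Fin m) → ℝ) (a : ℝ) : exb b a none = b none := rfl

theorem exb_cs (b : Option (Fin m) → ℝ) (a : ℝ) (i : Fin m) :
    exb b a (some i.castSucc) = b (some i) := by
  change Fin.lastCases (motive := fun _ => ℝ) a (fun j => b (some j)) i.castSucc = _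
  rw [Fin.lastCases_castSucc]

theorem exb_last (b : Option (Fin m) → ℝ) (a : ℝ) : exb b a (some (Fin.last m)) = a := by
  change Fin.lastCases (motive := fun _ => ℝ) a (fun j => b (some j)) (Fin.last m) = _
  rw [Fin.lastCases_last]

theorem exb_map (b : Option (Fin m) → ℝ) (a : ℝ) :
    (fun o => exb b a (Option.map Fin.castSucc o)) = b := by
  funext o
  cases o with
  | none => rfl
  | some i => exact exb_cs b a i

theorem dnV_deg (o : Option (Fin (m + 1))) : (dnV (m := m) o).totalDegree ≤ 1 := by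
  cases o with
  | none =>
    change (X none : MvPolynomial (Option (Fin m)) ℝ).totalDegree ≤ 1
    rw [totalDegree_X]
  | some i =>
    refine Fin.lastCases ?_ (fun j => ?_) i
    · change (Fin.lastCases (motive := fun _ => MvPolynomial (Option (Fin m)) ℝ) 0
        (fun j => X (some j)) (Fin.last m)).totalDegree ≤ 1
      rw [Fin.lastCases_last, totalDegree_zero]
      exact Nat.zero_le _
    · change (Fin.lastCases (motive := fun _ => MvPolynomial (Option (Fin m)) ℝ) 0
        (fun j => X (some j)) j.castSucc).totalDegree ≤ 1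
      rw [Fin.lastCases_castSucc, totalDegree_X]

theorem dnG_deg (G : MvPolynomial (Option (Fin (m + 1))) ℝ) :
    (dnG G).totalDegree ≤ G.totalDegree := Pool.Agent.H50.PW.totalDegree_bind₁_le dnV dnV_deg G

theorem eval_dnV (b : Option (Fin m) → ℝ) (o : Option (Fin (m + 1))) :
    eval b (dnV o) = exb b 0 o := by
  cases o with
  | none =>
    change eval b (X none) = _
    rw [eval_X]
    rfl
  | some i =>
    refine Fin.lastCases ?_ (fun j => ?_) i
    · rw [exb_last]
      change eval b (Fin.lastCases (motive := fun _ => MvPolynomial (Option (Fin m)) ℝ) 0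
        (fun j => X (some j)) (Fin.last m)) = 0
      rw [Fin.lastCases_last, map_zero]
    · rw [exb_cs]
      change eval b (Fin.lastCases (motive := fun _ => MvPolynomial (Option (Fin m)) ℝ) 0
        (fun j => X (some j)) j.castSucc) = _
      rw [Fin.lastCases_castSucc, eval_X]

theorem eval_dnG (b : Option (Fin m) → ℝ) (G : MvPolynomial (Option (Fin (m + 1))) ℝ) :
    eval b (dnG G) = eval (exb b 0) G := by
  unfold dnG
  rw [← coe_aeval_eq_eval, ← coe_aeval_eq_eval, RingHom.coe_coe, RingHom.coe_coe, aeval_bind₁]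
  congr 1
  congr 1
  funext o
  rw [← eval_dnV]
  rfl

/-- **A polynomial which does not depend on the last variable.** -/
theorem up_dn {I : Finset (Fin m)} (G : MvPolynomial (Option (Fin (m + 1))) ℝ)
    (h : ∀ b b' : Option (Fin (m + 1)) → ℝ, b none = b' none →
      (∀ i ∈ upI I, b (some i) = b' (some i)) → eval b G = eval b' G) : upG (dnG G) = G := by
  apply MvPolynomial.funext
  intro b
  unfold upG
  rw [eval_up, eval_dnG]
  refine h _ _ rfl fun i hi => ?_
  obtain ⟨j, -, rfl⟩ := Finset.mem_map.1 hi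
  change exb _ 0 (some j.castSucc) = _
  rw [exb_cs]
  rfl

/-! ### Labels -/

theorem lbOK_up {F : Fam m J} (k : Fin m) (s : ℕ) {I : Finset (Fin m)} {v : Fin m}
    {K e r w ρ P : ℕ} {A : F.Ω → Prop} {V : Type} {z : PtT F → V} {z' : LnT F → V}
    {G : V → MvPolynomial (Option (Fin m)) ℝ} (h : LbOK F I v K e r w ρ P A z z' G) :
    LbOK (exF k s F) (upI I) v.castSucc K e r w ρ P A (fun y => z (dnP y)) (fun l => z' (dnL l))
      (fun a => upG (G a)) := by
  classical
  have hinj : Function.Injective (Fin.castSucc : Fin m → Fin (m + 1)) := Fin.castSucc_injective m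
  have e2 : ∀ ω, z' (dnL (slam (exF k s F) w ω)) = z' (slam F w ω) := fun ω => by rw [slam_dn]
  refine ⟨fun a => (totalDegree_rename_le _ _).trans (h.deg a), fun a b b' hn hb => ?_,
    fun ω hω => ?_, fun ω hω => ?_, fun ω hω => ?_, fun ω hω b hb o => ?_⟩
  · unfold upG
    rw [eval_up, eval_up]
    exact h.dep a _ _ hn fun i hi => hb i.castSucc (mem_upI.2 hi)
  · rw [e2]
    exact (congrArg z (ptr_dn k s F ω r)).trans (h.cls ω hω)
  · rw [e2, exF_x_cs]
    unfold upG
    rw [eval_up, bt_dn]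
    exact h.pos ω hω
  · have h1 := h.vel ω hω
    rw [e2, exF_d_cs]
    have e4 : ∑ o, bd (exF k s F) ω o * eval (bt (exF k s F) ω)
        (pderiv o (upG (G (z' (slam F w ω))))) = ∑ o, bd F ω o * eval (bt F ω)
        (pderiv o (G (z' (slam F w ω)))) := by
      have e5 : ∀ o : Option (Fin m), bd F ω o * eval (bt F ω)
          (pderiv o (G (z' (slam F w ω)))) = bd (exF k s F) ω (Option.map Fin.castSucc o) *
          eval (bt (exF k s F) ω) (pderiv (Option.map Fin.castSucc o)
            (upG (G (z' (slam F w ω))))) := by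
        intro o
        unfold upG
        rw [pd_up hinj, bt_dn, ← congrFun (bd_dn k s F ω) o]
      rw [Finset.sum_congr rfl fun o _ => e5 o]
      symm
      refine Finset.sum_of_injOn (Option.map Fin.castSucc) (Option.map_injective hinj).injOn
        (fun _ _ => Finset.mem_coe.2 (Finset.mem_univ _)) (fun o _ ho => ?_) (fun o _ => rfl)
      unfold upG
      rw [pd_up_ne (G (z' (slam F w ω))) (fun o' ho' => ho ⟨o', Finset.mem_coe.2
        (Finset.mem_univ _), ho'⟩), map_zero, mul_zero]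
    rw [e4]
    exact h1
  · rw [e2]
    by_cases ho : ∃ o', Option.map Fin.castSucc o' = o
    · obtain ⟨o', rfl⟩ := ho
      unfold upG
      rw [pd_up hinj]
      refine h.lip ω hω _ (fun o => ?_) o'
      have := hb (Option.map Fin.castSucc o)
      rw [← congrFun (bt_dn k s F ω) o]
      exact this
    · push Not at ho
      unfold upG
      rw [pd_up_ne _ ho, map_zero, abs_zero]
      positivity

theorem lbP_up {F : Fam m J} (k : Fin m) (s : ℕ) {I : Finset (Fin m)} {v : Fin m}
    {K r w P : ℕ} {A : F.Ω → Prop} {V : Type} {z : PtT F → V} {z' : LnT F → V}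
    {G : V → MvPolynomial (Option (Fin m)) ℝ} (h : LbP F I v K r w P A z z' G) :
    LbP (exF k s F) (upI I) v.castSucc K r w P A (fun y => z (dnP y)) (fun l => z' (dnL l))
      (fun a => upG (G a)) := by
  have e2 : ∀ ω, z' (dnL (slam (exF k s F) w ω)) = z' (slam F w ω) := fun ω => by rw [slam_dn]
  refine ⟨fun a => (totalDegree_rename_le _ _).trans (h.deg a), fun a b b' hn hb => ?_,
    fun ω hω => ?_, fun ω hω => ?_⟩
  · unfold upG
    rw [eval_up, eval_up]
    exact h.dep a _ _ hn fun i hi => hb i.castSucc (mem_upI.2 hi)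
  · rw [e2]
    exact (congrArg z (ptr_dn k s F ω r)).trans (h.cls ω hω)
  · rw [e2, exF_x_cs]
    unfold upG
    rw [eval_up, bt_dn]
    exact h.pos ω hω

theorem lbOK_dn {F : Fam m J} {k : Fin m} {s : ℕ} {I : Finset (Fin m)} {v : Fin m}
    {K e r w ρ P : ℕ} {A : F.Ω → Prop} {V : Type} {z : PtT (exF k s F) → V}
    {z' : LnT (exF k s F) → V} {G : V → MvPolynomial (Option (Fin (m + 1))) ℝ}
    (h : LbOK (exF k s F) (upI I) v.castSucc K e r w ρ P A z z' G) :
    LbOK F I v K e r w ρ P A (fun y => z (upP k s y)) (fun l => z' (upL k s l))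
      (fun a => dnG (G a)) := by
  classical
  have hinj : Function.Injective (Fin.castSucc : Fin m → Fin (m + 1)) := Fin.castSucc_injective m
  have hG : ∀ a, upG (dnG (G a)) = G a := fun a => up_dn (I := I) (G a) (h.dep a)
  have e3 : ∀ a ω, eval (bt F ω) (dnG (G a)) = eval (bt (exF k s F) ω) (G a) := by
    intro a ω
    conv_rhs => rw [← hG a]
    unfold upG
    rw [eval_up, bt_dn]
  refine ⟨fun a => (dnG_deg _).trans (h.deg a), fun a b b' hn hb => ?_,
    fun ω hω => ?_, fun ω hω => ?_, fun ω hω => ?_, fun ω hω b hb o => ?_⟩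
  · rw [eval_dnG, eval_dnG]
    refine h.dep a _ _ hn fun i hi => ?_
    obtain ⟨j, hj, rfl⟩ := Finset.mem_map.1 hi
    change exb b 0 (some j.castSucc) = exb b' 0 (some j.castSucc)
    rw [exb_cs, exb_cs]
    exact hb j hj
  · have := h.cls ω hω
    rw [ptr_up, slam_up] at this
    exact this
  · have := h.pos ω hω
    rw [exF_x_cs, ← e3] at this
    exact this
  · have h1 := h.vel ω hω
    rw [exF_d_cs] at h1
    have e4 : ∑ o, bd (exF k s F) ω o * eval (bt (exF k s F) ω)
        (pderiv o (G (z' (slam (exF k s F) w ω)))) = ∑ o, bd F ω o * eval (bt F ω)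
        (pderiv o (dnG (G (z' (slam (exF k s F) w ω))))) := by
      have e5 : ∀ o : Option (Fin m), bd F ω o * eval (bt F ω)
          (pderiv o (dnG (G (z' (slam (exF k s F) w ω))))) =
          bd (exF k s F) ω (Option.map Fin.castSucc o) *
          eval (bt (exF k s F) ω) (pderiv (Option.map Fin.castSucc o)
            (G (z' (slam (exF k s F) w ω)))) := by
        intro o
        conv_rhs => rw [← hG (z' (slam (exF k s F) w ω))]
        unfold upG
        rw [pd_up hinj, bt_dn, ← congrFun (bd_dn k s F ω) o]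
      rw [Finset.sum_congr rfl fun o _ => e5 o]
      symm
      refine Finset.sum_of_injOn (Option.map Fin.castSucc) (Option.map_injective hinj).injOn
        (fun _ _ => Finset.mem_coe.2 (Finset.mem_univ _)) (fun o _ ho => ?_) (fun o _ => rfl)
      rw [← hG (z' (slam (exF k s F) w ω))]
      unfold upG
      rw [pd_up_ne (dnG (G (z' (slam (exF k s F) w ω)))) (fun o' ho' => ho ⟨o', Finset.mem_coe.2
        (Finset.mem_univ _), ho'⟩), map_zero, mul_zero]
    rw [e4] at h1
    exact h1
  · have h1 := h.lip ω hω (exb b (bt (exF k s F) ω (some (Fin.last m)))) (fun o' => ?_)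
      (Option.map Fin.castSucc o)
    · rw [← hG (z' (slam (exF k s F) w ω))] at h1
      unfold upG at h1
      rw [pd_up hinj, exb_map] at h1
      exact h1
    · by_cases ho : ∃ o, Option.map Fin.castSucc o = o'
      · obtain ⟨o, rfl⟩ := ho
        have h2 := hb o
        rw [← congrFun (bt_dn k s F ω) o] at h2
        have h3 := congrFun (exb_map b (bt (exF k s F) ω (some (Fin.last m)))) o
        rw [h3]
        exact h2
      · have h3 : o' = some (Fin.last m) := by
          cases o' with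
          | none => exact absurd ⟨none, rfl⟩ ho
          | some i =>
            revert ho
            refine Fin.lastCases ?_ (fun j => ?_) i
            · intro _; rfl
            · intro ho
              exact absurd ⟨some j, rfl⟩ ho
        rw [h3, exb_last, sub_self, abs_zero]
        positivity

theorem lbP_dn {F : Fam m J} {k : Fin m} {s : ℕ} {I : Finset (Fin m)} {v : Fin m}
    {K r w P : ℕ} {A : F.Ω → Prop} {V : Type} {z : PtT (exF k s F) → V}
    {z' : LnT (exF k s F) → V} {G : V → MvPolynomial (Option (Fin (m + 1))) ℝ}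
    (h : LbP (exF k s F) (upI I) v.castSucc K r w P A z z' G) :
    LbP F I v K r w P A (fun y => z (upP k s y)) (fun l => z' (upL k s l))
      (fun a => dnG (G a)) := by
  have hG : ∀ a, upG (dnG (G a)) = G a := fun a => up_dn (I := I) (G a) (h.dep a)
  have e3 : ∀ a ω, eval (bt F ω) (dnG (G a)) = eval (bt (exF k s F) ω) (G a) := by
    intro a ω
    conv_rhs => rw [← hG a]
    unfold upG
    rw [eval_up, bt_dn]
  refine ⟨fun a => (dnG_deg _).trans (h.deg a), fun a b b' hn hb => ?_,
    fun ω hω => ?_, fun ω hω => ?_⟩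
  · rw [eval_dnG, eval_dnG]
    refine h.dep a _ _ hn fun i hi => ?_
    obtain ⟨j, hj, rfl⟩ := Finset.mem_map.1 hi
    change exb b 0 (some j.castSucc) = exb b' 0 (some j.castSucc)
    rw [exb_cs, exb_cs]
    exact hb j hj
  · have := h.cls ω hω
    rw [ptr_up, slam_up] at this
    exact this
  · have := h.pos ω hω
    rw [exF_x_cs, ← e3] at this
    exact this

/-- **Closed labels of the old coordinates.** -/
theorem lb_ex {F : Fam m J} {k : Fin m} {s : ℕ} {I : Finset (Fin m)} {v : Fin m}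
    {K e r w ρ P : ℕ} {A : F.Ω → Prop} :
    Lb (exF k s F) (upI I) v.castSucc K e r w ρ P A ↔ Lb F I v K e r w ρ P A := by
  constructor
  · rintro ⟨V, z, z', G, h⟩
    exact ⟨V, _, _, _, lbOK_dn h⟩
  · rintro ⟨V, z, z', G, h⟩
    exact ⟨V, _, _, _, lbOK_up k s h⟩

/-! ### Labels of the new coordinate -/

/-- **A label of the new coordinate** from a label of the coordinate `k`. -/
theorem lbOK_last {F : Fam m J} (k : Fin m) (s : ℕ) {I : Finset (Fin m)}
    {K e e' r w ρ P : ℕ} {A : F.Ω → Prop} {V : Type} {z : PtT F → V} {z' : LnT F → V}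
    {G : V → MvPolynomial (Option (Fin m)) ℝ} (h : LbOK F I k K e r w ρ P A z z' G)
    (he : e ≤ e' + s) :
    LbOK (exF k s F) (upI I) (Fin.last m) K e' r w ρ (P + s) A (fun y => z (dnP y))
      (fun l => z' (dnL l)) (fun a => C (1 / 2 ^ s : ℝ) * upG (G a)) := by
  have hp : (0 : ℝ) < 2 ^ s := by positivity
  have h1 := lbOK_up k s h
  have epd : ∀ (a : V) (o : Option (Fin (m + 1))) (b : Option (Fin (m + 1)) → ℝ),
      eval b (pderiv o (C (1 / 2 ^ s : ℝ) * upG (G a))) =
        (1 / 2 ^ s) * eval b (pderiv o (upG (G a))) := by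
    intro a o b
    rw [pderiv_C_mul, map_mul, eval_C]
  refine ⟨fun a => ?_, fun a b b' hn hb => ?_, h1.cls, fun ω hω => ?_, fun ω hω => ?_,
    fun ω hω b hb o => ?_⟩
  · refine (totalDegree_mul _ _).trans ?_
    rw [totalDegree_C, zero_add]
    exact h1.deg a
  · rw [map_mul, map_mul, eval_C, eval_C, h1.dep a b b' hn hb]
  · have h2 := h1.pos ω hω
    rw [map_mul, eval_C, exF_x_last]
    rw [exF_x_cs] at h2
    have e1 : F.x ω k / 2 ^ s - 1 / 2 ^ s * eval (bt (exF k s F) ω)
        (upG (G (z' (dnL (slam (exF k s F) w ω))))) =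
        (F.x ω k - eval (bt (exF k s F) ω) (upG (G (z' (dnL (slam (exF k s F) w ω)))))) /
          2 ^ s := by ring
    rw [e1, abs_div, abs_of_pos hp, div_le_iff₀ hp]
    refine h2.trans (le_of_eq ?_)
    rw [pow_add]
    field_simp
  · have h2 := h1.vel ω hω
    rw [exF_d_cs] at h2
    rw [exF_d_last]
    have e1 : F.d ω k / 2 ^ s - ∑ o, bd (exF k s F) ω o * eval (bt (exF k s F) ω)
        (pderiv o (C (1 / 2 ^ s : ℝ) * upG (G (z' (dnL (slam (exF k s F) w ω)))))) =
        (F.d ω k - ∑ o, bd (exF k s F) ω o * eval (bt (exF k s F) ω)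
          (pderiv o (upG (G (z' (dnL (slam (exF k s F) w ω))))))) / 2 ^ s := by
      rw [sub_div, Finset.sum_div]
      congr 1
      refine Finset.sum_congr rfl fun o _ => ?_
      rw [epd]
      ring
    rw [e1, abs_div, abs_of_pos hp, div_le_iff₀ hp]
    refine h2.trans (le_of_eq ?_)
    rw [pow_add]
    field_simp
  · rw [epd, abs_mul, abs_of_pos (by positivity : (0 : ℝ) < 1 / 2 ^ s)]
    have h2 := h1.lip ω hω b hb o
    calc 1 / 2 ^ s * _ ≤ 1 / 2 ^ s * 2 ^ e := mul_le_mul_of_nonneg_left h2 (by positivity)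
      _ ≤ 1 / 2 ^ s * 2 ^ (e' + s) := mul_le_mul_of_nonneg_left
          (pow_le_pow_right₀ (by norm_num) he) (by positivity)
      _ = 2 ^ e' := by
          rw [pow_add]
          field_simp

theorem lb_last {F : Fam m J} (k : Fin m) (s : ℕ) {I : Finset (Fin m)}
    {K e e' r w ρ P : ℕ} {A : F.Ω → Prop} (h : Lb F I k K e r w ρ P A) (he : e ≤ e' + s) :
    Lb (exF k s F) (upI I) (Fin.last m) K e' r w ρ (P + s) A := by
  obtain ⟨V, z, z', G, h⟩ := h
  exact ⟨V, _, _, _, lbOK_last k s h he⟩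

theorem lbP_last {F : Fam m J} (k : Fin m) (s : ℕ) {I : Finset (Fin m)}
    {K r w P : ℕ} {A : F.Ω → Prop} {V : Type} {z : PtT F → V} {z' : LnT F → V}
    {G : V → MvPolynomial (Option (Fin m)) ℝ} (h : LbP F I k K r w P A z z' G) :
    LbP (exF k s F) (upI I) (Fin.last m) K r w (P + s) A (fun y => z (dnP y))
      (fun l => z' (dnL l)) (fun a => C (1 / 2 ^ s : ℝ) * upG (G a)) := by
  have hp : (0 : ℝ) < 2 ^ s := by positivity
  have h1 := lbP_up k s h
  refine ⟨fun a => ?_, fun a b b' hn hb => ?_, h1.cls, fun ω hω => ?_⟩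
  · refine (totalDegree_mul _ _).trans ?_
    rw [totalDegree_C, zero_add]
    exact h1.deg a
  · rw [map_mul, map_mul, eval_C, eval_C, h1.dep a b b' hn hb]
  · have h2 := h1.pos ω hω
    rw [map_mul, eval_C, exF_x_last]
    rw [exF_x_cs] at h2
    have e1 : F.x ω k / 2 ^ s - 1 / 2 ^ s * eval (bt (exF k s F) ω)
        (upG (G (z' (dnL (slam (exF k s F) w ω))))) =
        (F.x ω k - eval (bt (exF k s F) ω) (upG (G (z' (dnL (slam (exF k s F) w ω)))))) /
          2 ^ s := by ring
    rw [e1, abs_div, abs_of_pos hp, div_le_iff₀ hp]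
    refine h2.trans (le_of_eq ?_)
    rw [pow_add]
    field_simp

/-! ### Numbers -/

/-- **Uniqueness of the numbers.** Labels of `S` give labels of `S'` and conversely. -/
theorem lam_le {n : ℕ} {S : PCl m} {S' : PCl n} {L : Finset (Fin m) → Fin m → ℝ → ℝ → ℝ}
    {L' : Finset (Fin n) → Fin n → ℝ → ℝ → ℝ} (hL : LamW S L) (hL' : LamW S' L')
    (hne : S'.Ne) {I : Finset (Fin m)} {v : Fin m} {I' : Finset (Fin n)} {v' : Fin n}
    (imp : ∀ (K : ℕ) (e w ρ P : ℝ), Bas S (fun J F A => Lb F I v K ⌊e * J⌋₊ J ⌊w * J⌋₊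
      ⌊ρ * J⌋₊ ⌊P * J⌋₊ A) → Bas S' (fun J F A => Lb F I' v' K ⌊e * J⌋₊ J ⌊w * J⌋₊
      ⌊ρ * J⌋₊ ⌊P * J⌋₊ A)) {w : ℝ} (hw : 0 ≤ w) (r : ℝ) : L I v w r ≤ L' I' v' w r := by
  by_contra hcon
  push Not at hcon
  obtain ⟨h, hh⟩ : ∃ h, h = (L I v w r + L' I' v' w r) / 2 := ⟨_, rfl⟩
  have h1 : L' I' v' w r < h := by rw [hh]; linarith
  have h2 : h < L I v w r := by rw [hh]; linarith
  obtain ⟨d, hd, hd1, habs⟩ := hL'.abs I' v' w r h h1 (h2.le.trans (hL.le1 _ _ _ _))
  obtain ⟨e, he0, hed, heh⟩ : ∃ e : ℝ, 0 < e ∧ e ≤ d ∧ h ≤ L I v w r - e := by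
    refine ⟨min d (L I v w r - h), lt_min hd (by linarith), min_le_left _ _, ?_⟩
    linarith [min_le_right d (L I v w r - h)]
  obtain ⟨K, hK⟩ := hL.att I v w (w + e) r e (by linarith) (by linarith) (by linarith) he0
  obtain ⟨τ, hτ, J₁, hb⟩ := (imp K e (w + e) (r + e) _ hK).and (habs e hed K)
  obtain ⟨J, hJ, F, A, hA⟩ := hne τ hτ J₁
  obtain ⟨g1, g2⟩ := hb J hJ F A hA
  apply g2
  obtain ⟨V, z, z', G, hG⟩ := g1
  exact ⟨V, z, z', G, hG.mono (Finset.Subset.refl _) le_rfl le_rfl le_rfl
    (Nat.floor_le_floor (mul_le_mul_of_nonneg_right heh (Nat.cast_nonneg J)))⟩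

/-- **The numbers of the extension and of the class agree.** -/
theorem lam_ex {S : PCl m} {k : Fin m} {s : ℝ} (hne : S.Ne)
    {L : Finset (Fin m) → Fin m → ℝ → ℝ → ℝ}
    {L' : Finset (Fin (m + 1)) → Fin (m + 1) → ℝ → ℝ → ℝ} (hL : LamW S L)
    (hL' : LamW (exC S k s) L') (I : Finset (Fin m)) (v : Fin m) {w : ℝ} (hw : 0 ≤ w) (r : ℝ) :
    L' (upI I) v.castSucc w r = L I v w r := by
  refine le_antisymm ?_ ?_
  · refine lam_le hL' hL hne (fun K e w ρ P hB => ?_) hw r
    exact Bas.mono 0 (bas_exC.1 hB) fun J _ F A h => lb_ex.1 h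
  · refine lam_le hL hL' (ne_exC hne) (fun K e w ρ P hB => ?_) hw r
    exact bas_exC.2 (Bas.mono 0 hB fun J _ F A h => lb_ex.2 h)

/-- **The numbers of the extension.** -/
theorem lamW_ex {S : PCl m} (k : Fin m) (s : ℝ) (hne : S.Ne)
    {L : Finset (Fin m) → Fin m → ℝ → ℝ → ℝ} (hL : LamW S L) :
    ∃ (S' : PCl m) (L' : Finset (Fin (m + 1)) → Fin (m + 1) → ℝ → ℝ → ℝ), S'.Ne ∧
      (∀ (τ : ℝ) (J : ℕ) (F : Fam m J) (A : F.Ω → Prop), S'.St τ J F A → S.St τ J F A) ∧
      LamW S' L ∧ LamW (exC S' k s) L' ∧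
      ∀ (I : Finset (Fin m)) (v : Fin m) (w : ℝ), 0 ≤ w → ∀ r : ℝ,
        L' (upI I) v.castSucc w r = L I v w r := by
  obtain ⟨S₁, L', hne₁, hsub, hL'⟩ := lamw (exC S k s) (ne_exC hne)
  have hS' : (bkC S₁ S k s).Ne := ne_bkC hsub hne₁
  have h1 : LamW (bkC S₁ S k s) L := hL.sub bkC_le
  have h2 : LamW (exC (bkC S₁ S k s) k s) L' := hL'.sub exC_bkC
  exact ⟨bkC S₁ S k s, L', hS', bkC_le, h1, h2, fun I v w hw r => lam_ex hS' h1 h2 I v hw r⟩

end Pool.EXTC
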