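import Pool.Agent.H86.IE.Ev

/-!
# The equation of a leaf along a long line

`line_ev`: a leaf with its universal equation `Q` (jets of M3F on the chart of the leaf), a long
line through a typical point of the leaf, and another typical time. Outside a set of small
probability: some derivative `pN k Q` is small on the line at the other time compared with
`pN (k + 1) Q`, with control of the higher derivatives (`LnR`).
-/

set_option autoImplicit false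

namespace Pool.IEN

open Finset Real
open Pool.Agent.H49.Ent Pool.Agent.H32.Dense Pool.STK Pool.KAF Pool.KAL Pool.KS3 Pool.M3F Pool.KJA

/-- The equation at a point. -/
structure LnR {d : ℕ} (D : ℕ) (Q : MvPolynomial (Option (Fin d)) ℝ) (H : ℝ) (θ : ℕ → ℝ)
    (x : Option (Fin d) → ℝ) (k : ℕ) : Prop where
  le : k + 1 ≤ D
  pos : 0 < |MvPolynomial.eval x (pN (k + 1) Q)|
  low : |MvPolynomial.eval x (pN k Q)| ≤ θ k * (H * |MvPolynomial.eval x (pN (k + 1) Q)|)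
  high : ∀ m, |MvPolynomial.eval x (pN (k + 1 + m) Q)| * θ (k + 1) ^ m ≤
    H * |MvPolynomial.eval x (pN (k + 1) Q)|

/-- **The equation along the line.** -/
theorem line_ev (d D k₀ : ℕ) : ∃ C : ℝ, 1 ≤ C ∧
    ∀ (C₀ κ : ℝ) (V Z Lw : Type) [Fintype V] (r : V → ℝ) (ζ : V → Z) (lw : V → Lw)
      (Yb : V → Fin d → ℕ) (Ng : Z → Fin d → ℕ) (G : Z → Fin d → MvPolynomial (Fin d) ℝ)
      (w : Z → Fin d → ℝ) (F : Z → MvPolynomial (Fin d) ℝ) (M W : ℕ)
      (A' B' : Lw → Option (Fin d) → ℝ) (T₁ T₂ : V → ℕ)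
      (Q : Z → MvPolynomial (Option (Fin d)) ℝ) (ρ : Z → ℝ) (h E H KK L Λ μ : ℝ),
      1 ≤ C₀ → 1 ≤ κ → 1 ≤ M → 1 ≤ W → 1 ≤ E → 1 ≤ L → 1 ≤ Λ → IsLaw r →
      (∀ v, 0 < r v → Tri k₀ C₀ M (Ng (ζ v)) (G (ζ v)) (w (ζ v)) (F (ζ v))) →
      (∀ v, 0 < r v → ChartOK (k₀ + 1) κ M (Ng (ζ v)) (triC (G (ζ v)) (w (ζ v)) (F (ζ v)))) →
      (∀ v, 0 < r v → ∀ i, E ≤ Ng (ζ v) i) →
      (∀ v, 0 < r v → ∀ i, Yb v i < Ng (ζ v) i) →
      Ex r (fun v => ∑ i, Real.log (Ng (ζ v) i)) - CH r Yb ζ ≤ μ → 0 ≤ μ →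
      (∀ v, 0 < r v → T₁ v < W * M) → (∀ v, 0 < r v → T₂ v < W * M) →
      (∀ v, 0 < r v → ∀ o, |(A' (lw v) o + (T₁ v : ℝ) / M * B' (lw v) o) -
        cpt (triC (G (ζ v)) (w (ζ v)) (F (ζ v))) (gpos (Ng (ζ v)) (Yb v)) o| ≤ κ / M) →
      (∀ v, 0 < r v → (Q (ζ v)).totalDegree ≤ D) →
      (∀ v, 0 < r v → 0 < ρ (ζ v) ∧ 1 ≤ M * ρ (ζ v)) →
      (∀ v, 0 < r v → ∀ Φ, Φ = triC (G (ζ v)) (w (ζ v)) (F (ζ v)) →
        0 < csC Φ (pN 1 (Q (ζ v))) ∧
        csC Φ (Q (ζ v)) ≤ ρ (ζ v) * csC Φ (pN 1 (Q (ζ v))) ∧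
        ∀ j, csC Φ (pN (j + 1) (Q (ζ v))) * ρ (ζ v) ^ j ≤ csC Φ (pN 1 (Q (ζ v)))) →
      0 < h → C * Real.exp h ≤ M → C * Real.exp h ≤ H →
      (C * κ * C₀ ^ (2 * d)) ^ (D + 1) ≤ KK → 4 * KK * (1 / E + D / L) * H ≤ 1 →
      ms r (fun v => ¬ ∃ k, Gap D (aL W (A' (lw v)) (B' (lw v)) (Q (ζ v)))
          (bth D KK H L Λ (ρ (ζ v))) k ∧
        LnR D (Q (ζ v)) H (bth D KK H L Λ (ρ (ζ v))) (ltW W (A' (lw v)) (B' (lw v))
          ((T₂ v : ℝ) / ((W * M : ℕ) : ℝ))) k) ≤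
        C * (1 + μ + (Real.log ((W * M : ℕ) : ℝ) - CH r T₁ (fun v => (lw v, ζ v))) +
          (Real.log ((W * M : ℕ) : ℝ) - CH r T₂ (fun v => (lw v, ζ v)))) / h := by
  classical
  obtain ⟨C₁, hC₁, hjt⟩ := jet_tri d D k₀
  obtain ⟨C₃, hC₃, hrev⟩ := rev d ((k₀ + 1) * D)
  obtain ⟨C₄, hC₄, htim⟩ := tim_ev D
  set K₂ : ℝ := ((D : ℝ) + 1) * (2 * (D + 1) * (1 + C₄)) with hK₂
  set K₃ : ℝ := ((D : ℝ) + 1) * (2 * (((k₀ + 1) * D : ℕ) + 1) * (1 + C₃)) with hK₃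
  set K₄ : ℝ := 2 * (D + 1) * (1 + C₄) with hK₄
  have hD0 : (0 : ℝ) ≤ D := Nat.cast_nonneg D
  have hE00 : (0 : ℝ) ≤ (((k₀ + 1) * D : ℕ) : ℝ) := Nat.cast_nonneg _
  have hK₂0 : 0 ≤ K₂ := by positivity
  have hK₃0 : 0 ≤ K₃ := by positivity
  have hK₄0 : 0 ≤ K₄ := by positivity
  set C : ℝ := C₁ + C₄ + 2 + K₂ + K₃ + K₄ with hC
  have hC1 : 1 ≤ C := by
    rw [hC]
    linarith
  refine ⟨C, hC1, ?_⟩
  intro C₀ κ V Z Lw _ r ζ lw Yb Ng G w F M W A' B' T₁ T₂ Q ρ h E H KK L Λ μ hC₀ hκ hM hW hE hL hΛ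
    hr hTri hch hEN hYlt hμ hμ0 hT₁ hT₂ hnr hQ₁ hρ hQj hh hhM hhH hKK hKL
  have hr0 := hr.nonneg
  have hM0 : (0 : ℝ) < M := by exact_mod_cast hM
  have hW1 : (1 : ℝ) ≤ W := by exact_mod_cast hW
  have hWM : (0 : ℝ) < ((W * M : ℕ) : ℝ) := by
    push_cast
    positivity
  have hWMM : (M : ℝ) ≤ ((W * M : ℕ) : ℝ) := by
    push_cast
    nlinarith
  have heh := Real.exp_pos h
  have heh1 : 1 ≤ Real.exp h := Real.one_le_exp hh.le
  set Φ : Z → Option (Fin d) → MvPolynomial (Fin d) ℝ := fun ζ => triC (G ζ) (w ζ) (F ζ) with hΦ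
  set δ₁ : ℝ := Real.log ((W * M : ℕ) : ℝ) - CH r T₁ (fun v => (lw v, ζ v)) with hδ₁
  set δ₂ : ℝ := Real.log ((W * M : ℕ) : ℝ) - CH r T₂ (fun v => (lw v, ζ v)) with hδ₂
  have hδ₁0 : 0 ≤ δ₁ := tdef_nonneg hr _ _ _ hT₁
  have hδ₂0 : 0 ≤ δ₂ := tdef_nonneg hr _ _ _ hT₂
  set X : ℝ := 1 + μ + δ₁ + δ₂ with hXdef
  have hX1 : 1 ≤ X := by
    rw [hXdef]
    linarith
  have hdegb : ∀ (Φ' : Option (Fin d) → MvPolynomial (Fin d) ℝ),
      (∀ o, (Φ' o).totalDegree ≤ k₀ + 1) → ∀ R : MvPolynomial (Option (Fin d)) ℝ,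
      R.totalDegree ≤ D → (MvPolynomial.bind₁ Φ' R).totalDegree ≤ (k₀ + 1) * D := fun Φ' h1 R hR =>
    (SML.totalDegree_bind_le Φ' (k₀ + 1) h1 R).trans (Nat.mul_le_mul_left _ hR)
  set c : V → Lw × Z := fun v => (lw v, ζ v) with hc
  have hCM : C₄ * Real.exp h ≤ ((W * M : ℕ) : ℝ) := by
    have h1 : C₄ ≤ C := by
      rw [hC]
      linarith
    exact (mul_le_mul_of_nonneg_right h1 heh.le).trans (hhM.trans hWMM)
  -- the exceptional sets
  set P3 : V → Prop := fun v => ∃ i : Fin (D + 1),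
    0 < cs (fun _ => 0) 1 (MvPolynomial.bind₁ (Φ (ζ v)) (pN i (Q (ζ v)))) ∧
    ∀ u ∈ gcell (Ng (ζ v)) (Yb v),
      |MvPolynomial.eval u (MvPolynomial.bind₁ (Φ (ζ v)) (pN i (Q (ζ v))))| ≤
      Real.exp (-h) * cs (fun _ => 0) 1
        (MvPolynomial.bind₁ (Φ (ζ v)) (pN i (Q (ζ v)))) with hP3
  set P4 : V → Prop := fun v =>
    0 < sp (lq (A' (c v).1) (fun o => W * B' (c v).1 o) (Q (c v).2)) ∧
    |(lq (A' (c v).1) (fun o => W * B' (c v).1 o) (Q (c v).2)).eval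
      ((T₁ v : ℝ) / ((W * M : ℕ) : ℝ))| ≤ 1 / 2 * (Real.exp (-h) *
        sp (lq (A' (c v).1) (fun o => W * B' (c v).1 o) (Q (c v).2))) with hP4
  set P5 : V → Prop := fun v => ∃ i : Fin (D + 1),
    0 < sp (lq (A' (c v).1) (fun o => W * B' (c v).1 o) (pN i (Q (c v).2))) ∧
    |(lq (A' (c v).1) (fun o => W * B' (c v).1 o) (pN i (Q (c v).2))).eval
      ((T₂ v : ℝ) / ((W * M : ℕ) : ℝ))| ≤ 1 / 2 * (Real.exp (-h) *
        sp (lq (A' (c v).1) (fun o => W * B' (c v).1 o) (pN i (Q (c v).2)))) with hP5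
  have hcard : (Fintype.card (Fin (D + 1)) : ℝ) = D + 1 := by
    rw [Fintype.card_fin]
    push_cast
    ring
  have htimb : ∀ (TT : V → ℕ) (gg : Lw × Z → Polynomial ℝ),
      (∀ v, 0 < r v → TT v < W * M) → (∀ v, 0 < r v → (gg (c v)).natDegree ≤ D) →
      Real.log ((W * M : ℕ) : ℝ) - CH r TT c ≤ X →
      ms r (fun v => 0 < sp (gg (c v)) ∧ |(gg (c v)).eval ((TT v : ℝ) / ((W * M : ℕ) : ℝ))| ≤
        1 / 2 * (Real.exp (-h) * sp (gg (c v)))) ≤ K₄ * X / h := by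
    intro TT gg hTT hgg hδ
    have h1 := htim V (Lw × Z) r c TT (W * M) gg h hr hTT hgg hh hCM
    refine le_trans ((ms_eq r _ _).le.trans h1) ?_
    refine div_le_div_of_nonneg_right ?_ hh.le
    rw [show K₄ * X = 2 * ((D : ℝ) + 1) * ((1 + C₄) * X) by rw [hK₄]; ring]
    refine mul_le_mul_of_nonneg_left ?_ (by positivity)
    nlinarith
  have b4 : ms r P4 ≤ K₄ * X / h :=
    htimb T₁ (fun γ => lq (A' γ.1) (fun o => W * B' γ.1 o) (Q γ.2)) hT₁
      (fun v hv => deg_lq _ _ (hQ₁ v hv)) (by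
        rw [hXdef]
        linarith)
  have b5 : ms r P5 ≤ K₂ * X / h := by
    have h1 := ms_ex hr0 (fun (i : Fin (D + 1)) v =>
      0 < sp (lq (A' (c v).1) (fun o => W * B' (c v).1 o) (pN i (Q (c v).2))) ∧
      |(lq (A' (c v).1) (fun o => W * B' (c v).1 o) (pN i (Q (c v).2))).eval
        ((T₂ v : ℝ) / ((W * M : ℕ) : ℝ))| ≤ 1 / 2 * (Real.exp (-h) *
          sp (lq (A' (c v).1) (fun o => W * B' (c v).1 o) (pN i (Q (c v).2)))))
      (fun i => htimb T₂ (fun γ => lq (A' γ.1) (fun o => W * B' γ.1 o) (pN i (Q γ.2))) hT₂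
        (fun v hv => deg_lq _ _ (pN_deg i D (hQ₁ v hv))) (by
          rw [hXdef]
          linarith))
    refine h1.trans (le_of_eq ?_)
    rw [hcard, hK₂, hK₄]
    ring
  have b3 : ms r P3 ≤ K₃ * X / h := by
    have h1 := ms_ex hr0 (fun (i : Fin (D + 1)) v =>
      0 < cs (fun _ => 0) 1 (MvPolynomial.bind₁ (Φ (ζ v)) (pN i (Q (ζ v)))) ∧
      ∀ u ∈ gcell (Ng (ζ v)) (Yb v),
        |MvPolynomial.eval u (MvPolynomial.bind₁ (Φ (ζ v)) (pN i (Q (ζ v))))| ≤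
        Real.exp (-h) * cs (fun _ => 0) 1
          (MvPolynomial.bind₁ (Φ (ζ v)) (pN i (Q (ζ v)))))
      (b := 2 * (((k₀ + 1) * D : ℕ) + 1) * (1 + C₃) * X / h) (fun i => by
        have h2 := hrev V Z r ζ Yb Ng
          (fun ζ => MvPolynomial.bind₁ (Φ ζ) (pN i (Q ζ))) h hr hYlt
          (fun v hv => hdegb _ (hch v hv).deg _ (pN_deg i D (hQ₁ v hv))) hh
        refine le_trans ((ms_eq r _ _).le.trans h2) ?_
        refine div_le_div_of_nonneg_right ?_ hh.le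
        rw [mul_assoc (2 * ((((k₀ + 1) * D : ℕ) : ℝ) + 1))]
        refine mul_le_mul_of_nonneg_left ?_ (by positivity)
        have h3 : μ ≤ X := by
          rw [hXdef]
          linarith
        nlinarith)
    refine h1.trans (le_of_eq ?_)
    rw [hcard, hK₃]
    ring
  have hsub : ∀ v, 0 < r v → (¬ ∃ k, Gap D (aL W (A' (lw v)) (B' (lw v)) (Q (ζ v)))
          (bth D KK H L Λ (ρ (ζ v))) k ∧
        LnR D (Q (ζ v)) H (bth D KK H L Λ (ρ (ζ v))) (ltW W (A' (lw v)) (B' (lw v))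
          ((T₂ v : ℝ) / ((W * M : ℕ) : ℝ))) k) → P3 v ∨ P4 v ∨ P5 v := by
    intro v hv hbad
    by_contra hcon
    push Not at hcon
    obtain ⟨g3, g4, g5⟩ := hcon
    refine hbad ?_
    have hC₀d : (1 : ℝ) ≤ C₀ ^ (2 * d) := one_le_pow₀ hC₀
    have hkk : (C₁ * κ * C₀ ^ (2 * d)) ^ (D + 1) ≤ KK := by
      refine le_trans (pow_le_pow_left₀ (by positivity) ?_ _) hKK
      refine mul_le_mul_of_nonneg_right (mul_le_mul_of_nonneg_right ?_ (by linarith))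
        (by positivity)
      rw [hC]
      linarith
    have hKK1 : 1 ≤ KK := by
      refine le_trans (one_le_pow₀ ?_) hkk
      have h1 : 1 ≤ C₁ * κ := by nlinarith
      nlinarith
    have hH3 : 2 * Real.exp h ≤ H := by
      refine le_trans (mul_le_mul_of_nonneg_right ?_ heh.le) hhH
      rw [hC]
      linarith
    have hH1 : 1 ≤ H := by linarith
    have hH0 : 0 < H := by linarith
    have hconv : ∀ a b : ℝ, 0 ≤ a → 0 ≤ b → (0 < a → 1 / 2 * (Real.exp (-h) * a) < b) →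
        a ≤ 2 * Real.exp h * b := by
      intro a b ha hb hab
      rcases ha.eq_or_lt with h0 | h0
      · rw [← h0]
        positivity
      · have h1 := hab h0
        rw [Real.exp_neg] at h1
        have h2 : a = 2 * Real.exp h * (1 / 2 * ((Real.exp h)⁻¹ * a)) := by
          field_simp
        rw [h2]
        exact mul_le_mul_of_nonneg_left h1.le (by positivity)
    have hgp₁ := gpos_mem (hYlt v hv)
    have hltW : ∀ (TT : ℕ) (o : Option (Fin d)), ltW W (A' (lw v)) (B' (lw v))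
        ((TT : ℝ) / ((W * M : ℕ) : ℝ)) o = A' (lw v) o + (TT : ℝ) / M * B' (lw v) o := by
      intro TT o
      unfold ltW
      push_cast
      field_simp
    have hsm : ∀ TT : ℕ, TT < W * M → (TT : ℝ) / ((W * M : ℕ) : ℝ) ∈ Set.Icc (0 : ℝ) 1 := by
      intro TT hTT
      refine ⟨by positivity, ?_⟩
      rw [div_le_one hWM]
      exact_mod_cast hTT.le
    have hs₁m := hsm _ (hT₁ v hv)
    have hs₂m := hsm _ (hT₂ v hv)
    have hjt₁ := hjt C₀ κ M E (Ng (ζ v)) (G (ζ v)) (w (ζ v))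
      (F (ζ v)) hC₀ hκ hM hE (hTri v hv) (hEN v hv)
    have hval : ∀ s ∈ Set.Icc (0 : ℝ) 1, ∀ k, |MvPolynomial.eval (ltW W (A' (lw v)) (B' (lw v)) s)
        (pN k (Q (ζ v)))| ≤ aL W (A' (lw v)) (B' (lw v)) (Q (ζ v)) k := by
      intro s hs k
      have h1 := le_sp (lq (A' (lw v)) (fun o => W * B' (lw v) o) (pN k (Q (ζ v)))) hs
      rw [eval_lq] at h1
      exact h1
    have hapos : ∀ k, 0 ≤ aL W (A' (lw v)) (B' (lw v)) (Q (ζ v)) k := fun k => sp_nonneg _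
    have ha₂ : ∀ k ≤ D, aL W (A' (lw v)) (B' (lw v)) (Q (ζ v)) k ≤
        H * |MvPolynomial.eval (ltW W (A' (lw v)) (B' (lw v)) ((T₂ v : ℝ) / ((W * M : ℕ) : ℝ)))
          (pN k (Q (ζ v)))| := by
      intro k hk
      have h1 := hconv (aL W (A' (lw v)) (B' (lw v)) (Q (ζ v)) k)
        |MvPolynomial.eval (ltW W (A' (lw v)) (B' (lw v)) ((T₂ v : ℝ) / ((W * M : ℕ) : ℝ)))
          (pN k (Q (ζ v)))| (sp_nonneg _) (abs_nonneg _) (by
          intro h0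
          by_contra hcon
          refine g5 ⟨⟨k, by omega⟩, h0, ?_⟩
          rw [eval_lq]
          exact not_lt.mp hcon)
      exact h1.trans (mul_le_mul_of_nonneg_right hH3 (abs_nonneg _))
    obtain ⟨h1, h2⟩ := bridge (D := D) (M := M) (Φ₁ := Φ (ζ v))
      (Φ₂ := fun o => MvPolynomial.C (cpt (Φ (ζ v)) (gpos (Ng (ζ v)) (Yb v)) o))
      (E := E) (H := H) (L := L) (Λ := Λ) (KK := KK) (κ := κ) (ρ := ρ (ζ v))
      (a := aL W (A' (lw v)) (B' (lw v)) (Q (ζ v)))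
      (lt := ltW W (A' (lw v)) (B' (lw v))) (t₁ := (T₁ v : ℝ) / ((W * M : ℕ) : ℝ))
      (t₂ := (T₂ v : ℝ) / ((W * M : ℕ) : ℝ)) (u₁ := gpos (Ng (ζ v)) (Yb v))
      (y₁ := cpt (Φ (ζ v)) (gpos (Ng (ζ v)) (Yb v)))
      (y₂ := cpt (Φ (ζ v)) (gpos (Ng (ζ v)) (Yb v)))
      hM hE hH1 hL hΛ hKK1 hκ (hρ v hv).1 (hρ v hv).2 (hQj v hv _ rfl).1 (hQ₁ v hv) hgp₁
      (fun R hR => ((hjt₁ R hR _ hgp₁).1).trans (mul_le_mul_of_nonneg_right hkk
        (nj_nonneg D M _ zero_le_one R)))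
      (fun R hR y hy => ((hjt₁ R hR _ hgp₁).2 y hy).trans (mul_le_mul_of_nonneg_right hkk
        (nj_nonneg D M _ (by positivity) R)))
      (fun o => by
        rw [sub_self, abs_zero]
        positivity)
      (fun o => by
        rw [hltW]
        exact hnr v hv o)
      hapos
      (fun k hk => by
        unfold aL
        rw [pN_eq_zero k D (hQ₁ v hv) hk, lq_zero, sp_zero])
      (fun k _ => hval _ hs₁m k)
      (by
        have h1 := hconv (aL W (A' (lw v)) (B' (lw v)) (Q (ζ v)) 0)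
          |MvPolynomial.eval (ltW W (A' (lw v)) (B' (lw v)) ((T₁ v : ℝ) / ((W * M : ℕ) : ℝ)))
            (Q (ζ v))| (sp_nonneg _) (abs_nonneg _) (by
            intro h0
            by_contra hcon
            refine g4 ⟨h0, ?_⟩
            rw [eval_lq]
            exact not_lt.mp hcon)
        exact h1.trans (mul_le_mul_of_nonneg_right hH3 (abs_nonneg _)))
      ha₂
      (by
        intro k hk hpos
        have h1 : ¬ ∀ u ∈ gcell (Ng (ζ v)) (Yb v),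
            |MvPolynomial.eval u (MvPolynomial.bind₁ (Φ (ζ v)) (pN k (Q (ζ v))))| ≤
            Real.exp (-h) * cs (fun _ => 0) 1
              (MvPolynomial.bind₁ (Φ (ζ v)) (pN k (Q (ζ v)))) := fun h2 =>
          g3 ⟨⟨k, by omega⟩, hpos, h2⟩
        push Not at h1
        obtain ⟨u, hu, hu2⟩ := h1
        have hu' := gcell_sub (hYlt v hv) hu
        refine ⟨cpt (Φ (ζ v)) u, ?_, ?_⟩
        · intro o
          refine (hch v hv).step u hu' _ hgp₁ ?_ o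
          intro i
          obtain ⟨h3, h4⟩ := hu i
          have h5 : ((Yb v i : ℝ) + 1) / Ng (ζ v) i =
              (Yb v i : ℝ) / Ng (ζ v) i + 1 / Ng (ζ v) i := by ring
          have h6 : gpos (Ng (ζ v)) (Yb v) i = (Yb v i : ℝ) / Ng (ζ v) i := rfl
          rw [h6, abs_of_nonneg (by linarith)]
          linarith
        · rw [eval_bind] at hu2
          have h3 : csC (Φ (ζ v)) (pN k (Q (ζ v))) ≤
              Real.exp h * |MvPolynomial.eval (cpt (Φ (ζ v)) u) (pN k (Q (ζ v)))| := by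
            have h4 : csC (Φ (ζ v)) (pN k (Q (ζ v))) = Real.exp h *
                (Real.exp (-h) * csC (Φ (ζ v)) (pN k (Q (ζ v)))) := by
              rw [← mul_assoc, ← Real.exp_add, add_neg_cancel, Real.exp_zero, one_mul]
            rw [h4]
            exact mul_le_mul_of_nonneg_left hu2.le heh.le
          refine h3.trans (mul_le_mul_of_nonneg_right ?_ (abs_nonneg _))
          linarith)
      (by
        intro m hm u hu
        have e1 : cpt (fun o => MvPolynomial.C (cpt (Φ (ζ v)) (gpos (Ng (ζ v)) (Yb v)) o)) u =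
            cpt (Φ (ζ v)) (gpos (Ng (ζ v)) (Yb v)) := by
          funext o
          simp [cpt]
        rw [e1]
        have := Psi_nonneg (pN m (Q (ζ v))) (κ / M) (cpt (Φ (ζ v)) (gpos (Ng (ζ v)) (Yb v)))
        nlinarith)
      (by
        intro m hm
        have := Psi_nonneg (pN m (Q (ζ v))) (κ / M) (cpt (Φ (ζ v)) (gpos (Ng (ζ v)) (Yb v)))
        nlinarith)
      rfl (hQj v hv _ rfl).2.1 (hQj v hv _ rfl).2.2 hKL
    obtain ⟨k, hk⟩ := h1
    obtain ⟨b1, b2, _, _⟩ := h2 k hk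
    refine ⟨k, hk, hk.1, b1, ?_, ?_⟩
    · exact (hval _ hs₂m k).trans b2
    · intro m
      have hθ0 : 0 ≤ bth D KK H L Λ (ρ (ζ v)) (k + 1) := by
        unfold bth bE₀ bEb
        have := (hρ v hv).1
        positivity
      calc |MvPolynomial.eval (ltW W (A' (lw v)) (B' (lw v)) ((T₂ v : ℝ) / ((W * M : ℕ) : ℝ)))
            (pN (k + 1 + m) (Q (ζ v)))| * bth D KK H L Λ (ρ (ζ v)) (k + 1) ^ m ≤
            aL W (A' (lw v)) (B' (lw v)) (Q (ζ v)) (k + 1 + m) *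
              bth D KK H L Λ (ρ (ζ v)) (k + 1) ^ m :=
            mul_le_mul_of_nonneg_right (hval _ hs₂m _) (pow_nonneg hθ0 _)
        _ ≤ aL W (A' (lw v)) (B' (lw v)) (Q (ζ v)) (k + 1) := hk.2.2.2 m
        _ ≤ _ := ha₂ (k + 1) hk.1
  have hfin := ms_le hr0 hsub
  refine hfin.trans ?_
  have h1 := ms_or hr0 P3 (fun v => P4 v ∨ P5 v)
  have h2 := ms_or hr0 P4 P5
  have h3 : ms r P3 + (ms r P4 + ms r P5) ≤ (K₃ + K₄ + K₂) * X / h := by
    have e1 : (K₃ + K₄ + K₂) * X / h = K₃ * X / h + (K₄ * X / h + K₂ * X / h) := by ring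
    rw [e1]
    exact add_le_add b3 (add_le_add b4 b5)
  have h4 : (K₃ + K₄ + K₂) * X / h ≤ C * X / h := by
    refine div_le_div_of_nonneg_right (mul_le_mul_of_nonneg_right ?_ (by linarith)) hh.le
    rw [hC]
    linarith
  linarith

end Pool.IEN
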