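import Pool.Agent.H86.EXT.Brn

/-!
# Branches over the natural cells, near-constancy of any family of polynomials

`brg_ev`: `brn_ev` with any family `Rf` of `m` polynomials (functions of the label) of degree at
most `D` instead of the derivatives `pN j Q`.
-/

set_option autoImplicit false

namespace Pool.EXS

open Finset Real
open Pool.Agent.H49.Ent Pool.Agent.H32.Dense Pool.STK Pool.KAF Pool.KAL Pool.KS3 Pool.M3F Pool.KJA
open Pool.IEN

variable {d : ℕ}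

/-- **Branches over the natural cells**, with any family of polynomials. -/
theorem brg_ev (d D K₀ K₂ m₀ : ℕ) : ∃ (n₀ : ℕ) (C : ℝ), 1 ≤ C ∧
    ∀ (M L₁ L₂ : ℕ) (N₂ : Fin d → ℕ) (g S : ℝ), 1 ≤ M → 1 ≤ L₁ → 1 ≤ L₂ → (∀ i, 1 ≤ N₂ i) →
      2 ≤ g → 0 < S →
    ∃ aF : (Fin d → MvPolynomial (Fin d) ℝ) → MvPolynomial (Option (Fin d)) ℝ → (Fin d → ℤ) →
        Fin D → Fin n₀ → MvPolynomial (Fin d) ℝ,
      (∀ G Q b k i, (aF G Q b k i).totalDegree ≤ K₂) ∧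
      ∀ (V Γ : Type) [Fintype V] (r : V → ℝ) (c : V → Γ)
        (G : Γ → Fin d → MvPolynomial (Fin d) ℝ) (b₀ : Γ → Fin d → ℤ)
        (Q : Γ → MvPolynomial (Option (Fin d)) ℝ)
        (Rf : Γ → Fin m₀ → MvPolynomial (Option (Fin d)) ℝ)
        (x : V → Option (Fin d) → ℝ) (η : V → Fin D → ℝ) (h μ : ℝ),
        IsLaw r → 0 < h → C * g * Real.exp h ≤ L₁ → C * Real.exp h ≤ L₂ →
        (∀ v, 0 < r v → TriP (G (c v)) ∧ (∀ i, (G (c v) i).totalDegree ≤ K₀) ∧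
          (∀ j, (Rf (c v) j).totalDegree ≤ D) ∧ (Q (c v)).totalDegree ≤ D) →
        (∀ v, 0 < r v → nidx (fun i => L₁ * (L₂ * N₂ i)) (ndg M (G (c v)) (bse (x v))) =
          b₀ (c v)) →
        ∑ i, Real.log ((L₁ * (L₂ * N₂ i) : ℕ) : ℝ) -
          CH r (fun v => nrem (fun i => L₁ * (L₂ * N₂ i)) (ndg M (G (c v)) (bse (x v)))) c ≤ μ →
        (∀ v, 0 < r v → |x v none| ≤ S) → (∀ v, 0 < r v → ∀ k, 0 < η v k ∧ C * η v k ≤ S) →
        ms r (fun v => ¬ ∀ k : Fin D,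
          0 < |MvPolynomial.eval (x v) (pN (k + 1) (Q (c v)))| →
          |MvPolynomial.eval (x v) (pN k (Q (c v)))| ≤
            η v k * |MvPolynomial.eval (x v) (pN (k + 1) (Q (c v)))| →
          ∃ i : Fin n₀, ∃ b₂ u₂, b₂ = nidx N₂ (ndg M (G (c v)) (bse (x v))) ∧
            u₂ = rpos M N₂ (G (c v)) b₂ (bse (x v)) ∧
            |x v none - MvPolynomial.eval u₂ (aF (G (c v)) (Q (c v)) b₂ k i)| ≤
              C * η v k + C * S / g ^ (K₂ + 1) ∧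
            ∀ j : Fin m₀, ∀ u ∈ ucube d, ∀ u' ∈ ucube d,
              |MvPolynomial.eval (pt (cpt (nchi M N₂ (G (c v)) b₂) u)
                (MvPolynomial.eval u (aF (G (c v)) (Q (c v)) b₂ k i))) (Rf (c v) j)| ≤
              3 * |MvPolynomial.eval (pt (cpt (nchi M N₂ (G (c v)) b₂) u')
                (MvPolynomial.eval u' (aF (G (c v)) (Q (c v)) b₂ k i))) (Rf (c v) j)|) ≤
          2 * (μ + Real.log 2) / h := by
  classical
  set k₀ : ℕ := (K₀ + 1) ^ d with hk₀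
  set K : ℕ := (k₀ + 1) * D with hK
  set n₀ : ℕ := K * K with hn₀
  set ι : Type := Fin m₀ × Fin D × Fin n₀ with hι
  set K' : ℕ := (k₀ + K₂) * D with hK'
  obtain ⟨C₁, hC₁, hext⟩ := ext_ev d K K₂ D
  obtain ⟨C₂, hC₂, hnc⟩ := nc_ev d K' (Fintype.card ι) (1 / 2) (by norm_num)
  have hKc : (0 : ℝ) ≤ K := Nat.cast_nonneg K
  refine ⟨n₀, C₁ + C₂ + 2 * K, by linarith, ?_⟩
  intro M L₁ L₂ N₂ g S hM hL₁ hL₂ hN₂ hg hS
  have hM0 : (0 : ℝ) < M := by exact_mod_cast hM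
  have hL₁0 : (0 : ℝ) < L₁ := by exact_mod_cast hL₁
  have hL₂0 : (0 : ℝ) < L₂ := by exact_mod_cast hL₂
  obtain ⟨b, hbdeg, hbev⟩ := hext L₁ g S hL₁ hg hS
  refine ⟨fun G Q b₂ k i => abr M N₂ hL₁ hL₂ b G Q b₂ k i, fun G Q b₂ k i =>
    afm_deg _ _ (hbdeg _ _ _), ?_⟩
  intro V Γ _ r c G b₀ Q Rf x η h μ hr hh hCL₁ hCL₂ hdat hb₀ hμ hxS hη
  have hr0 := hr.nonneg
  set N₀ : Fin d → ℕ := fun i => L₁ * (L₂ * N₂ i) with hN₀
  have hN₁1 : ∀ i, 1 ≤ L₂ * N₂ i := fun i => Nat.mul_pos hL₂ (hN₂ i)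
  have hN₀1 : ∀ i, 1 ≤ N₀ i := fun i => Nat.mul_pos hL₁ (hN₁1 i)
  set nn : V → Fin d → ℤ := fun v => ndg M (G (c v)) (bse (x v)) with hnn
  set b₂ : V → Fin d → ℤ := fun v => nidx N₂ (nn v) with hb₂
  set m : V → Fin d → ℕ := fun v => nrem N₀ (nn v) with hm
  set Y₁ : V → Fin d → Fin L₁ := fun v => cdg L₁ hL₁ (fun l => b₂ v l / L₂) with hY₁
  set Y₂ : V → Fin d → Fin L₂ := fun v => cdg L₂ hL₂ (b₂ v) with hY₂
  -- arithmetic of the digits
  have hbb : ∀ v l, b₂ v l / L₂ / L₁ = nidx N₀ (nn v) l := by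
    intro v l
    show nn v l / (N₂ l : ℤ) / (L₂ : ℤ) / (L₁ : ℤ) = nn v l / ((N₀ l : ℕ) : ℤ)
    rw [Int.ediv_ediv_of_nonneg (by positivity), Int.ediv_ediv_of_nonneg (by positivity)]
    congr 1
    rw [hN₀]
    push_cast
    ring
  have hY₁d : ∀ v i, (Y₁ v i : ℕ) = m v i / (L₂ * N₂ i) := by
    intro v i
    have h1 := cdg_eq L₁ hL₁ (fun l => b₂ v l / L₂) i
    have h2 := nrem_cast hN₀1 (nn v) i
    have h3 : (m v i : ℤ) = nn v i - b₂ v i / L₂ / L₁ * N₀ i := by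
      rw [hbb v i]
      exact h2
    have h4 : b₂ v i / (L₂ : ℤ) = nn v i / ((L₂ * N₂ i : ℕ) : ℤ) := by
      show nn v i / (N₂ i : ℤ) / (L₂ : ℤ) = _
      rw [Int.ediv_ediv_of_nonneg (by positivity)]
      congr 1
      push_cast
      ring
    have h5 : ((m v i / (L₂ * N₂ i) : ℕ) : ℤ) = b₂ v i / L₂ - b₂ v i / L₂ / L₁ * L₁ := by
      rw [Int.natCast_div, h3, h4]
      have h6 : nn v i - nn v i / ((L₂ * N₂ i : ℕ) : ℤ) / L₁ * (N₀ i : ℤ) =
          nn v i + ((L₂ * N₂ i : ℕ) : ℤ) * (-(nn v i / ((L₂ * N₂ i : ℕ) : ℤ) / L₁ * L₁)) := by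
        rw [hN₀]
        push_cast
        ring
      rw [h6, Int.add_mul_ediv_left _ _ (by
        have : 0 < L₂ * N₂ i := hN₁1 i
        exact_mod_cast this.ne')]
      ring
    exact_mod_cast h1.trans h5.symm
  have hY₂d : ∀ v i, (Y₂ v i : ℕ) = m v i % (L₂ * N₂ i) / N₂ i := by
    intro v i
    have h1 := cdg_eq L₂ hL₂ (b₂ v) i
    have h0 := hY₁d v i
    have h7 := cdg_eq L₁ hL₁ (fun l => b₂ v l / L₂) i
    have h2 := nrem_cast hN₀1 (nn v) i
    have h3 : (m v i : ℤ) = nn v i - b₂ v i / L₂ / L₁ * N₀ i := by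
      rw [hbb v i]
      exact h2
    have h4 : ((m v i % (L₂ * N₂ i) : ℕ) : ℤ) = nn v i - b₂ v i / L₂ * (L₂ * N₂ i : ℕ) := by
      have h5 := Nat.div_add_mod (m v i) (L₂ * N₂ i)
      have h6 : ((m v i % (L₂ * N₂ i) : ℕ) : ℤ) = (m v i : ℤ) -
          ((L₂ * N₂ i : ℕ) : ℤ) * ((m v i / (L₂ * N₂ i) : ℕ) : ℤ) := by
        have : (m v i : ℤ) = ((L₂ * N₂ i : ℕ) : ℤ) * ((m v i / (L₂ * N₂ i) : ℕ) : ℤ) +
            ((m v i % (L₂ * N₂ i) : ℕ) : ℤ) := by exact_mod_cast h5.symm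
        linarith
      rw [h6, ← h0]
      have h8 : (((Y₁ v i : ℕ)) : ℤ) = b₂ v i / L₂ - b₂ v i / L₂ / L₁ * L₁ := h7
      rw [h8, h3]
      rw [hN₀]
      push_cast
      ring
    have h9 : ((m v i % (L₂ * N₂ i) / N₂ i : ℕ) : ℤ) = b₂ v i - b₂ v i / L₂ * L₂ := by
      rw [Int.natCast_div, h4]
      have h6 : nn v i - b₂ v i / L₂ * ((L₂ * N₂ i : ℕ) : ℤ) =
          nn v i + (N₂ i : ℤ) * (-(b₂ v i / L₂ * L₂)) := by
        push_cast
        ring
      rw [h6, Int.add_mul_ediv_left _ _ (by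
        have := hN₂ i
        have : (0 : ℤ) < N₂ i := by exact_mod_cast this
        exact this.ne')]
      show nn v i / (N₂ i : ℤ) + _ = _
      have h10 : b₂ v i = nn v i / (N₂ i : ℤ) := rfl
      rw [h10]
      ring
    exact_mod_cast h1.trans h9.symm
  -- the entropies
  have e1 : d * Real.log L₁ - CH r Y₁ c ≤ μ := by
    refine (ent_top hr c m L₁ (fun i => L₂ * N₂ i) Y₁ hL₁ hN₁1 (fun v _ i => hY₁d v i)).trans ?_
    exact hμ
  have e2 : d * Real.log L₂ - CH r Y₂ (fun v => (Y₁ v, c v)) ≤ μ := by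
    refine (ent_top hr (fun v => (Y₁ v, c v)) (fun v i => m v i % (L₂ * N₂ i)) L₂ N₂ Y₂ hL₂ hN₂
      (fun v _ i => hY₂d v i)).trans ?_
    refine (ent_low hr c m L₁ (fun i => L₂ * N₂ i) Y₁ hL₁ hN₁1 (fun v _ i => hY₁d v i)).trans ?_
    exact hμ
  -- the polynomials
  set R : Γ → Fin D → MvPolynomial (Option (Fin d)) ℝ := fun γ k =>
    MvPolynomial.bind₁ (kch (nchi M N₀ (G γ) (b₀ γ))) (pN k (Q γ)) with hR
  set z : V → Fin d → ℝ := fun v => rpos M N₀ (G (c v)) (b₀ (c v)) (bse (x v)) with hz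
  have hχdeg : ∀ v, 0 < r v → ∀ bb N, ∀ i, (nchi M N (G (c v)) bb i).totalDegree ≤ k₀ := by
    intro v hv bb N i
    exact deg_chiN (G (c v)) (ncor M N bb) (nwid M N) K₀ (hdat v hv).2.1 d i
  have hptx : ∀ v, pt (bse (x v)) (x v none) = x v := by
    intro v
    funext o
    cases o with
    | none => rfl
    | some i => rfl
  -- the position
  have hu₂ : ∀ v i, (0 ≤ rpos M N₂ (G (c v)) (b₂ v) (bse (x v)) i ∧
      rpos M N₂ (G (c v)) (b₂ v) (bse (x v)) i ≤ 1) ∧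
      (0 < r v → z v i = ((Y₁ v i : ℕ) + ((Y₂ v i : ℕ) +
        rpos M N₂ (G (c v)) (b₂ v) (bse (x v)) i) / L₂) / L₁) := by
    intro v i
    have hN0 : (0 : ℝ) < N₂ i := by exact_mod_cast hN₂ i
    have h1 := rpos_dig (N := N₂) (g := G (c v)) hM hN₂ (bse (x v)) i
    have h2 := nrem_lt hN₂ (ndg M (G (c v)) (bse (x v))) i
    refine ⟨⟨le_trans (by positivity) h1.1, ?_⟩, ?_⟩
    · refine h1.2.le.trans ?_
      rw [div_le_one hN0]
      exact_mod_cast h2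
    · intro hv
      have h3 : b₀ (c v) i = b₂ v i / L₂ / L₁ := by
        rw [hbb v i, ← hb₀ v hv]
      have h4 : (((Y₁ v i : ℕ)) : ℤ) = b₂ v i / L₂ - b₂ v i / L₂ / L₁ * L₁ :=
        cdg_eq L₁ hL₁ (fun l => b₂ v l / L₂) i
      have h5 : (((Y₂ v i : ℕ)) : ℤ) = b₂ v i - b₂ v i / L₂ * L₂ := cdg_eq L₂ hL₂ (b₂ v) i
      have h6 : (b₂ v i : ℝ) = (b₀ (c v) i : ℝ) * (L₁ * L₂) + (Y₁ v i : ℕ) * L₂ + (Y₂ v i : ℕ) := by
        have h7 : b₂ v i = b₀ (c v) i * (L₁ * L₂) + (Y₁ v i : ℕ) * L₂ + (Y₂ v i : ℕ) := by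
          rw [h4, h5, h3]
          ring
        exact_mod_cast h7
      show (x v (some i) - MvPolynomial.eval (bse (x v)) (G (c v) i) -
        (b₀ (c v) i : ℝ) * ((L₁ * (L₂ * N₂ i) : ℕ) : ℝ) / M) /
          (((L₁ * (L₂ * N₂ i) : ℕ) : ℝ) / M) = ((Y₁ v i : ℕ) + ((Y₂ v i : ℕ) +
        (x v (some i) - MvPolynomial.eval (bse (x v)) (G (c v) i) -
          (b₂ v i : ℝ) * N₂ i / M) / ((N₂ i : ℝ) / M)) / L₂) / L₁
      rw [h6]
      push_cast
      field_simp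
      ring
  have hzc : ∀ v, 0 < r v → ∀ i, |z v i - gp L₁ (Y₁ v) i| ≤ 1 / L₁ := by
    intro v hv i
    obtain ⟨⟨h1, h2⟩, h3⟩ := hu₂ v i
    rw [h3 hv]
    unfold gp
    have h4 : ((Y₂ v i : ℕ) : ℝ) + 1 ≤ L₂ := by
      have := (Y₂ v i).2
      exact_mod_cast this
    have h5 : (0 : ℝ) ≤ ((Y₂ v i : ℕ) : ℝ) := Nat.cast_nonneg _
    have h6 : 0 ≤ (((Y₂ v i : ℕ) : ℝ) + rpos M N₂ (G (c v)) (b₂ v) (bse (x v)) i) / L₂ := by
      positivity
    have h7 : (((Y₂ v i : ℕ) : ℝ) + rpos M N₂ (G (c v)) (b₂ v) (bse (x v)) i) / L₂ ≤ 1 := by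
      rw [div_le_one hL₂0]
      linarith
    rw [← sub_div, abs_div, abs_of_pos hL₁0]
    refine div_le_div_of_nonneg_right ?_ hL₁0.le
    rw [add_sub_cancel_left, abs_of_nonneg h6]
    exact h7
  have hev : ∀ v, 0 < r v → ∀ k : ℕ, MvPolynomial.eval (pt (z v) (x v none))
      (MvPolynomial.bind₁ (kch (nchi M N₀ (G (c v)) (b₀ (c v)))) (pN k (Q (c v)))) =
      MvPolynomial.eval (x v) (pN k (Q (c v))) := by
    intro v hv k
    rw [eval_kch, hz]
    simp only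
    rw [nchi_rpos hM hN₀1 (hdat v hv).1, hptx]
  have b1 := hbev V Γ r c Y₁ R z (fun v => x v none) (fun v k => 2 * K * η v k + η v k) h hr hh
    (by
      refine le_trans ?_ hCL₁
      have := Real.exp_pos h
      gcongr
      linarith)
    (fun v hv k => kch_deg (hχdeg v hv _ _) (pN_deg k D (hdat v hv).2.2.2)) hzc hxS
    (by
      intro v hv k
      obtain ⟨h1, h2⟩ := hη v hv k
      refine ⟨by positivity, le_trans ?_ h2⟩
      nlinarith)
  set c' : V → (Fin d → Fin L₁) × Γ := fun v => (Y₁ v, c v) with hc'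
  set A : Γ → (Fin d → Fin L₁) → Fin D → Fin n₀ → MvPolynomial (Fin d) ℝ := fun γ Y k i =>
    b (R γ k) Y i with hA
  set af : (Fin d → Fin L₁) → Fin d → MvPolynomial (Fin d) ℝ := fun Y =>
    afm (fun l => ((Y l : ℕ) : ℝ) / L₁) (1 / L₁) with haf
  set PP : ((Fin d → Fin L₁) × Γ) → ι → MvPolynomial (Fin d) ℝ := fun γ t =>
    MvPolynomial.bind₁ (af γ.1)
      (MvPolynomial.bind₁ (och (A γ.2 γ.1 t.2.1 t.2.2) (nchi M N₀ (G γ.2) (b₀ γ.2)))
        (Rf γ.2 t.1)) with hPP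
  set e := Fintype.equivFin ι with he
  have hPdeg : ∀ v, 0 < r v → ∀ s : ι, (PP (c' v) s).totalDegree ≤ K' := by
    intro v hv t
    have hχ := hχdeg v hv (b₀ (c v)) N₀
    exact afm_deg _ _ (och_deg hχ (hbdeg _ _ _) ((hdat v hv).2.2.1 t.1))
  have b2 := hnc V ((Fin d → Fin L₁) × Γ) r c' L₂ Y₂ (fun γ jj => PP γ (e.symm jj)) 1 h hr hL₂
    le_rfl hh
    (by
      refine le_trans ?_ hCL₂
      rw [mul_one]
      have := Real.exp_pos h
      gcongr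
      linarith)
    (fun v hv jj => hPdeg v hv _)
  have hsub : ∀ v, 0 < r v → (¬ ∀ k : Fin D,
          0 < |MvPolynomial.eval (x v) (pN (k + 1) (Q (c v)))| →
          |MvPolynomial.eval (x v) (pN k (Q (c v)))| ≤
            η v k * |MvPolynomial.eval (x v) (pN (k + 1) (Q (c v)))| →
          ∃ i : Fin n₀, ∃ b₂ u₂, b₂ = nidx N₂ (ndg M (G (c v)) (bse (x v))) ∧
            u₂ = rpos M N₂ (G (c v)) b₂ (bse (x v)) ∧
            |x v none - MvPolynomial.eval u₂ (abr M N₂ hL₁ hL₂ b (G (c v)) (Q (c v)) b₂ k i)| ≤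
              (C₁ + C₂ + 2 * K) * η v k + (C₁ + C₂ + 2 * K) * S / g ^ (K₂ + 1) ∧
            ∀ j : Fin m₀, ∀ u ∈ ucube d, ∀ u' ∈ ucube d,
              |MvPolynomial.eval (pt (cpt (nchi M N₂ (G (c v)) b₂) u)
                (MvPolynomial.eval u (abr M N₂ hL₁ hL₂ b (G (c v)) (Q (c v)) b₂ k i)))
                  (Rf (c v) j)| ≤
              3 * |MvPolynomial.eval (pt (cpt (nchi M N₂ (G (c v)) b₂) u')
                (MvPolynomial.eval u' (abr M N₂ hL₁ hL₂ b (G (c v)) (Q (c v)) b₂ k i)))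
                  (Rf (c v) j)|) →
      (∃ j : Fin D,
          (0 < |MvPolynomial.eval (pt (z v) (x v none)) (MvPolynomial.pderiv none (R (c v) j))| ∧
            2 * (K : ℝ) * |MvPolynomial.eval (pt (z v) (x v none)) (R (c v) j)| ≤
              (2 * K * η v j + η v j) *
                |MvPolynomial.eval (pt (z v) (x v none)) (MvPolynomial.pderiv none (R (c v) j))|) ∧
          ¬ ∃ i, |x v none - MvPolynomial.eval (z v) (b (R (c v) j) (Y₁ v) i)| ≤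
            (2 * K * η v j + η v j) + C₁ * S / g ^ (K₂ + 1)) ∨
      (¬ ∀ j : Fin (Fintype.card ι), PP (c' v) (e.symm j) = 0 ∨
        NC (1 / 2) (1 / L₂) (gp L₂ (Y₂ v)) (PP (c' v) (e.symm j))) := by
    intro v hv hbad
    by_contra hcon
    push Not at hcon
    obtain ⟨g1, g2⟩ := hcon
    refine hbad ?_
    intro k hk1 hk2
    have hTri := (hdat v hv).1
    have e3 : MvPolynomial.eval (pt (z v) (x v none)) (R (c v) k) =
        MvPolynomial.eval (x v) (pN k (Q (c v))) := hev v hv k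
    have e4 : MvPolynomial.eval (pt (z v) (x v none)) (MvPolynomial.pderiv none (R (c v) k)) =
        MvPolynomial.eval (x v) (pN (k + 1) (Q (c v))) := by
      rw [hR]
      simp only
      rw [pd_kch, ← pN_succ]
      exact hev v hv (k + 1)
    obtain ⟨i, hi⟩ := g1 k ⟨by rw [e4]; exact hk1, by
      rw [e3, e4]
      have h1 : 0 ≤ |MvPolynomial.eval (x v) (pN (k + 1) (Q (c v)))| := abs_nonneg _
      have h2 := (hη v hv k).1
      calc 2 * (K : ℝ) * |MvPolynomial.eval (x v) (pN k (Q (c v)))| ≤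
          2 * K * (η v k * |MvPolynomial.eval (x v) (pN (k + 1) (Q (c v)))|) :=
            mul_le_mul_of_nonneg_left hk2 (by positivity)
        _ ≤ _ := by nlinarith [mul_nonneg h2.le h1]⟩
    have hb₀' : (fun l => b₂ v l / (L₂ : ℤ) / (L₁ : ℤ)) = b₀ (c v) := by
      funext l
      rw [hbb v l, ← hb₀ v hv]
    set a : MvPolynomial (Fin d) ℝ := abr M N₂ hL₁ hL₂ b (G (c v)) (Q (c v)) (b₂ v) k i with ha
    set zu : (Fin d → ℝ) → Fin d → ℝ := fun u i =>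
      (((Y₁ v i : ℕ) : ℝ) + (((Y₂ v i : ℕ) : ℝ) + u i) / L₂) / L₁ with hzu
    have hau : ∀ u, MvPolynomial.eval u a = MvPolynomial.eval (zu u) (A (c v) (Y₁ v) k i) := by
      intro u
      rw [ha]
      unfold abr
      rw [eval_bind, cpt_afm, hb₀']
      have h1 : (fun l => (((cdg L₁ hL₁ (fun l => b₂ v l / L₂) l : ℕ) : ℝ) +
          ((cdg L₂ hL₂ (b₂ v) l : ℕ) : ℝ) / L₂) / L₁ + 1 / ((L₁ : ℝ) * L₂) * u l) = zu u := by
        funext l
        show (((Y₁ v l : ℕ) : ℝ) + ((Y₂ v l : ℕ) : ℝ) / L₂) / L₁ + 1 / ((L₁ : ℝ) * L₂) * u l =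
          (((Y₁ v l : ℕ) : ℝ) + (((Y₂ v l : ℕ) : ℝ) + u l) / L₂) / L₁
        field_simp
        ring
      rw [h1]
    have hcu : ∀ u, cpt (nchi M N₂ (G (c v)) (b₂ v)) u =
        cpt (nchi M N₀ (G (c v)) (b₀ (c v))) (zu u) := by
      intro u
      refine chi_eq (G (c v)) hTri _ _ _ _ _ _ ?_
      intro l
      have h4 : (((Y₁ v l : ℕ)) : ℤ) = b₂ v l / L₂ - b₂ v l / L₂ / L₁ * L₁ :=
        cdg_eq L₁ hL₁ (fun l => b₂ v l / L₂) l
      have h5 : (((Y₂ v l : ℕ)) : ℤ) = b₂ v l - b₂ v l / L₂ * L₂ := cdg_eq L₂ hL₂ (b₂ v) l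
      have h6 : (b₂ v l : ℝ) = (b₀ (c v) l : ℝ) * (L₁ * L₂) + (Y₁ v l : ℕ) * L₂ + (Y₂ v l : ℕ) := by
        have h7 : b₂ v l = b₀ (c v) l * (L₁ * L₂) + (Y₁ v l : ℕ) * L₂ + (Y₂ v l : ℕ) := by
          rw [h4, h5, ← congrFun hb₀' l]
          ring
        exact_mod_cast h7
      unfold ncor nwid
      rw [hzu, hN₀, h6]
      push_cast
      field_simp
      ring
    have hz2 : zu (rpos M N₂ (G (c v)) (b₂ v) (bse (x v))) = z v := by
      funext l
      exact ((hu₂ v l).2 hv).symm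
    -- near-constancy
    have hNC : ∀ s : ι, ∀ u ∈ ucube d, ∀ u' ∈ ucube d,
        |MvPolynomial.eval (fun l => (((Y₂ v l : ℕ) : ℝ) + u l) / L₂) (PP (c' v) s)| ≤
        3 * |MvPolynomial.eval (fun l => (((Y₂ v l : ℕ) : ℝ) + u' l) / L₂) (PP (c' v) s)| := by
      intro s u hu u' hu'
      have hmem : ∀ u ∈ ucube d, ∀ l, |(((Y₂ v l : ℕ) : ℝ) + u l) / L₂ - gp L₂ (Y₂ v) l| ≤
          1 / L₂ := by
        intro u hu l
        unfold gp
        rw [← sub_div, abs_div, abs_of_pos hL₂0]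
        refine div_le_div_of_nonneg_right ?_ hL₂0.le
        rw [add_sub_cancel_left, abs_of_nonneg (hu l).1]
        exact (hu l).2
      have h1 := g2 (e s)
      rw [Equiv.symm_apply_apply] at h1
      rcases h1 with h1 | h1
      · rw [h1, map_zero, map_zero, abs_zero]
        norm_num
      · exact h1.cell (hmem u hu) (hmem u' hu')
    have hz1 : ∀ u : Fin d → ℝ, (fun l => ((Y₁ v l : ℕ) : ℝ) / L₁ + 1 / (L₁ : ℝ) *
        ((((Y₂ v l : ℕ) : ℝ) + u l) / L₂)) = zu u := by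
      intro u
      funext l
      rw [hzu]
      field_simp
    refine ⟨i, b₂ v, rpos M N₂ (G (c v)) (b₂ v) (bse (x v)), rfl, rfl, ?_, ?_⟩
    · rw [hau, hz2]
      refine hi.trans ?_
      have h2 := (hη v hv k).1
      have h3 : C₁ * S / g ^ (K₂ + 1) ≤ (C₁ + C₂ + 2 * K) * S / g ^ (K₂ + 1) := by
        refine div_le_div_of_nonneg_right (mul_le_mul_of_nonneg_right ?_ hS.le) (by positivity)
        linarith
      have h4 : 2 * K * η v k + η v k ≤ (C₁ + C₂ + 2 * K) * η v k := by nlinarith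
      linarith
    · intro j u hu u' hu'
      have h1 := hNC (j, k, i) u hu u' hu'
      have h2 : ∀ u : Fin d → ℝ, MvPolynomial.eval (fun l => (((Y₂ v l : ℕ) : ℝ) + u l) / L₂)
          (PP (c' v) (j, k, i)) =
          MvPolynomial.eval (pt (cpt (nchi M N₂ (G (c v)) (b₂ v)) u)
            (MvPolynomial.eval u a)) (Rf (c v) j) := by
        intro u
        show MvPolynomial.eval _ (MvPolynomial.bind₁ (af (Y₁ v)) (MvPolynomial.bind₁
          (och (A (c v) (Y₁ v) k i) (nchi M N₀ (G (c v)) (b₀ (c v)))) (Rf (c v) j))) = _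
        rw [eval_bind, haf]
        simp only
        rw [cpt_afm, hz1, eval_bind, cpt_och, hcu, hau]
      rw [h2, h2] at h1
      exact h1
  refine (ms_le hr0 hsub).trans ((ms_or hr0 _ _).trans ?_)
  have b1' := b1.trans (div_le_div_of_nonneg_right (add_le_add e1 le_rfl) hh.le)
  have b2' := b2.trans (div_le_div_of_nonneg_right (add_le_add e2 le_rfl) hh.le)
  have e5 : 2 * (μ + Real.log 2) / h = (μ + Real.log 2) / h + (μ + Real.log 2) / h := by ring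
  rw [e5]
  exact add_le_add b1' b2'

end Pool.EXS
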