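import Pool.Agent.H86.EXT.Brn

/-!
# Doubling for the difference of a leaf and of a branch, in the natural cells
-/

set_option autoImplicit false

namespace Pool.EXS

open Finset Real
open Pool.Agent.H49.Ent Pool.Agent.H32.Dense Pool.STK Pool.KAF Pool.KAL Pool.KS3 Pool.M3F Pool.KJA
open Pool.IEN

variable {d : ℕ}

lemma tri_deg {k₀ k₁ : ℕ} {C₀ : ℝ} {M : ℕ} {Ng : Fin d → ℕ}
    {G : Fin d → MvPolynomial (Fin d) ℝ} {w : Fin d → ℝ} {F : MvPolynomial (Fin d) ℝ}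
    (h : Tri k₀ C₀ M Ng G w F) (hk : k₀ ≤ k₁) : Tri k₁ C₀ M Ng G w F :=
  ⟨h.pos, h.le, fun i => (h.degG i).trans hk, h.degF.trans hk, h.tri, h.w_pos, h.w_le, h.le_w,
    h.slope, h.slopeF⟩

/-- The digit of the small cell in the cell. -/
def jdg (K : ℕ) (b : Fin d → ℤ) : Fin d → ℕ := fun i => (b i % (K : ℤ)).toNat

lemma jdg_eq {K : ℕ} (hK : 1 ≤ K) (b : Fin d → ℤ) (i : Fin d) :
    ((jdg K b i : ℕ) : ℤ) = b i - b i / K * K := by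
  have h1 : (0 : ℤ) < K := by exact_mod_cast hK
  show (((b i % (K : ℤ)).toNat : ℕ) : ℤ) = _
  rw [Int.toNat_of_nonneg (Int.emod_nonneg _ h1.ne'), Int.emod_def]
  ring

lemma jdg_lt {K : ℕ} (hK : 1 ≤ K) (b : Fin d → ℤ) (i : Fin d) : jdg K b i < K := by
  have h1 : (0 : ℤ) < K := by exact_mod_cast hK
  show (b i % (K : ℤ)).toNat < K
  rw [Int.toNat_lt (Int.emod_nonneg _ h1.ne')]
  exact Int.emod_lt_of_pos _ h1

/-- The position of a point of a subcell. -/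
lemma rpos_sub {M K : ℕ} {N₃ : Fin d → ℕ} {G : Fin d → MvPolynomial (Fin d) ℝ} {b₃ : Fin d → ℤ}
    (hM : 1 ≤ M) (hK : 1 ≤ K) (hN : ∀ i, 1 ≤ N₃ i) {y : Fin d → ℝ} (hy : y ∈ ncell M N₃ G b₃)
    (i : Fin d) :
    (jdg K b₃ i : ℝ) / K ≤ rpos M (fun i => K * N₃ i) G (fun i => b₃ i / K) y i ∧
      rpos M (fun i => K * N₃ i) G (fun i => b₃ i / K) y i ≤ ((jdg K b₃ i : ℝ) + 1) / K := by
  have hM0 : (0 : ℝ) < M := by exact_mod_cast hM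
  have hK0 : (0 : ℝ) < K := by exact_mod_cast hK
  have hN0 : (0 : ℝ) < N₃ i := by exact_mod_cast hN i
  obtain ⟨h1, h2⟩ := hy i
  have h3 : (b₃ i : ℝ) = ((b₃ i / (K : ℤ) : ℤ) : ℝ) * K + (jdg K b₃ i : ℝ) := by
    have h4 : b₃ i = b₃ i / (K : ℤ) * K + ((jdg K b₃ i : ℕ) : ℤ) := by
      rw [jdg_eq hK b₃ i]
      ring
    exact_mod_cast h4
  set X : ℝ := y i - MvPolynomial.eval y (G i) with hX
  have e1 : rpos M (fun i => K * N₃ i) G (fun i => b₃ i / K) y i =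
      (M * X - ((b₃ i / (K : ℤ) : ℤ) : ℝ) * (K * N₃ i)) / (K * N₃ i) := by
    unfold rpos
    push_cast
    rw [hX]
    field_simp
  rw [e1]
  have h5 : (b₃ i : ℝ) * N₃ i ≤ M * X := by
    have := mul_le_mul_of_nonneg_left h1 hM0.le
    have e2 : (M : ℝ) * ((b₃ i : ℝ) * N₃ i / M) = (b₃ i : ℝ) * N₃ i := by field_simp
    linarith
  have h6 : M * X ≤ (b₃ i : ℝ) * N₃ i + N₃ i := by
    have := mul_le_mul_of_nonneg_left h2 hM0.le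
    have e2 : (M : ℝ) * ((b₃ i : ℝ) * N₃ i / M + (N₃ i : ℝ) / M) =
        (b₃ i : ℝ) * N₃ i + N₃ i := by field_simp
    linarith
  rw [h3] at h5 h6
  constructor
  · rw [div_le_div_iff₀ hK0 (by positivity)]
    nlinarith
  · rw [div_le_div_iff₀ (by positivity) hK0]
    nlinarith

lemma sub_ncell {M K : ℕ} {N₃ : Fin d → ℕ} {G : Fin d → MvPolynomial (Fin d) ℝ} {b₃ : Fin d → ℤ}
    (hM : 1 ≤ M) (hK : 1 ≤ K) (hN : ∀ i, 1 ≤ N₃ i) {y : Fin d → ℝ} (hy : y ∈ ncell M N₃ G b₃) :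
    y ∈ ncell M (fun i => K * N₃ i) G (fun i => b₃ i / K) := by
  intro i
  have hM0 : (0 : ℝ) < M := by exact_mod_cast hM
  have hK0 : (1 : ℝ) ≤ K := by exact_mod_cast hK
  have hN0 : (0 : ℝ) < N₃ i := by exact_mod_cast hN i
  obtain ⟨h1, h2⟩ := hy i
  have h3 : (b₃ i : ℝ) = ((b₃ i / (K : ℤ) : ℤ) : ℝ) * K + (jdg K b₃ i : ℝ) := by
    have h4 : b₃ i = b₃ i / (K : ℤ) * K + ((jdg K b₃ i : ℕ) : ℤ) := by
      rw [jdg_eq hK b₃ i]
      ring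
    exact_mod_cast h4
  have h7 : (jdg K b₃ i : ℝ) + 1 ≤ K := by exact_mod_cast jdg_lt hK b₃ i
  have h8 : (0 : ℝ) ≤ (jdg K b₃ i : ℝ) := Nat.cast_nonneg _
  rw [h3] at h1 h2
  push_cast
  constructor
  · refine le_trans ?_ h1
    refine div_le_div_of_nonneg_right ?_ hM0.le
    nlinarith
  · refine h2.trans ?_
    rw [← add_div, ← add_div]
    refine div_le_div_of_nonneg_right ?_ hM0.le
    nlinarith

/-- **Doubling for the difference of a leaf and of a branch, in the natural cells.** -/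
theorem geo_fin (d D K₀ K₂ : ℕ) : ∃ C : ℝ, 1 ≤ C ∧
    ∀ (Lp κ : ℝ) (M K : ℕ) (N₃ : Fin d → ℕ) (G : Fin d → MvPolynomial (Fin d) ℝ)
      (gB : MvPolynomial (Fin d) ℝ) (b₃ : Fin d → ℤ) (a : MvPolynomial (Fin d) ℝ)
      (Q : MvPolynomial (Option (Fin d)) ℝ) (Z H ρ r δ : ℝ) (θ : ℕ → ℝ) (k : ℕ)
      (x : Option (Fin d) → ℝ),
      0 ≤ Lp → 1 ≤ κ → 1 ≤ M → 2 ≤ K → 1 ≤ Z → 1 ≤ H → (∀ i, 1 ≤ N₃ i) → (∀ i, K * N₃ i ≤ M) →
      TriP G → (∀ i, (G i).totalDegree ≤ K₀) → gB.totalDegree ≤ K₀ → a.totalDegree ≤ K₂ →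
      Q.totalDegree ≤ D →
      (∀ y ∈ ncell M (fun i => K * N₃ i) G (fun i => b₃ i / K), ∀ i l,
        |MvPolynomial.eval y (MvPolynomial.pderiv l (G i))| ≤ Lp) →
      (∀ y ∈ ncell M (fun i => K * N₃ i) G (fun i => b₃ i / K), ∀ l,
        |MvPolynomial.eval y (MvPolynomial.pderiv l gB)| ≤ Lp) →
      -- all the polynomials of degree at most `D` double on the leaf
      (∀ R : MvPolynomial (Option (Fin d)) ℝ, R.totalDegree ≤ D →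
        ∀ y ∈ ncell M (fun i => K * N₃ i) G (fun i => b₃ i / K), ∃ y' ∈ ncell M N₃ G b₃,
          Psi R (κ / M) (lpt gB y) ≤ Z * Psi R (κ / M) (lpt gB y')) →
      LnR D Q H θ x k → 0 ≤ θ k → bse x ∈ ncell M (fun i => K * N₃ i) G (fun i => b₃ i / K) →
      |x none - MvPolynomial.eval
        (rpos M (fun i => K * N₃ i) G (fun i => b₃ i / K) (bse x)) a| ≤ δ →
      (∀ m, ∀ u₁ ∈ ucube d, ∀ u₂ ∈ ucube d,
        |MvPolynomial.eval (pt (cpt (nchi M (fun i => K * N₃ i) G (fun i => b₃ i / K)) u₁)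
          (MvPolynomial.eval u₁ a)) (pN m Q)| ≤
          3 * |MvPolynomial.eval (pt (cpt (nchi M (fun i => K * N₃ i) G (fun i => b₃ i / K)) u₂)
            (MvPolynomial.eval u₂ a)) (pN m Q)|) →
      0 < ρ → 1 ≤ M * ρ → 6 * H * (θ k + 2 * δ) ≤ ρ → 12 * H * ρ ≤ θ (k + 1) → ρ ≤ r → r ≤ 1 →
      cs (rco K (jdg K b₃)) (1 / K) (MvPolynomial.bind₁
        (nchi M (fun i => K * N₃ i) G (fun i => b₃ i / K)) gB - a) ≤ r →
      cs (fun _ => 0) 1 (MvPolynomial.bind₁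
        (nchi M (fun i => K * N₃ i) G (fun i => b₃ i / K)) gB - a) ≤
        (C * Z * (C * κ * (2 * (1 + d * Lp) ^ (d + 1)) ^ (2 * d)) ^ (D + 1)) ^ (D + 1) * r := by
  set k₀ : ℕ := max ((K₀ + 1) ^ (d + 1)) K₂ with hk₀
  obtain ⟨C, hC, hgeo⟩ := geo_det d D k₀
  refine ⟨C, hC, ?_⟩
  intro Lp κ M K N₃ G gB b₃ a Q Z H ρ r δ θ k x hLp hκ hM hK hZ hH hN₃ hKM hG hGd hgBd had hQd
    hgrG hgrB hL hR hθk hx hxa hNC hρ hMρ hρ1 hρ2 hρr hr1 hsmall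
  have hK1 : 1 ≤ K := by omega
  set N₂ : Fin d → ℕ := fun i => K * N₃ i with hN₂
  set b₂ : Fin d → ℤ := fun i => b₃ i / K with hb₂
  have hN₂1 : ∀ i, 1 ≤ N₂ i := fun i => Nat.mul_pos hK1 (hN₃ i)
  set GG : Fin d → MvPolynomial (Fin d) ℝ := fun i =>
    MvPolynomial.bind₁ (nchi M N₂ G b₂) (G i) + MvPolynomial.C (ncor M N₂ b₂ i) with hGG
  set F : MvPolynomial (Fin d) ℝ := MvPolynomial.bind₁ (nchi M N₂ G b₂) gB with hF
  have hT : Tri k₀ (2 * (1 + d * Lp) ^ (d + 1)) M N₂ GG (nwid M N₂) F :=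
    tri_deg (tri_nchi hM hN₂1 hKM hG hLp hGd hgBd hgrG hgrB) (le_max_left _ _)
  have hd0 : (0 : ℝ) ≤ d := Nat.cast_nonneg d
  have hC₀ : 1 ≤ 2 * (1 + (d : ℝ) * Lp) ^ (d + 1) := by
    have h1 : (1 : ℝ) ≤ (1 + d * Lp) ^ (d + 1) := one_le_pow₀ (by nlinarith)
    linarith
  have hcpt : ∀ u, cpt (triC GG (nwid M N₂) F) u = lpt gB (cpt (nchi M N₂ G b₂) u) :=
    fun u => cpt_triC_nchi hG u
  have hgch : ∀ u, cpt (gch (triC GG (nwid M N₂) F) a) u =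
      pt (cpt (nchi M N₂ G b₂) u) (MvPolynomial.eval u a) := by
    intro u
    funext o
    cases o with
    | none => rfl
    | some i =>
      show cpt (triC GG (nwid M N₂) F) u (some i) = _
      rw [hcpt]
      rfl
  refine hgeo (2 * (1 + d * Lp) ^ (d + 1)) κ M K N₂ (jdg K b₃) GG (nwid M N₂) F a Q Z H ρ r δ θ k
    (rpos M N₂ G b₂ (bse x)) x hC₀ hκ hM hK hZ hH ?_ (jdg_lt hK1 b₃) hT
    (had.trans (le_max_right _ _)) hQd ?_ hR hθk (rpos_mem hM hN₂1 hx) ?_ hxa ?_ hρ hMρ hρ1 hρ2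
    hρr hr1 hsmall
  · intro i
    show K ≤ K * N₃ i
    exact Nat.le_mul_of_pos_right K (hN₃ i)
  · intro R hRd u hu
    obtain ⟨y', hy', h1⟩ := hL R hRd _ (nchi_mem (b := b₂) hM hN₂1 hG hu)
    refine ⟨rpos M N₂ G b₂ y', rpos_mem hM hN₂1 (sub_ncell hM hK1 hN₃ hy'),
      rpos_sub hM hK1 hN₃ hy', ?_⟩
    rw [hcpt, hcpt, nchi_rpos hM hN₂1 hG]
    exact h1
  · intro i
    rw [hcpt, nchi_rpos hM hN₂1 hG]
    rfl
  · intro m u₁ hu₁ u₂ hu₂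
    rw [hgch, hgch]
    exact hNC m u₁ hu₁ u₂ hu₂

end Pool.EXS
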