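import Pool.Agent.H72.OWN.Cfl

/-!
# One more coordinate: the coordinate `k`, divided by `2 ^ (s J)`

`exF k s F`: the family `F` with one more coordinate, the coordinate `k` divided by `2 ^ s`.
`exC S k s`: the class of the families `exF k ⌊s J⌋ F`, `F` in `S`.
`bkC S' S k s`: the families of `S` whose extensions are in `S'`.
-/

set_option autoImplicit false

namespace Pool.EXTC

open Finset Real MvPolynomial
open Pool.Agent.H49.Ent Pool.Agent.H32.Dense Pool.STK Pool.KA Pool.KSAT Pool.K2S Pool.PB Pool.GEN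
open Pool.S6C

variable {m J : ℕ}

theorem ex_dir (k : Fin m) (s : ℕ) (F : Fam m J) (ω : F.Ω) (i : Fin (m + 1)) :
    |(Fin.snoc (F.d ω) (F.d ω k / 2 ^ s) : Fin (m + 1) → ℝ) i| ≤ 1 := by
  refine Fin.lastCases ?_ (fun j => ?_) i
  · rw [Fin.snoc_last, abs_div, abs_of_pos (by positivity : (0 : ℝ) < 2 ^ s)]
    have h1 : (1 : ℝ) ≤ 2 ^ s := one_le_pow₀ (by norm_num)
    rw [div_le_one (by positivity)]
    exact (F.dir ω k).trans h1
  · rw [Fin.snoc_castSucc]
    exact F.dir ω j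

/-- **One more coordinate**: the coordinate `k` divided by `2 ^ s`. -/
@[reducible] noncomputable def exF (k : Fin m) (s : ℕ) (F : Fam m J) : Fam (m + 1) J where
  Ω := F.Ω
  ζ := F.ζ
  fin := F.fin
  p := F.p
  u := fun ω => Fin.snoc (F.u ω) (F.u ω k / 2 ^ s)
  d := fun ω => Fin.snoc (F.d ω) (F.d ω k / 2 ^ s)
  T := F.T
  Z := F.Z
  isLaw := F.isLaw
  dir := ex_dir k s F
  tim := F.tim

/-- The families with one more coordinate. -/
inductive exSt (S : PCl m) (k : Fin m) (s : ℝ) (τ : ℝ) :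
    ∀ (J : ℕ) (G : Fam (m + 1) J), (G.Ω → Prop) → Prop
  | mk (J : ℕ) (F : Fam m J) (A : F.Ω → Prop) (hS : S.St τ J F A) :
      exSt S k s τ J (exF k ⌊s * J⌋₊ F) A

/-- **The class of the families with one more coordinate.** -/
def exC (S : PCl m) (k : Fin m) (s : ℝ) : PCl (m + 1) where
  St := exSt S k s
  mono := by
    rintro τ τ' J F A h ⟨F, A, hS⟩
    exact exSt.mk _ F A (S.mono h hS)
  res := by
    rintro τ τ' J F A B h0 ⟨F, A, hS⟩ hB hP
    exact exSt.mk _ F B (S.res h0 hS hB hP)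

/-- **The families of `S` whose extensions are in `S'`.** -/
noncomputable def bkC (S' : PCl (m + 1)) (S : PCl m) (k : Fin m) (s : ℝ) : PCl m where
  St τ J F A := S.St τ J F A ∧ S'.St τ J (exF k ⌊s * J⌋₊ F) A
  mono := by
    rintro τ τ' J F A h ⟨h1, h2⟩
    exact ⟨S.mono h h1, S'.mono h h2⟩
  res := by
    rintro τ τ' J F A B h0 ⟨h1, h2⟩ hB hP
    exact ⟨S.res h0 h1 hB hP, S'.res h0 h2 hB hP⟩

/-- **An affine closed label of the coordinate `v` with coefficients at most `2 ^ ((E + x) J)`.** -/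
def HasB (S : PCl m) (I : Finset (Fin m)) (v : Fin m) (w N E : ℝ) : Prop :=
  ∀ x : ℝ, 0 < x → Bas S (fun J F A => ∃ (a : PtT F → Fin m → ℝ) (c : PtT F → ℝ),
      Pool.OWN72.ClA F A I v ⌊w * J⌋₊ ⌊(E + x) * J⌋₊ ⌊(N - w - x) * J⌋₊ a c)

end Pool.EXTC
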