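import Pool.Agent.H86.EXT.Gfn
import Pool.Agent.H86.KJ.Lrd

/-!
# All the polynomials double on a leaf: from a natural cell of another label
-/

set_option autoImplicit false

namespace Pool.EXS

open Finset Real
open Pool.Agent.H49.Ent Pool.Agent.H32.Dense Pool.STK Pool.KAF Pool.KAL Pool.KST Pool.KS3 Pool.M3F
open Pool.KJA Pool.IEN

variable {d : ℕ}

/-- A point is in its cell. -/
lemma mem_own {M : ℕ} {N : Fin d → ℕ} {G : Fin d → MvPolynomial (Fin d) ℝ} (hM : 1 ≤ M)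
    (hN : ∀ i, 1 ≤ N i) (y : Fin d → ℝ) : y ∈ ncell M N G (nidx N (ndg M G y)) := by
  intro i
  have hM0 : (0 : ℝ) < M := by exact_mod_cast hM
  have hN0 : (0 : ℝ) < N i := by exact_mod_cast hN i
  have h2 := rpos_dig (N := N) (g := G) hM hN y i
  have h4 : (nrem N (ndg M G y) i : ℝ) + 1 ≤ N i := by
    exact_mod_cast nrem_lt hN (ndg M G y) i
  have h5 : 0 ≤ rpos M N G (nidx N (ndg M G y)) y i := le_trans (by positivity) h2.1
  have h6 : rpos M N G (nidx N (ndg M G y)) y i ≤ 1 := by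
    refine h2.2.le.trans ?_
    rw [div_le_one hN0]
    exact h4
  unfold rpos at h5 h6
  have hw : 0 < (N i : ℝ) / M := by positivity
  rw [le_div_iff₀ hw] at h5
  rw [div_le_iff₀ hw] at h6
  constructor <;> linarith

/-- **Doubling of all the polynomials on a leaf, natural cells of another label.** -/
theorem lon_ev (d D k₀ : ℕ) : ∃ C : ℝ, 1 ≤ C ∧
    ∀ (C₀ : ℝ) (Ω Λ Ξ Z Z₀ : Type) [Fintype Ω] (p : Ω → ℝ) (lam : Ω → Λ)
      (x : Ω → Ξ) (T : Ξ → ℕ) (z : Ξ → Option (Fin d) → ℝ) (A B : Λ → Option (Fin d) → ℝ)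
      (zx : Ξ → Z) (zl : Λ → Z)
      (Yb : Ξ → Fin d → ℕ) (Ng : Z → Fin d → ℕ) (Φ : Z → Option (Fin d) → MvPolynomial (Fin d) ℝ)
      (M N : ℕ) (μ e₁ h : ℝ) (gB : Z → MvPolynomial (Fin d) ℝ) (z₀ : Ξ → Z₀)
      (G : Z₀ → Fin d → MvPolynomial (Fin d) ℝ) (N₃ : Fin d → ℕ),
      1 ≤ C₀ → 1 ≤ M → CLeaf k₀ C₀ M p lam x T z A B zx zl Yb Ng Φ →
      MxC N μ p lam x (fun ξ => ∑ i, Real.log (Ng (zx ξ) i)) Yb → 0 ≤ μ →
      Real.log M - CH p (fun ω => T (x ω)) lam ≤ e₁ → 0 ≤ e₁ → 0 < h → (∀ i, 1 ≤ N₃ i) →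
      (∀ ω, 0 < p ω → |z (x ω) none -
        MvPolynomial.eval (bse (z (x ω))) (gB (zx (x ω)))| ≤ C₀ / M) →
      ms p (fun ω => ¬ ∀ R : MvPolynomial (Option (Fin d)) ℝ, R.totalDegree ≤ D →
        ∀ u ∈ ucube d, ∃ y' ∈ ncell M N₃ (G (z₀ (x ω)))
          (nidx N₃ (ndg M (G (z₀ (x ω))) (bse (z (x ω))))),
          Psi R (C₀ / M) (cpt (Φ (zx (x ω))) u) ≤
            2 ^ D * Real.exp h * Psi R (C₀ / M) (lpt (gB (zx (x ω))) y')) ≤
        (2 * D * CH p (fun ω => (z₀ (x ω),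
            nidx N₃ (ndg M (G (z₀ (x ω))) (bse (z (x ω)))))) (fun ω => zx (x ω)) +
          C * ((N + 1) * (e₁ + 1) + μ)) / h := by
  classical
  obtain ⟨C, hC, H⟩ := lru_c (Option (Fin d)) d D k₀
  refine ⟨C, hC, ?_⟩
  intro C₀ Ω Λ Ξ Z Z₀ _ p lam x T z A B zx zl Yb Ng Φ M N μ e₁ h gB z₀ G N₃ hC₀ hM hL hmx hμ he₁
    he₁0 hh hN₃ hnear
  have hM0 : (0 : ℝ) < M := by exact_mod_cast hM
  have hh₀ : 0 ≤ C₀ / M := by positivity
  have h1 := H C₀ Ω Λ Ξ Z (Z₀ × (Fin d → ℤ)) p lam x T z A B zx zl Yb Ng Φ M N μ e₁ h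
    (fun ξ => (z₀ ξ, nidx N₃ (ndg M (G (z₀ ξ)) (bse (z ξ))))) hC₀ hM hL hmx hμ he₁ he₁0 hh
  refine le_trans ?_ ((ms_eq p _ _).le.trans h1)
  refine ms_le hL.inc.isLaw.nonneg ?_
  intro ω hω hbad
  push Not at hbad
  obtain ⟨R, hRd, u, hu, hR⟩ := hbad
  refine ⟨R, u, ?_, hRd, hu, ?_⟩
  · rintro rfl
    have hmem : bse (z (x ω)) ∈ ncell M N₃ (G (z₀ (x ω)))
        (nidx N₃ (ndg M (G (z₀ (x ω))) (bse (z (x ω))))) := by
      exact mem_own hM hN₃ _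
    have h2 := hR _ hmem
    have e0 : ∀ y : Option (Fin d) → ℝ, Psi (0 : MvPolynomial (Option (Fin d)) ℝ) (C₀ / M) y = 0 := by
      intro y
      unfold Psi KAL.shf KAL.coefSum
      simp
    rw [e0, e0, mul_zero] at h2
    exact lt_irrefl _ h2
  · intro ω' hω' hz hzw
    obtain ⟨hz0, hb⟩ := Prod.mk.inj hzw
    have hmem : bse (z (x ω')) ∈ ncell M N₃ (G (z₀ (x ω)))
        (nidx N₃ (ndg M (G (z₀ (x ω))) (bse (z (x ω))))) := by
      rw [← hb, ← hz0]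
      exact mem_own hM hN₃ _
    have h2 := hR _ hmem
    have h6 := Psi_le_of_near R (C₀ / M) hh₀ (lpt (gB (zx (x ω))) (bse (z (x ω')))) (z (x ω')) (by
      intro o
      cases o with
      | none =>
        rw [← hz]
        exact hnear ω' hω'
      | some i =>
        show |z (x ω') (some i) - z (x ω') (some i)| ≤ C₀ / M
        rw [sub_self, abs_zero]
        exact hh₀)
    have h7 : Psi R (C₀ / M) (z (x ω')) ≤
        2 ^ D * Psi R (C₀ / M) (lpt (gB (zx (x ω))) (bse (z (x ω')))) :=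
      h6.trans (mul_le_mul_of_nonneg_right (FIL.two_pow_mono hRd) (Psi_nonneg _ _ _))
    calc Real.exp h * Psi R (C₀ / M) (z (x ω')) ≤ Real.exp h *
          (2 ^ D * Psi R (C₀ / M) (lpt (gB (zx (x ω))) (bse (z (x ω'))))) :=
          mul_le_mul_of_nonneg_left h7 (Real.exp_pos h).le
      _ = 2 ^ D * Real.exp h * Psi R (C₀ / M) (lpt (gB (zx (x ω))) (bse (z (x ω')))) := by ring
      _ < _ := h2

end Pool.EXS
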