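import Pool.Agent.H86.EXT.Crc

/-!
# Good cells
-/

set_option autoImplicit false

namespace Pool.EXS

open Finset

/-- Complex coefficients. -/
noncomputable def PC {k : ℕ} (P : PN k) : Polynomial (MvPolynomial (Fin k) ℂ) :=
  P.map (MvPolynomial.map (algebraMap ℝ ℂ))

lemma mapC_inj {k : ℕ} : Function.Injective
    (MvPolynomial.map (algebraMap ℝ ℂ) : MvPolynomial (Fin k) ℝ →+* MvPolynomial (Fin k) ℂ) :=
  MvPolynomial.map_injective _ (algebraMap ℝ ℂ).injective

lemma natDegree_PC {k : ℕ} (P : PN k) : (PC P).natDegree = P.natDegree :=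
  Polynomial.natDegree_map_eq_of_injective mapC_inj P

lemma leadingCoeff_PC {k : ℕ} (P : PN k) : (PC P).leadingCoeff =
    MvPolynomial.map (algebraMap ℝ ℂ) P.leadingCoeff :=
  Polynomial.leadingCoeff_map_of_injective mapC_inj P

lemma coeff_PC {k : ℕ} (P : PN k) (j : ℕ) : (PC P).coeff j =
    MvPolynomial.map (algebraMap ℝ ℂ) (P.coeff j) := Polynomial.coeff_map _ _

lemma eval_map_cev {k : ℕ} (z : Fin k → ℝ) (w : Fin k → ℂ) (p : MvPolynomial (Fin k) ℝ) :
    MvPolynomial.eval w (MvPolynomial.map (algebraMap ℝ ℂ) p) =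
      cev z (fun i => w i - ((z i : ℝ) : ℂ)) p := by
  unfold cev
  rw [MvPolynomial.eval_map, MvPolynomial.aeval_def]
  congr 1
  funext i
  ring

lemma eval_map_real {k : ℕ} (z : Fin k → ℝ) (p : MvPolynomial (Fin k) ℝ) :
    MvPolynomial.eval (fun i => ((z i : ℝ) : ℂ)) (MvPolynomial.map (algebraMap ℝ ℂ) p) =
      ((MvPolynomial.eval z p : ℝ) : ℂ) := by
  rw [eval_map_cev z]
  simp only [sub_self]
  exact cev_zero z p

/-- Near-constancy excludes zeros. -/
lemma NC.ne {k : ℕ} {ε a : ℝ} {z : Fin k → ℝ} {P : MvPolynomial (Fin k) ℝ} (h : NC ε a z P)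
    (hε : ε < 1) {w : Fin k → ℂ} (hw : ∀ i, ‖w i - ((z i : ℝ) : ℂ)‖ ≤ a) :
    MvPolynomial.eval w (MvPolynomial.map (algebraMap ℝ ℂ) P) ≠ 0 := by
  rw [eval_map_cev z]
  intro h0
  have h1 := h.2 _ hw
  rw [h0, zero_sub, norm_neg, Complex.norm_real, Real.norm_eq_abs] at h1
  have h2 : 0 < |MvPolynomial.eval z P| := abs_pos.mpr h.1
  nlinarith

/-- **Good cells.** -/
theorem good_cell (k K : ℕ) : ∃ C : ℝ, 1 ≤ C ∧ ∀ P : PN k, Irreducible P → DB K P →
    ∀ (L : ℕ) (g : ℝ), 1 ≤ L → 1 ≤ g →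
      ∃ B : Finset (Fin k → Fin L), (B.card : ℝ) * L ≤ C * g * (L : ℝ) ^ k ∧
        ∀ c, c ∉ B → (P.natDegree = 0 ∧ ∀ w : Fin k → ℂ,
            (∀ i, ‖w i - ((gp L c i : ℝ) : ℂ)‖ ≤ g / L) → ∀ N : ℂ,
            ((PC P).map (MvPolynomial.eval w)).eval N ≠ 0) ∨
          (P.natDegree ≠ 0 ∧ ∃ (U V : Polynomial (MvPolynomial (Fin k) ℂ))
            (d : MvPolynomial (Fin k) ℂ) (r : ℝ),
            U * PC P + V * Polynomial.derivative (PC P) = Polynomial.C d ∧ 4 ≤ r ∧
              r ≤ 4 ^ (K + 1) ∧ ∀ w : Fin k → ℂ,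
              (∀ i, ‖w i - ((gp L c i : ℝ) : ℂ)‖ ≤ g / L) →
                MvPolynomial.eval w d ≠ 0 ∧ MvPolynomial.eval w (PC P).leadingCoeff ≠ 0 ∧
                ∀ N : ℂ, ‖N‖ = r → ((PC P).map (MvPolynomial.eval w)).eval N ≠ 0) := by
  classical
  set ε : ℝ := 1 / (4 * ((K : ℝ) + 1) * 4 ^ K) with hε
  have hK0 : (0 : ℝ) ≤ K := Nat.cast_nonneg K
  have h4K : (1 : ℝ) ≤ 4 ^ K := one_le_pow₀ (by norm_num)
  have hε0 : 0 < ε := by positivity
  have hden : (4 : ℝ) ≤ 4 * ((K : ℝ) + 1) * 4 ^ K := by nlinarith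
  have hε1 : ε < 1 := by
    rw [hε, div_lt_one (by positivity)]
    linarith
  obtain ⟨C₁, hC₁, hn₁⟩ := nc_count k (2 * K * K + K) ε hε0
  refine ⟨((K : ℝ) + 2) * C₁, by nlinarith, ?_⟩
  intro P hP hDB L g hL hg
  have hL0 : (0 : ℝ) < L := by exact_mod_cast hL
  -- the bad sets of the coefficients
  have hco : ∀ j : ℕ, ∃ B : Finset (Fin k → Fin L), (B.card : ℝ) * L ≤ C₁ * g * (L : ℝ) ^ k ∧
      ∀ c, c ∉ B → P.coeff j = 0 ∨ NC ε (g / L) (gp L c) (P.coeff j) := by
    intro j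
    by_cases h0 : P.coeff j = 0
    · exact ⟨∅, by simp; positivity, fun c _ => Or.inl h0⟩
    · obtain ⟨B, h1, h2⟩ := hn₁ (P.coeff j) h0 ((hDB.2 j).trans (Nat.le_add_left _ _)) L g hL hg
      exact ⟨B, h1, fun c hc => Or.inr (h2 c hc)⟩
  choose Bc hBc hBc' using hco
  have hBsum : ∀ B' : Finset (Fin k → Fin L), (B'.card : ℝ) * L ≤ C₁ * g * (L : ℝ) ^ k →
      (((Finset.range (K + 1)).biUnion Bc ∪ B').card : ℝ) * L ≤
        (((K : ℝ) + 2) * C₁) * g * (L : ℝ) ^ k := by
    intro B' hB'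
    have h1 : (((Finset.range (K + 1)).biUnion Bc ∪ B').card : ℝ) ≤
        ∑ j ∈ Finset.range (K + 1), ((Bc j).card : ℝ) + B'.card := by
      have h2 := (Finset.card_union_le ((Finset.range (K + 1)).biUnion Bc) B').trans
        (Nat.add_le_add_right (Finset.card_biUnion_le (s := Finset.range (K + 1)) (t := Bc)) _)
      exact_mod_cast h2
    calc _ ≤ (∑ j ∈ Finset.range (K + 1), ((Bc j).card : ℝ) + B'.card) * L :=
          mul_le_mul_of_nonneg_right h1 hL0.le
      _ = ∑ j ∈ Finset.range (K + 1), ((Bc j).card : ℝ) * L + B'.card * L := by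
          rw [add_mul, Finset.sum_mul]
      _ ≤ ∑ j ∈ Finset.range (K + 1), C₁ * g * (L : ℝ) ^ k + C₁ * g * (L : ℝ) ^ k :=
          add_le_add (Finset.sum_le_sum fun j _ => hBc j) hB'
      _ = _ := by
          rw [Finset.sum_const, Finset.card_range, nsmul_eq_mul]
          push_cast
          ring
  have hcoef : ∀ c, c ∉ (Finset.range (K + 1)).biUnion Bc → ∀ j,
      P.coeff j = 0 ∨ NC ε (g / L) (gp L c) (P.coeff j) := by
    intro c hc j
    rcases le_or_gt j K with hj | hj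
    · refine hBc' j c fun h => hc ?_
      exact Finset.mem_biUnion.mpr ⟨j, Finset.mem_range.mpr (by omega), h⟩
    · exact Or.inl (Polynomial.coeff_eq_zero_of_natDegree_lt (lt_of_le_of_lt hDB.1 hj))
  have hlc : P.leadingCoeff ≠ 0 := Polynomial.leadingCoeff_ne_zero.mpr hP.ne_zero
  by_cases h0 : P.natDegree = 0
  · refine ⟨(Finset.range (K + 1)).biUnion Bc ∪ ∅, hBsum ∅ (by simp; positivity), ?_⟩
    intro c hc
    rw [Finset.union_empty] at hc
    refine Or.inl ⟨h0, ?_⟩
    intro w hw N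
    have h1 := (hcoef c hc 0).resolve_left (by
      have := hlc
      rwa [Polynomial.leadingCoeff, h0] at this)
    have h2 := h1.ne hε1 hw
    have h3 : PC P = Polynomial.C (MvPolynomial.map (algebraMap ℝ ℂ) (P.coeff 0)) := by
      rw [← coeff_PC]
      exact Polynomial.eq_C_of_natDegree_eq_zero (by rw [natDegree_PC, h0])
    rw [h3, Polynomial.map_C, Polynomial.eval_C]
    exact h2
  · obtain ⟨d, U, V, hd, hdd, hUV⟩ := res_fac hP h0 hDB
    obtain ⟨Bd, hBd, hBd'⟩ := hn₁ d hd (hdd.trans (Nat.le_add_right _ _)) L g hL hg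
    refine ⟨(Finset.range (K + 1)).biUnion Bc ∪ Bd, hBsum Bd hBd, ?_⟩
    intro c hc
    have hc1 : c ∉ (Finset.range (K + 1)).biUnion Bc := fun h => hc (Finset.mem_union_left _ h)
    have hc2 : c ∉ Bd := fun h => hc (Finset.mem_union_right _ h)
    have hco' := hcoef c hc1
    refine Or.inr ⟨h0, U.map (MvPolynomial.map (algebraMap ℝ ℂ)),
      V.map (MvPolynomial.map (algebraMap ℝ ℂ)), MvPolynomial.map (algebraMap ℝ ℂ) d, ?_⟩
    -- the circle
    set p : Polynomial ℂ := (PC P).map (MvPolynomial.eval (fun i => ((gp L c i : ℝ) : ℂ))) with hp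
    have hpc : ∀ j, p.coeff j = ((MvPolynomial.eval (gp L c) (P.coeff j) : ℝ) : ℂ) := by
      intro j
      rw [hp, Polynomial.coeff_map, coeff_PC, eval_map_real]
    have hlcz : MvPolynomial.eval (gp L c) P.leadingCoeff ≠ 0 :=
      ((hco' P.natDegree).resolve_left hlc).1
    have hp0 : p ≠ 0 := by
      intro h
      have h1 := hpc P.natDegree
      rw [h, Polynomial.coeff_zero] at h1
      exact hlcz (by exact_mod_cast h1.symm)
    have hpK : p.natDegree ≤ K := by
      refine (Polynomial.natDegree_map_le).trans ?_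
      rw [natDegree_PC]
      exact hDB.1
    obtain ⟨i, hi, hfree⟩ := annulus p hpK
    refine ⟨4 ^ (i + 1), ?_, ?_, ?_, ?_⟩
    · have h1 := congrArg (Polynomial.map (MvPolynomial.map (algebraMap ℝ ℂ))) hUV
      rw [Polynomial.map_add, Polynomial.map_mul, Polynomial.map_mul, Polynomial.map_C,
        ← Polynomial.derivative_map] at h1
      exact h1
    · calc (4 : ℝ) = 4 ^ (0 + 1) := by norm_num
        _ ≤ 4 ^ (i + 1) := pow_le_pow_right₀ (by norm_num) (by omega)
    · exact pow_le_pow_right₀ (by norm_num) (by omega)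
    · intro w hw
      refine ⟨(hBd' c hc2).ne hε1 hw, ?_, ?_⟩
      · rw [leadingCoeff_PC]
        exact ((hco' P.natDegree).resolve_left hlc).ne hε1 hw
      · intro N hN
        refine circ_stable (K := K) (ε := ε) hp0 hpK ?_ (by positivity) hε0.le ?_ hfree ?_ hN
        · refine (Polynomial.natDegree_map_le).trans ?_
          rw [natDegree_PC]
          exact hDB.1
        · rw [hε]
          have h1 : (0 : ℝ) < 4 * ((K : ℝ) + 1) * 4 ^ K := by positivity
          rw [mul_one_div, div_le_one h1]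
          nlinarith
        · intro j
          rw [hpc, Polynomial.coeff_map, coeff_PC, eval_map_cev (gp L c)]
          rcases hco' j with h | h
          · rw [h]
            simp [cev]
          · rw [Complex.norm_real, Real.norm_eq_abs]
            exact h.2 _ hw

end Pool.EXS
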