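import Pool.Agent.H86.EXT.Fac

/-!
# A circle free of roots, stable under small relative changes of the coefficients
-/

set_option autoImplicit false

namespace Pool.EXS

open Finset

/-- The coefficients of a product of linear factors. -/
lemma coef_prod (s : Multiset ℂ) (j : ℕ) :
    ‖((s.map (fun ζ => (Polynomial.X : Polynomial ℂ) - Polynomial.C ζ)).prod).coeff j‖ ≤
      ((s.map (fun ζ => (Polynomial.X : Polynomial ℝ) + Polynomial.C ‖ζ‖)).prod).coeff j := by
  induction s using Multiset.induction_on generalizing j with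
  | empty =>
    simp only [Multiset.map_zero, Multiset.prod_zero, Polynomial.coeff_one]
    split_ifs <;> simp
  | cons a s ih =>
    rw [Multiset.map_cons, Multiset.prod_cons, Multiset.map_cons, Multiset.prod_cons]
    cases j with
    | zero =>
      rw [sub_mul, add_mul, Polynomial.coeff_sub, Polynomial.coeff_add,
        Polynomial.coeff_X_mul_zero, Polynomial.coeff_X_mul_zero, Polynomial.coeff_C_mul,
        Polynomial.coeff_C_mul, zero_sub, zero_add, norm_neg, norm_mul]
      exact mul_le_mul_of_nonneg_left (ih 0) (norm_nonneg _)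
    | succ j =>
      rw [sub_mul, add_mul, Polynomial.coeff_sub, Polynomial.coeff_add,
        Polynomial.coeff_X_mul, Polynomial.coeff_X_mul, Polynomial.coeff_C_mul,
        Polynomial.coeff_C_mul]
      refine (norm_sub_le _ _).trans ?_
      rw [norm_mul]
      exact add_le_add (ih j) (mul_le_mul_of_nonneg_left (ih (j + 1)) (norm_nonneg _))

lemma coef_prod_nonneg (s : Multiset ℂ) (j : ℕ) :
    0 ≤ ((s.map (fun ζ => (Polynomial.X : Polynomial ℝ) + Polynomial.C ‖ζ‖)).prod).coeff j :=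
  (norm_nonneg _).trans (coef_prod s j)

lemma coef_le_prod (s : Multiset ℂ) (j : ℕ) {r : ℝ} (hr : 0 ≤ r) :
    ‖((s.map (fun ζ => (Polynomial.X : Polynomial ℂ) - Polynomial.C ζ)).prod).coeff j‖ * r ^ j ≤
      (s.map (fun ζ => r + ‖ζ‖)).prod := by
  have h1 : ((s.map (fun ζ => (Polynomial.X : Polynomial ℝ) + Polynomial.C ‖ζ‖)).prod).eval r =
      (s.map (fun ζ => r + ‖ζ‖)).prod := by
    rw [Polynomial.eval_multiset_prod, Multiset.map_map]
    congr 1
    refine Multiset.map_congr rfl fun ζ _ => ?_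
    simp
  rw [← h1]
  set q := (s.map (fun ζ => (Polynomial.X : Polynomial ℝ) + Polynomial.C ‖ζ‖)).prod with hq
  have h2 : q.coeff j * r ^ j ≤ q.eval r := by
    rw [Polynomial.eval_eq_sum_range]
    rcases le_or_gt j q.natDegree with hj | hj
    · exact Finset.single_le_sum (f := fun i => q.coeff i * r ^ i)
        (fun i _ => mul_nonneg (coef_prod_nonneg s i) (pow_nonneg hr i))
        (Finset.mem_range.mpr (Nat.lt_succ_of_le hj))
    · rw [Polynomial.coeff_eq_zero_of_natDegree_lt hj, zero_mul]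
      exact Finset.sum_nonneg fun i _ => mul_nonneg (coef_prod_nonneg s i) (pow_nonneg hr i)
  exact (mul_le_mul_of_nonneg_right (coef_prod s j) (pow_nonneg hr j)).trans h2

/-- The lower bound on a circle in the middle of an annulus without roots. -/
lemma circ_low {p : Polynomial ℂ} (hp : p ≠ 0) {r : ℝ} (hr : 0 < r)
    (hfree : ∀ ζ ∈ p.roots, ‖ζ‖ ≤ r / 2 ∨ 2 * r ≤ ‖ζ‖) {N : ℂ} (hN : ‖N‖ = r) (j : ℕ) :
    ‖p.coeff j‖ * r ^ j ≤ 4 ^ p.natDegree * ‖p.eval N‖ := by
  have hsp := IsAlgClosed.splits p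
  have hpe : p = Polynomial.C p.leadingCoeff *
      (p.roots.map (fun ζ => Polynomial.X - Polynomial.C ζ)).prod := by
    conv_lhs => rw [hsp.eq_prod_roots]
  have hcard : Multiset.card p.roots = p.natDegree := hsp.natDegree_eq_card_roots.symm
  have h1 : ‖p.eval N‖ = ‖p.leadingCoeff‖ * (p.roots.map (fun ζ => ‖N - ζ‖)).prod := by
    conv_lhs => rw [hpe]
    rw [Polynomial.eval_mul, Polynomial.eval_C, norm_mul, Polynomial.eval_multiset_prod,
      Multiset.map_map]
    congr 1
    have h2 : ∀ s : Multiset ℂ, ‖(s.map ((Polynomial.eval N) ∘ fun ζ : ℂ =>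
        (Polynomial.X : Polynomial ℂ) - Polynomial.C ζ)).prod‖ =
        (s.map (fun ζ => ‖N - ζ‖)).prod := by
      intro s
      induction s using Multiset.induction_on with
      | empty => simp
      | cons a s ih =>
        rw [Multiset.map_cons, Multiset.prod_cons, norm_mul, ih, Multiset.map_cons,
          Multiset.prod_cons]
        simp
    exact h2 _
  have h3 : ‖p.coeff j‖ * r ^ j ≤ ‖p.leadingCoeff‖ * (p.roots.map (fun ζ => r + ‖ζ‖)).prod := by
    have h4 : ‖p.coeff j‖ = ‖p.leadingCoeff‖ *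
        ‖((p.roots.map (fun ζ => (Polynomial.X : Polynomial ℂ) - Polynomial.C ζ)).prod).coeff j‖ := by
      conv_lhs => rw [hpe]
      rw [Polynomial.coeff_C_mul, norm_mul]
    rw [h4, mul_assoc]
    exact mul_le_mul_of_nonneg_left (coef_le_prod _ _ hr.le) (norm_nonneg _)
  have h5 : ∀ s : Multiset ℂ, (∀ ζ ∈ s, ‖ζ‖ ≤ r / 2 ∨ 2 * r ≤ ‖ζ‖) →
      (s.map (fun ζ => r + ‖ζ‖)).prod ≤ 4 ^ (Multiset.card s) *
        (s.map (fun ζ => ‖N - ζ‖)).prod := by
    intro s
    induction s using Multiset.induction_on with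
    | empty => intro _; simp
    | cons a s ih =>
      intro hs
      rw [Multiset.map_cons, Multiset.prod_cons, Multiset.map_cons, Multiset.prod_cons,
        Multiset.card_cons, pow_succ]
      have h6 := ih (fun ζ hζ => hs ζ (Multiset.mem_cons_of_mem hζ))
      have h7 : r + ‖a‖ ≤ 4 * ‖N - a‖ := by
        have h8 : ‖N‖ ≤ ‖N - a‖ + ‖a‖ := by
          have := norm_add_le (N - a) a
          simpa using this
        have h9 : ‖a‖ ≤ ‖N - a‖ + ‖N‖ := by
          have := norm_sub_le N (N - a)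
          have e : N - (N - a) = a := by ring
          rw [e] at this
          linarith
        rcases hs a (Multiset.mem_cons_self a s) with h | h
        · linarith
        · linarith
      have h10 : 0 ≤ (s.map (fun ζ => r + ‖ζ‖)).prod := by
        refine Multiset.prod_nonneg ?_
        intro x hx
        obtain ⟨ζ, _, rfl⟩ := Multiset.mem_map.mp hx
        positivity
      calc (r + ‖a‖) * (s.map (fun ζ => r + ‖ζ‖)).prod ≤ (4 * ‖N - a‖) *
            (4 ^ (Multiset.card s) * (s.map (fun ζ => ‖N - ζ‖)).prod) :=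
            mul_le_mul h7 h6 h10 (by positivity)
        _ = _ := by ring
  have h6 := h5 p.roots hfree
  rw [hcard] at h6
  calc ‖p.coeff j‖ * r ^ j ≤ ‖p.leadingCoeff‖ * (p.roots.map (fun ζ => r + ‖ζ‖)).prod := h3
    _ ≤ ‖p.leadingCoeff‖ * (4 ^ p.natDegree * (p.roots.map (fun ζ => ‖N - ζ‖)).prod) :=
        mul_le_mul_of_nonneg_left h6 (norm_nonneg _)
    _ = 4 ^ p.natDegree * ‖p.eval N‖ := by rw [h1]; ring

/-- A free annulus. -/
lemma annulus (p : Polynomial ℂ) {K : ℕ} (hK : p.natDegree ≤ K) :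
    ∃ i ≤ K, ∀ ζ ∈ p.roots, ‖ζ‖ ≤ (4 : ℝ) ^ (i + 1) / 2 ∨ 2 * (4 : ℝ) ^ (i + 1) ≤ ‖ζ‖ := by
  classical
  by_contra hcon
  push Not at hcon
  have h1 : ∀ i : Fin (K + 1), ∃ ζ ∈ p.roots.toFinset, (4 : ℝ) ^ ((i : ℕ) + 1) / 2 < ‖ζ‖ ∧
      ‖ζ‖ < 2 * (4 : ℝ) ^ ((i : ℕ) + 1) := by
    intro i
    obtain ⟨ζ, h1, h2, h3⟩ := hcon i (Nat.lt_succ_iff.mp i.2)
    exact ⟨ζ, Multiset.mem_toFinset.mpr h1, h2, h3⟩
  choose f hf hf1 hf2 using h1
  have hinj : Function.Injective f := by
    intro i j hij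
    by_contra hne
    have key : ∀ i j : Fin (K + 1), i < j → f i = f j → False := by
      intro i j hlt he
      have h3 := hf2 i
      have h4 := hf1 j
      rw [← he] at h4
      have h5 : (4 : ℝ) ^ ((i : ℕ) + 1 + 1) ≤ 4 ^ ((j : ℕ) + 1) :=
        pow_le_pow_right₀ (by norm_num) (by
          have : (i : ℕ) < j := hlt
          omega)
      rw [pow_succ] at h5
      linarith
    rcases lt_or_gt_of_ne hne with h | h
    · exact key i j h hij
    · exact key j i h hij.symm
  have h2 : (Finset.univ : Finset (Fin (K + 1))).card ≤ p.roots.toFinset.card :=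
    Finset.card_le_card_of_injOn f (fun i _ => Finset.mem_coe.mpr (hf i)) hinj.injOn
  rw [Finset.card_univ, Fintype.card_fin] at h2
  have h3 := Multiset.toFinset_card_le p.roots
  have h4 := Polynomial.card_roots' p
  omega

/-- Small relative changes of the coefficients. -/
lemma circ_stable {p p' : Polynomial ℂ} {K : ℕ} (hp : p ≠ 0) (hK : p.natDegree ≤ K)
    (hK' : p'.natDegree ≤ K) {r ε : ℝ} (hr : 0 < r) (hε : 0 ≤ ε)
    (hε1 : 2 * ((K : ℝ) + 1) * 4 ^ K * ε ≤ 1)
    (hfree : ∀ ζ ∈ p.roots, ‖ζ‖ ≤ r / 2 ∨ 2 * r ≤ ‖ζ‖)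
    (hc : ∀ j, ‖p'.coeff j - p.coeff j‖ ≤ ε * ‖p.coeff j‖) {N : ℂ} (hN : ‖N‖ = r) :
    p'.eval N ≠ 0 := by
  have h1 := circ_low hp hr hfree hN
  have hpos : 0 < ‖p.eval N‖ := by
    have h2 := h1 p.natDegree
    have h3 : 0 < ‖p.coeff p.natDegree‖ * r ^ p.natDegree := by
      have : p.coeff p.natDegree ≠ 0 := Polynomial.leadingCoeff_ne_zero.mpr hp
      have := norm_pos_iff.mpr this
      positivity
    have h4 : 0 < 4 ^ p.natDegree * ‖p.eval N‖ := lt_of_lt_of_le h3 h2
    exact pos_of_mul_pos_right h4 (by positivity)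
  have h2 : ‖p'.eval N - p.eval N‖ ≤ ‖p.eval N‖ / 2 := by
    rw [Polynomial.eval_eq_sum_range' (Nat.lt_succ_of_le hK'),
      Polynomial.eval_eq_sum_range' (Nat.lt_succ_of_le hK), ← Finset.sum_sub_distrib]
    refine (norm_sum_le _ _).trans ?_
    have h3 : ∀ j ∈ Finset.range (K + 1),
        ‖p'.coeff j * N ^ j - p.coeff j * N ^ j‖ ≤ ε * (4 ^ K *
          ‖∑ i ∈ Finset.range (K + 1), p.coeff i * N ^ i‖) := by
      intro j _
      rw [← sub_mul, norm_mul, norm_pow, hN]
      calc ‖p'.coeff j - p.coeff j‖ * r ^ j ≤ (ε * ‖p.coeff j‖) * r ^ j :=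
            mul_le_mul_of_nonneg_right (hc j) (by positivity)
        _ = ε * (‖p.coeff j‖ * r ^ j) := by ring
        _ ≤ ε * (4 ^ p.natDegree * ‖p.eval N‖) := mul_le_mul_of_nonneg_left (h1 j) hε
        _ ≤ ε * (4 ^ K * ‖p.eval N‖) := by
            refine mul_le_mul_of_nonneg_left ?_ hε
            exact mul_le_mul_of_nonneg_right (pow_le_pow_right₀ (by norm_num) hK) (norm_nonneg _)
        _ = _ := by
            rw [Polynomial.eval_eq_sum_range' (Nat.lt_succ_of_le hK)]
    refine (Finset.sum_le_sum h3).trans ?_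
    rw [Finset.sum_const, Finset.card_range, nsmul_eq_mul]
    set T := ‖∑ i ∈ Finset.range (K + 1), p.coeff i * N ^ i‖ with hT
    have hT0 : 0 ≤ T := norm_nonneg _
    push_cast
    have h5 : ((K : ℝ) + 1) * (ε * (4 ^ K * T)) = (2 * ((K : ℝ) + 1) * 4 ^ K * ε) * (T / 2) := by
      ring
    rw [h5]
    calc _ ≤ 1 * (T / 2) := mul_le_mul_of_nonneg_right hε1 (by positivity)
      _ = T / 2 := one_mul _
  intro h0
  rw [h0, zero_sub, norm_neg] at h2
  linarith

end Pool.EXS
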