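import Pool.Agent.H86.EXT.Exe
import Pool.Agent.H37.M3F.Lab

/-!
# Entropies of the digits of a position, and subcells
-/

set_option autoImplicit false

namespace Pool.EXS

open Finset Real
open Pool.Agent.H49.Ent Pool.Agent.H32.Dense Pool.STK Pool.KAF Pool.KAL Pool.KS3 Pool.M3F Pool.KJA
open Pool.IEN

variable {d : ℕ}

/-- The number of the values of a position in a box. -/
lemma CH_box {V Γ : Type} [Fintype V] {r : V → ℝ} (hr : IsLaw r) (m : V → Fin d → ℕ) (c : V → Γ)
    (f : Γ → Fin d → ℕ) (n : Fin d → ℕ) (hm : ∀ v, 0 < r v → ∀ i, f (c v) i ≤ m v i ∧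
      m v i < f (c v) i + n i) :
    CH r m c ≤ ∑ i, Real.log (n i) := by
  classical
  have h1 := CH_le_card hr.nonneg hr.sum_one m c
    (fun γ => Fintype.piFinset (fun i : Fin d => Finset.Ico (f γ i) (f γ i + n i))) (by
      intro v hv
      rw [Fintype.mem_piFinset]
      intro i
      rw [Finset.mem_Ico]
      exact hm v hv i)
  refine h1.trans (le_of_eq ?_)
  obtain ⟨v₀, hv₀⟩ : ∃ v, 0 < r v := by
    by_contra hcon
    push Not at hcon
    have h3 : ∑ v, r v = 0 :=
      Finset.sum_eq_zero fun v _ => le_antisymm (hcon v) (hr.nonneg v)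
    rw [hr.sum_one] at h3
    exact one_ne_zero h3
  have hn : ∀ i, (0 : ℝ) < n i := by
    intro i
    have := hm v₀ hv₀ i
    have : 0 < n i := by omega
    exact_mod_cast this
  have h2 : ∀ γ, ((Fintype.piFinset (fun i : Fin d =>
      Finset.Ico (f γ i) (f γ i + n i))).card : ℝ) = ∏ i, (n i : ℝ) := by
    intro γ
    rw [Fintype.card_piFinset]
    push_cast
    refine Finset.prod_congr rfl fun i _ => ?_
    rw [Nat.card_Ico]
    congr 1
    omega
  simp only [h2]
  rw [Ex_const hr.sum_one, Real.log_prod (fun i _ => (hn i).ne')]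

/-- The top digits. -/
lemma ent_top {V Γ : Type} [Fintype V] {r : V → ℝ} (hr : IsLaw r) (c : V → Γ)
    (m : V → Fin d → ℕ) (L : ℕ) (N₁ : Fin d → ℕ) (Y : V → Fin d → Fin L) (hL : 1 ≤ L)
    (hN : ∀ i, 1 ≤ N₁ i) (hY : ∀ v, 0 < r v → ∀ i, (Y v i : ℕ) = m v i / N₁ i) :
    d * Real.log L - CH r Y c ≤ ∑ i, Real.log ((L * N₁ i : ℕ) : ℝ) - CH r m c := by
  have h1 := CH_le_add hr.nonneg m Y c
  have h2 := CH_box hr m (fun v => (Y v, c v)) (fun γ i => (γ.1 i : ℕ) * N₁ i) N₁ (by
    intro v hv i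
    have h3 := hY v hv i
    have h4 := hN i
    show (Y v i : ℕ) * N₁ i ≤ m v i ∧ m v i < (Y v i : ℕ) * N₁ i + N₁ i
    rw [h3]
    have h5 := Nat.div_add_mod (m v i) (N₁ i)
    have h6 := Nat.mod_lt (m v i) h4
    have h7 : N₁ i * (m v i / N₁ i) = m v i / N₁ i * N₁ i := mul_comm _ _
    omega)
  have h3 : ∑ i, Real.log ((L * N₁ i : ℕ) : ℝ) = d * Real.log L + ∑ i, Real.log (N₁ i) := by
    have h4 : ∀ i, Real.log ((L * N₁ i : ℕ) : ℝ) = Real.log L + Real.log (N₁ i) := by
      intro i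
      have h5 : (0 : ℝ) < L := by exact_mod_cast hL
      have h6 : (0 : ℝ) < N₁ i := by exact_mod_cast hN i
      push_cast
      rw [Real.log_mul h5.ne' h6.ne']
    rw [Finset.sum_congr rfl fun i _ => h4 i, Finset.sum_add_distrib, Finset.sum_const,
      Finset.card_univ, Fintype.card_fin, nsmul_eq_mul]
  rw [h3]
  linarith

/-- The lower digits. -/
lemma ent_low {V Γ : Type} [Fintype V] {r : V → ℝ} (hr : IsLaw r) (c : V → Γ)
    (m : V → Fin d → ℕ) (L : ℕ) (N₁ : Fin d → ℕ) (Y : V → Fin d → Fin L) (hL : 1 ≤ L)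
    (hN : ∀ i, 1 ≤ N₁ i) (hY : ∀ v, 0 < r v → ∀ i, (Y v i : ℕ) = m v i / N₁ i) :
    ∑ i, Real.log (N₁ i) - CH r (fun v i => m v i % N₁ i) (fun v => (Y v, c v)) ≤
      ∑ i, Real.log ((L * N₁ i : ℕ) : ℝ) - CH r m c := by
  have h1 := CH_le_add hr.nonneg m Y c
  have h2 : CH r m (fun v => (Y v, c v)) ≤
      CH r (fun v i => m v i % N₁ i) (fun v => (Y v, c v)) := by
    refine CH_mono_left hr.nonneg ?_
    intro v v' hv hv' h
    simp only [Prod.mk.injEq] at h
    obtain ⟨h3, h4, _⟩ := h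
    funext i
    have h5 := congrFun h3 i
    have h6 : m v i / N₁ i = m v' i / N₁ i := by
      rw [← hY v hv i, ← hY v' hv' i, h4]
    have h7 := Nat.div_add_mod (m v i) (N₁ i)
    have h8 := Nat.div_add_mod (m v' i) (N₁ i)
    rw [← h7, ← h8, h6, h5]
  have h2' : CH r Y c ≤ d * Real.log L := by
    classical
    have h3 := CH_le_card hr.nonneg hr.sum_one Y c (fun _ => Finset.univ)
      (fun v _ => Finset.mem_univ _)
    rw [Ex_const hr.sum_one, Finset.card_univ, Fintype.card_fun, Fintype.card_fin,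
      Fintype.card_fin] at h3
    push_cast at h3
    rwa [Real.log_pow] at h3
  have h3 : ∑ i, Real.log ((L * N₁ i : ℕ) : ℝ) = d * Real.log L + ∑ i, Real.log (N₁ i) := by
    have h4 : ∀ i, Real.log ((L * N₁ i : ℕ) : ℝ) = Real.log L + Real.log (N₁ i) := by
      intro i
      have h5 : (0 : ℝ) < L := by exact_mod_cast hL
      have h6 : (0 : ℝ) < N₁ i := by exact_mod_cast hN i
      push_cast
      rw [Real.log_mul h5.ne' h6.ne']
    rw [Finset.sum_congr rfl fun i _ => h4 i, Finset.sum_add_distrib, Finset.sum_const,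
      Finset.card_univ, Fintype.card_fin, nsmul_eq_mul]
  rw [h3]
  linarith

/-- Two charts of a system at the same point. -/
lemma chi_eq (g : Fin d → MvPolynomial (Fin d) ℝ) (hg : TriP g) (c w c' w' u u' : Fin d → ℝ)
    (h : ∀ i, c i + w i * u i = c' i + w' i * u' i) : cpt (chi g c w) u = cpt (chi g c' w') u' := by
  have key : ∀ m : ℕ, ∀ i : Fin d, i.val = m → cpt (chi g c w) u i = cpt (chi g c' w') u' i := by
    intro m
    induction m using Nat.strong_induction_on with
    | _ m ih =>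
      intro i hi
      rw [eval_chi g hg c w u i, eval_chi g hg c' w' u' i]
      have h1 : MvPolynomial.eval (cpt (chi g c w) u) (g i) =
          MvPolynomial.eval (cpt (chi g c' w') u') (g i) := by
        refine eval_eq_of_pderiv (fun l hl => hg i l hl) ?_
        intro l hl
        exact ih l.val (by
          have : l.val < i.val := hl
          omega) l rfl
      rw [h1]
      have := h i
      linarith
  funext i
  exact key i.val i rfl

/-- The position in a cell is given by the digits up to one unit. -/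
lemma rpos_dig {M : ℕ} {N : Fin d → ℕ} {g : Fin d → MvPolynomial (Fin d) ℝ} (hM : 1 ≤ M)
    (hN : ∀ i, 1 ≤ N i) (y : Fin d → ℝ) (i : Fin d) :
    (nrem N (ndg M g y) i : ℝ) / N i ≤ rpos M N g (nidx N (ndg M g y)) y i ∧
      rpos M N g (nidx N (ndg M g y)) y i < ((nrem N (ndg M g y) i : ℝ) + 1) / N i := by
  have hM0 : (0 : ℝ) < M := by exact_mod_cast hM
  have hN0 : (0 : ℝ) < N i := by exact_mod_cast hN i
  have h1 : (((nrem N (ndg M g y) i : ℕ) : ℤ) : ℝ) =
      ((ndg M g y i - nidx N (ndg M g y) i * N i : ℤ) : ℝ) := by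
    exact_mod_cast nrem_cast hN (ndg M g y) i
  push_cast at h1
  set X : ℝ := M * (y i - MvPolynomial.eval y (g i)) with hX
  have h2 : ((ndg M g y i : ℤ) : ℝ) ≤ X := Int.floor_le _
  have h3 : X < ((ndg M g y i : ℤ) : ℝ) + 1 := Int.lt_floor_add_one _
  have h4 : rpos M N g (nidx N (ndg M g y)) y i =
      (X - (nidx N (ndg M g y) i : ℝ) * N i) / N i := by
    unfold rpos
    rw [hX]
    field_simp
  rw [h4]
  constructor
  · refine div_le_div_of_nonneg_right ?_ hN0.le
    rw [h1]
    linarith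
  · refine div_lt_div_of_pos_right ?_ hN0
    rw [h1]
    linarith

end Pool.EXS
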