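import Pool.Agent.H86.EXT.Lev
import Pool.Agent.H86.IE.Dbl

/-!
# Doubling for the difference of a leaf and of a branch of another equation

`geo_det`: the equation `pN k Q` of the other leaf is almost satisfied at the point (`LnR`), the
branch `a` passes near the point, and the derivatives `pN j Q` are nearly constant along the branch
over the cell. Then `F - a` doubles from the small cube to the cell.
-/

set_option autoImplicit false

namespace Pool.IEN

open Finset Real
open Pool.Agent.H49.Ent Pool.Agent.H32.Dense Pool.STK Pool.KAF Pool.KAL Pool.KS3 Pool.M3F Pool.KJA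

lemma psh_psh {d : ℕ} (y : Option (Fin d) → ℝ) (s : ℝ) : psh (psh y s) (-s) = y := by
  funext o
  cases o with
  | none => simp [psh]
  | some i => simp [psh]

/-- Geometric sums. -/
lemma geo_le {q : ℝ} (hq : 0 ≤ q) (hq2 : q ≤ 1 / 2) (n : ℕ) : ∑ m ∈ range n, q ^ m ≤ 2 := by
  have h1 : (1 - q) * ∑ m ∈ range n, q ^ m = 1 - q ^ n := by
    have := mul_geom_sum q n
    nlinarith [this]
  have h2 : 0 ≤ ∑ m ∈ range n, q ^ m := Finset.sum_nonneg fun m _ => pow_nonneg hq m
  have h3 : 0 ≤ q ^ n := pow_nonneg hq n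
  nlinarith

/-- Transfer of the equation to a nearby point. -/
lemma lnr_tr {d D : ℕ} {Q : MvPolynomial (Option (Fin d)) ℝ} (hQ : Q.totalDegree ≤ D)
    {H : ℝ} {θ : ℕ → ℝ} {x : Option (Fin d) → ℝ} {k : ℕ} (h : LnR D Q H θ x k) (hH : 1 ≤ H)
    (hθ : 0 < θ (k + 1)) {s δ : ℝ} (hs : |s| ≤ δ) (hδ : 4 * H * δ ≤ θ (k + 1)) :
    |MvPolynomial.eval x (pN (k + 1) Q)| ≤ 2 * |MvPolynomial.eval (psh x s) (pN (k + 1) Q)| ∧
    |MvPolynomial.eval (psh x s) (pN k Q)| ≤
      (θ k + 2 * δ) * (H * |MvPolynomial.eval x (pN (k + 1) Q)|) ∧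
    ∀ m, |MvPolynomial.eval (psh x s) (pN (k + 1 + m) Q)| * θ (k + 1) ^ m ≤
      2 * H * |MvPolynomial.eval x (pN (k + 1) Q)| := by
  set α := |MvPolynomial.eval x (pN (k + 1) Q)| with hα
  have hα0 : 0 < α := h.pos
  have hδ0 : 0 ≤ δ := (abs_nonneg _).trans hs
  set t := θ (k + 1) with ht
  have hq : δ / t ≤ 1 / 4 := by
    rw [div_le_iff₀ hθ]
    nlinarith
  have hq0 : 0 ≤ δ / t := by positivity
  have hHq : H * (δ / t) ≤ 1 / 4 := by
    rw [← mul_div_assoc, div_le_iff₀ hθ]
    nlinarith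
  have hhigh : ∀ m, |MvPolynomial.eval x (pN (k + 1 + m) Q)| ≤ H * α / t ^ m := by
    intro m
    rw [le_div_iff₀ (by positivity)]
    exact h.high m
  refine ⟨?_, ?_, ?_⟩
  · have e1 := tay_pas x s (pN_deg (k + 1) D hQ)
    rw [Finset.sum_range_succ'] at e1
    simp only [pow_zero, Nat.factorial_zero, Nat.cast_one, div_one, one_mul, pN_zero] at e1
    have e2 : |∑ m ∈ range D, s ^ (m + 1) / ((m + 1).factorial : ℝ) *
        MvPolynomial.eval x (pN (m + 1) (pN (k + 1) Q))| ≤ α / 2 := by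
      calc |∑ m ∈ range D, s ^ (m + 1) / ((m + 1).factorial : ℝ) *
          MvPolynomial.eval x (pN (m + 1) (pN (k + 1) Q))| ≤
          ∑ m ∈ range D, δ ^ (m + 1) * (H * α / t ^ (m + 1)) := by
            refine (Finset.abs_sum_le_sum_abs _ _).trans (Finset.sum_le_sum fun m _ => ?_)
            rw [abs_mul, abs_div, abs_pow, pN_pN, add_comm (m + 1) (k + 1)]
            have h1 : (1 : ℝ) ≤ (m + 1).factorial := by exact_mod_cast Nat.factorial_pos _
            rw [abs_of_nonneg (by linarith : (0 : ℝ) ≤ (m + 1).factorial)]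
            refine mul_le_mul ?_ (hhigh (m + 1)) (abs_nonneg _) (by positivity)
            exact (div_le_self (by positivity) h1).trans (pow_le_pow_left₀ (abs_nonneg _) hs _)
        _ = H * (δ / t) * α * ∑ m ∈ range D, (δ / t) ^ m := by
            rw [Finset.mul_sum]
            refine Finset.sum_congr rfl fun m _ => ?_
            rw [div_pow]
            field_simp
            ring
        _ ≤ H * (δ / t) * α * 2 := by
            refine mul_le_mul_of_nonneg_left (geo_le hq0 (by linarith) D) ?_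
            positivity
        _ ≤ α / 2 := by nlinarith
    have e3 : MvPolynomial.eval x (pN (k + 1) Q) = MvPolynomial.eval (psh x s) (pN (k + 1) Q) -
        ∑ m ∈ range D, s ^ (m + 1) / ((m + 1).factorial : ℝ) *
        MvPolynomial.eval x (pN (m + 1) (pN (k + 1) Q)) := by
      rw [e1]
      ring
    have e4 : α ≤ |MvPolynomial.eval (psh x s) (pN (k + 1) Q)| + α / 2 := by
      calc α = |MvPolynomial.eval (psh x s) (pN (k + 1) Q) -
          ∑ m ∈ range D, s ^ (m + 1) / ((m + 1).factorial : ℝ) *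
          MvPolynomial.eval x (pN (m + 1) (pN (k + 1) Q))| := by rw [hα, e3]
        _ ≤ _ := (abs_sub _ _).trans (add_le_add le_rfl e2)
    linarith
  · have e1 := abs_psh_le x hs (pN_deg k D hQ)
    rw [Finset.sum_range_succ'] at e1
    simp only [pow_zero, one_mul, pN_zero] at e1
    have e2 : ∑ m ∈ range D, δ ^ (m + 1) * |MvPolynomial.eval x (pN (m + 1) (pN k Q))| ≤
        2 * δ * (H * α) := by
      calc ∑ m ∈ range D, δ ^ (m + 1) * |MvPolynomial.eval x (pN (m + 1) (pN k Q))| ≤
          ∑ m ∈ range D, δ ^ (m + 1) * (H * α / t ^ m) := by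
            refine Finset.sum_le_sum fun m _ => ?_
            rw [pN_pN, show m + 1 + k = k + 1 + m by ring]
            exact mul_le_mul_of_nonneg_left (hhigh m) (by positivity)
        _ = δ * (H * α) * ∑ m ∈ range D, (δ / t) ^ m := by
            rw [Finset.mul_sum]
            refine Finset.sum_congr rfl fun m _ => ?_
            rw [div_pow]
            field_simp
            ring
        _ ≤ δ * (H * α) * 2 := by
            refine mul_le_mul_of_nonneg_left (geo_le hq0 (by linarith) D) ?_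
            positivity
        _ = _ := by ring
    have e3 := h.low
    calc |MvPolynomial.eval (psh x s) (pN k Q)| ≤ 2 * δ * (H * α) + θ k * (H * α) :=
          e1.trans (add_le_add e2 e3)
      _ = _ := by ring
  · intro j
    have e1 := abs_psh_le x hs (pN_deg (k + 1 + j) D hQ)
    have e2 : ∑ m ∈ range (D + 1), δ ^ m * |MvPolynomial.eval x (pN m (pN (k + 1 + j) Q))| ≤
        2 * (H * α / t ^ j) := by
      calc ∑ m ∈ range (D + 1), δ ^ m * |MvPolynomial.eval x (pN m (pN (k + 1 + j) Q))| ≤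
          ∑ m ∈ range (D + 1), δ ^ m * (H * α / t ^ (j + m)) := by
            refine Finset.sum_le_sum fun m _ => ?_
            rw [pN_pN, show m + (k + 1 + j) = k + 1 + (j + m) by ring]
            exact mul_le_mul_of_nonneg_left (hhigh (j + m)) (by positivity)
        _ = (H * α / t ^ j) * ∑ m ∈ range (D + 1), (δ / t) ^ m := by
            rw [Finset.mul_sum]
            refine Finset.sum_congr rfl fun m _ => ?_
            rw [div_pow, pow_add]
            field_simp
        _ ≤ (H * α / t ^ j) * 2 := by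
            refine mul_le_mul_of_nonneg_left (geo_le hq0 (by linarith) _) ?_
            positivity
        _ = _ := by ring
    have e3 := e1.trans e2
    calc |MvPolynomial.eval (psh x s) (pN (k + 1 + j) Q)| * t ^ j ≤
          2 * (H * α / t ^ j) * t ^ j := mul_le_mul_of_nonneg_right e3 (by positivity)
      _ = 2 * H * α := by
          field_simp

/-- **Doubling for the difference of a leaf and of a branch.** -/
theorem geo_det (d D k₀ : ℕ) : ∃ C : ℝ, 1 ≤ C ∧
    ∀ (C₀ κ : ℝ) (M K : ℕ) (Ng j : Fin d → ℕ) (G : Fin d → MvPolynomial (Fin d) ℝ)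
      (w : Fin d → ℝ) (F a : MvPolynomial (Fin d) ℝ) (Q : MvPolynomial (Option (Fin d)) ℝ)
      (Z H ρ r δ : ℝ) (θ : ℕ → ℝ) (k : ℕ) (u : Fin d → ℝ) (x : Option (Fin d) → ℝ),
      1 ≤ C₀ → 1 ≤ κ → 1 ≤ M → 2 ≤ K → 1 ≤ Z → 1 ≤ H → (∀ i, K ≤ Ng i) → (∀ i, j i < K) →
      Tri k₀ C₀ M Ng G w F → a.totalDegree ≤ k₀ → Q.totalDegree ≤ D →
      -- all the polynomials of degree at most `D` double on the leaf
      (∀ R : MvPolynomial (Option (Fin d)) ℝ, R.totalDegree ≤ D → ∀ u ∈ ucube d, ∃ u' ∈ ucube d,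
        (∀ i, (j i : ℝ) / K ≤ u' i ∧ u' i ≤ ((j i : ℝ) + 1) / K) ∧
        Psi R (κ / M) (cpt (triC G w F) u) ≤ Z * Psi R (κ / M) (cpt (triC G w F) u')) →
      -- the equation at the point, the branch passes near the point
      LnR D Q H θ x k → 0 ≤ θ k → u ∈ ucube d → (∀ i, x (some i) = cpt (triC G w F) u (some i)) →
      |x none - MvPolynomial.eval u a| ≤ δ →
      -- near-constancy along the branch
      (∀ m, ∀ u₁ ∈ ucube d, ∀ u₂ ∈ ucube d,
        |MvPolynomial.eval (cpt (gch (triC G w F) a) u₁) (pN m Q)| ≤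
          3 * |MvPolynomial.eval (cpt (gch (triC G w F) a) u₂) (pN m Q)|) →
      0 < ρ → 1 ≤ M * ρ → 6 * H * (θ k + 2 * δ) ≤ ρ → 12 * H * ρ ≤ θ (k + 1) →
      -- the difference on the small cube
      ρ ≤ r → r ≤ 1 → cs (rco K j) (1 / K) (F - a) ≤ r →
      cs (fun _ => 0) 1 (F - a) ≤ (C * Z * (C * κ * C₀ ^ (2 * d)) ^ (D + 1)) ^ (D + 1) * r := by
  obtain ⟨C₁, hC₁, hdbl⟩ := dbl d D k₀
  refine ⟨9 * C₁, by linarith, ?_⟩
  intro C₀ κ M K Ng j G w F a Q Z H ρ r δ θ k u x hC₀ hκ hM hK hZ hH hKN hj hT ha hQ hL hR hθk hu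
    hx hxa hNC hρ hMρ hρ1 hρ2 hρr hr1 hsmall
  have hθ : 0 < θ (k + 1) := lt_of_lt_of_le (by positivity) hρ2
  have hδ0 : 0 ≤ δ := (abs_nonneg _).trans hxa
  set y := cpt (gch (triC G w F) a) u with hy
  have hyx : y = psh x (MvPolynomial.eval u a - x none) := by
    funext o
    cases o with
    | none => simp [hy, cpt, gch, psh]
    | some i =>
      show cpt (gch (triC G w F) a) u (some i) = x (some i)
      rw [hx i]
      simp [cpt, gch]
  have hxa' : |MvPolynomial.eval u a - x none| ≤ δ := by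
    rw [abs_sub_comm]
    exact hxa
  have hδθ : 4 * H * δ ≤ θ (k + 1) := by
    have h1 : 12 * H * δ ≤ ρ := by nlinarith
    have h2 : ρ ≤ 12 * H * ρ := by nlinarith
    have h3 : 0 ≤ H * δ := by positivity
    nlinarith
  obtain ⟨t1, t2, t3⟩ := lnr_tr hQ hR hH hθ hxa' hδθ
  rw [← hyx] at t1 t2 t3
  set α := |MvPolynomial.eval x (pN (k + 1) Q)| with hα
  set β := |MvPolynomial.eval y (pN (k + 1) Q)| with hβ
  have hα0 : 0 < α := hR.pos
  have hβ0 : 0 < β := by linarith
  have hcs : ∀ m, csC (gch (triC G w F) a) (pN m Q) ≤ 3 * |MvPolynomial.eval y (pN m Q)| := by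
    intro m
    refine csC_le _ _ (by positivity) fun u₁ hu₁ => ?_
    exact hNC m u₁ hu₁ u hu
  have hge : ∀ m, ∀ u₁ ∈ ucube d, |MvPolynomial.eval (cpt (gch (triC G w F) a) u₁) (pN m Q)| ≤
      csC (gch (triC G w F) a) (pN m Q) := fun m u₁ hu₁ => le_csC _ _ hu₁
  have hβcs : β ≤ csC (gch (triC G w F) a) (pN (k + 1) Q) := hge (k + 1) u hu
  have hcu : rco K j ∈ ucube d ∧ ∀ i, (j i : ℝ) / K ≤ rco K j i ∧
      rco K j i ≤ ((j i : ℝ) + 1) / K := by
    have hK0 : (0 : ℝ) < K := by
      have : (2 : ℝ) ≤ K := by exact_mod_cast hK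
      linarith
    refine ⟨fun i => ⟨?_, ?_⟩, fun i => ⟨le_rfl, ?_⟩⟩
    · unfold rco
      positivity
    · unfold rco
      rw [div_le_one hK0]
      exact_mod_cast (hj i).le
    · unfold rco
      exact div_le_div_of_nonneg_right (by linarith) hK0.le
  have hfin := hdbl C₀ κ M K Ng j G w F a (pN k Q) Z 3 ρ r hC₀ hκ hM hK hZ (by norm_num) hKN hj hT
    ha (pN_deg k D hQ) hL hρ hMρ
    (by
      rw [pN_pN, add_comm 1 k]
      linarith)
    (by
      rw [pN_pN, add_comm 1 k]
      calc csC (gch (triC G w F) a) (pN k Q) ≤ 3 * |MvPolynomial.eval y (pN k Q)| := hcs k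
        _ ≤ 3 * ((θ k + 2 * δ) * (H * α)) := mul_le_mul_of_nonneg_left t2 (by norm_num)
        _ ≤ 3 * ((θ k + 2 * δ) * (H * (2 * β))) := by
            refine mul_le_mul_of_nonneg_left (mul_le_mul_of_nonneg_left
              (mul_le_mul_of_nonneg_left t1 (by linarith)) (by positivity)) (by norm_num)
        _ = 6 * H * (θ k + 2 * δ) * β := by ring
        _ ≤ ρ * β := mul_le_mul_of_nonneg_right hρ1 hβ0.le
        _ ≤ _ := mul_le_mul_of_nonneg_left hβcs hρ.le)
    (by
      intro m
      rw [pN_pN, pN_pN, add_comm 1 k, show m + 1 + k = k + 1 + m by ring]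
      rcases Nat.eq_zero_or_pos m with rfl | hm
      · rw [pow_zero, mul_one, add_zero]
      · have h1 : csC (gch (triC G w F) a) (pN (k + 1 + m) Q) * θ (k + 1) ^ m ≤ 12 * H * β := by
          calc csC (gch (triC G w F) a) (pN (k + 1 + m) Q) * θ (k + 1) ^ m ≤
              3 * |MvPolynomial.eval y (pN (k + 1 + m) Q)| * θ (k + 1) ^ m :=
                mul_le_mul_of_nonneg_right (hcs _) (by positivity)
            _ = 3 * (|MvPolynomial.eval y (pN (k + 1 + m) Q)| * θ (k + 1) ^ m) := by ring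
            _ ≤ 3 * (2 * H * α) := mul_le_mul_of_nonneg_left (t3 m) (by norm_num)
            _ ≤ 3 * (2 * H * (2 * β)) := by
                refine mul_le_mul_of_nonneg_left (mul_le_mul_of_nonneg_left t1 (by positivity))
                  (by norm_num)
            _ = _ := by ring
        have h2 : ρ ^ m * (12 * H) ≤ θ (k + 1) ^ m := by
          obtain ⟨n, rfl⟩ : ∃ n, m = n + 1 := ⟨m - 1, by omega⟩
          have h3 : ρ ≤ θ (k + 1) := by nlinarith
          calc ρ ^ (n + 1) * (12 * H) = ρ ^ n * (12 * H * ρ) := by ring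
            _ ≤ θ (k + 1) ^ n * θ (k + 1) :=
                mul_le_mul (pow_le_pow_left₀ hρ.le h3 n) hρ2 (by positivity) (by positivity)
            _ = _ := by ring
        have h4 : 0 ≤ csC (gch (triC G w F) a) (pN (k + 1 + m) Q) := csC_nonneg _ _
        have h5 : csC (gch (triC G w F) a) (pN (k + 1 + m) Q) * ρ ^ m * (12 * H) ≤
            β * (12 * H) := by
          calc csC (gch (triC G w F) a) (pN (k + 1 + m) Q) * ρ ^ m * (12 * H) =
              csC (gch (triC G w F) a) (pN (k + 1 + m) Q) * (ρ ^ m * (12 * H)) := by ring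
            _ ≤ csC (gch (triC G w F) a) (pN (k + 1 + m) Q) * θ (k + 1) ^ m :=
                mul_le_mul_of_nonneg_left h2 h4
            _ ≤ 12 * H * β := h1
            _ = _ := by ring
        exact (le_of_mul_le_mul_right h5 (by positivity)).trans hβcs)
    (by
      intro k' _
      refine ⟨rco K j, hcu.2, ?_⟩
      rw [pN_pN]
      refine csC_le _ _ (by positivity) fun u₁ hu₁ => ?_
      exact hNC _ u₁ hu₁ _ hcu.1)
    hρr hr1 hsmall
  refine hfin.trans ?_
  have hr0 : 0 < r := lt_of_lt_of_le hρ hρr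
  refine mul_le_mul_of_nonneg_right ?_ hr0.le
  have hC0 : (1 : ℝ) ≤ C₀ ^ (2 * d) := one_le_pow₀ hC₀
  refine pow_le_pow_left₀ (by positivity) ?_ _
  have h1 : (C₁ * κ * C₀ ^ (2 * d)) ^ (D + 1) ≤ (9 * C₁ * κ * C₀ ^ (2 * d)) ^ (D + 1) := by
    refine pow_le_pow_left₀ (by positivity) ?_ _
    refine mul_le_mul_of_nonneg_right (mul_le_mul_of_nonneg_right (by linarith) (by linarith))
      (by positivity)
  calc C₁ * 3 ^ 2 * Z * (C₁ * κ * C₀ ^ (2 * d)) ^ (D + 1) =
      9 * C₁ * Z * (C₁ * κ * C₀ ^ (2 * d)) ^ (D + 1) := by ring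
    _ ≤ _ := mul_le_mul_of_nonneg_left h1 (by positivity)

end Pool.IEN
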