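import Pool.Agent.H86.EXT.Ext
import Pool.Agent.H86.EXT.Evn
import Pool.Agent.H86.EXT.Gdt

/-!
# Roots are explicit polynomials: event form

`ext_ev`: a point which almost satisfies one of the equations `R (c v) j` (with a nonzero derivative
in the last direction) lies on one of `K * K` explicit polynomial graphs of the cell, outside a set
of small probability.
-/

set_option autoImplicit false

namespace Pool.EXS

open Finset Real
open Pool.Agent.H49.Ent Pool.Agent.H32.Dense Pool.STK Pool.KAF Pool.KAL Pool.KS3 Pool.M3F Pool.KJA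
open Pool.IEN

/-- The point over `z` with last coordinate `N`. -/
def pt {k : ℕ} (z : Fin k → ℝ) (N : ℝ) : Option (Fin k) → ℝ := fun o => o.elim N z

lemma oel_lq {k : ℕ} (z : Fin k → ℝ) (R : MvPolynomial (Option (Fin k)) ℝ) :
    (MvPolynomial.optionEquivLeft ℝ (Fin k) R).map (MvPolynomial.eval z) = lq (pt z 0) pen R := by
  unfold lq
  induction R using MvPolynomial.induction_on with
  | C a =>
    rw [MvPolynomial.aeval_C, show (MvPolynomial.C a : MvPolynomial (Option (Fin k)) ℝ) =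
      algebraMap ℝ _ a from rfl, AlgEquiv.commutes]
    rw [Polynomial.algebraMap_apply, Polynomial.algebraMap_apply]
    simp
  | add p q hp hq => rw [map_add, map_add, Polynomial.map_add, hp, hq]
  | mul_X p o hp =>
    rw [map_mul, map_mul, Polynomial.map_mul, hp, MvPolynomial.aeval_X]
    congr 1
    cases o with
    | none => simp [pt, pen]
    | some i => simp [pt, pen]

lemma pt_pen {k : ℕ} (z : Fin k → ℝ) (N : ℝ) : (fun o => pt z 0 o + N * pen o) = pt z N := by
  funext o
  cases o with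
  | none => simp [pt, pen]
  | some i => simp [pt, pen]

/-- A root near an approximate root. -/
lemma near_root {k K : ℕ} {z : Fin k → ℝ} {N θ : ℝ} {R : MvPolynomial (Option (Fin k)) ℝ}
    (hK : R.totalDegree ≤ K) (hθ : 0 < θ)
    (h1 : 0 < |MvPolynomial.eval (pt z N) (MvPolynomial.pderiv none R)|)
    (h2 : 2 * K * |MvPolynomial.eval (pt z N) R| ≤
      θ * |MvPolynomial.eval (pt z N) (MvPolynomial.pderiv none R)|) :
    ∃ ν : ℂ, ‖(N : ℂ) - ν‖ ≤ θ ∧
      evn z ν (MvPolynomial.optionEquivLeft ℝ (Fin k) R) = 0 := by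
  set p := lq (pt z 0) pen R with hp
  have e1 : p.eval N = MvPolynomial.eval (pt z N) R := by
    rw [hp, eval_lq, pt_pen]
  have e2 : p.derivative.eval N = MvPolynomial.eval (pt z N) (MvPolynomial.pderiv none R) := by
    rw [hp, lq_der, eval_lq, pt_pen]
  rw [← e1, ← e2] at h2
  rw [← e2] at h1
  have hp0 : p ≠ 0 := by
    intro h
    rw [h] at h1
    simp at h1
  by_contra hcon
  push Not at hcon
  have h3 := log_deriv hp0 (deg_lq (pt z 0) pen hK) (x := N) (r := θ) hθ (by
    intro ζ hζ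
    by_contra hlt
    rw [Polynomial.mem_roots (by rwa [Ne, Polynomial.map_eq_zero]), Polynomial.IsRoot.def] at hζ
    refine hcon ζ (le_of_lt (not_le.mp hlt)) ?_
    unfold evn
    rw [Polynomial.coe_eval₂RingHom]
    rw [hp, ← oel_lq, Polynomial.map_map, Polynomial.eval_map] at hζ
    exact hζ)
  have h4 : (0 : ℝ) ≤ K := Nat.cast_nonneg K
  have h5 := h3.2
  have h6 : 0 < θ * |p.derivative.eval N| := mul_pos hθ h1
  nlinarith

/-- The last coordinate is rescaled. -/
noncomputable def rsc {k : ℕ} (S : ℝ) (R : MvPolynomial (Option (Fin k)) ℝ) :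
    MvPolynomial (Option (Fin k)) ℝ :=
  MvPolynomial.bind₁ (fun o : Option (Fin k) => o.elim
    (MvPolynomial.C S * MvPolynomial.X none) (fun i => MvPolynomial.X (some i))) R

lemma eval_rsc {k : ℕ} (S : ℝ) (R : MvPolynomial (Option (Fin k)) ℝ) (z : Fin k → ℝ) (N : ℝ) :
    MvPolynomial.eval (pt z N) (rsc S R) = MvPolynomial.eval (pt z (S * N)) R := by
  unfold rsc
  induction R using MvPolynomial.induction_on with
  | C a => simp
  | add p q hp hq => rw [map_add, map_add, map_add, hp, hq]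
  | mul_X p o hp =>
    rw [map_mul, map_mul, map_mul, hp, MvPolynomial.bind₁_X_right, MvPolynomial.eval_X]
    congr 1
    cases o with
    | none => simp [pt]
    | some i => simp [pt]

lemma rsc_deg {k K : ℕ} (S : ℝ) {R : MvPolynomial (Option (Fin k)) ℝ} (hR : R.totalDegree ≤ K) :
    (rsc S R).totalDegree ≤ K := by
  unfold rsc
  refine (SML.totalDegree_bind_le _ 1 (fun o => ?_) R).trans (by rw [one_mul]; exact hR)
  cases o with
  | none =>
    refine (MvPolynomial.totalDegree_mul _ _).trans ?_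
    simp only [MvPolynomial.totalDegree_C, MvPolynomial.totalDegree_X, zero_add, le_refl]
  | some i =>
    simp only [Option.elim_some, MvPolynomial.totalDegree_X, le_refl]

lemma pd_rsc {k : ℕ} (S : ℝ) (R : MvPolynomial (Option (Fin k)) ℝ) :
    MvPolynomial.pderiv none (rsc S R) = MvPolynomial.C S * rsc S (MvPolynomial.pderiv none R) := by
  unfold rsc
  induction R using MvPolynomial.induction_on with
  | C a => simp
  | add p q hp hq => rw [map_add, map_add, map_add, map_add, hp, hq, mul_add]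
  | mul_X p o hp =>
    rw [map_mul, MvPolynomial.bind₁_X_right, Derivation.leibniz, hp, Derivation.leibniz,
      map_add, smul_eq_mul, smul_eq_mul, smul_eq_mul, smul_eq_mul, map_mul, map_mul,
      MvPolynomial.bind₁_X_right]
    cases o with
    | none =>
      simp only [Option.elim_none, Derivation.leibniz, MvPolynomial.pderiv_X_self, smul_eq_mul,
        mul_one, MvPolynomial.pderiv_C, mul_zero, add_zero, map_one]
      ring
    | some i =>
      simp only [Option.elim_some]
      rw [MvPolynomial.pderiv_X_of_ne (by simp), mul_zero, map_zero]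
      ring

/-- **Roots are explicit, event form.** -/
theorem ext_ev (k K K₂ m : ℕ) : ∃ C : ℝ, 1 ≤ C ∧ ∀ (L : ℕ) (g S : ℝ), 1 ≤ L → 2 ≤ g → 0 < S →
    ∃ b : MvPolynomial (Option (Fin k)) ℝ → (Fin k → Fin L) → Fin (K * K) →
        MvPolynomial (Fin k) ℝ,
      (∀ R c i, (b R c i).totalDegree ≤ K₂) ∧
      ∀ (V Γ : Type) [Fintype V] (r : V → ℝ) (c : V → Γ) (Y : V → Fin k → Fin L)
        (R : Γ → Fin m → MvPolynomial (Option (Fin k)) ℝ) (z : V → Fin k → ℝ) (N : V → ℝ)
        (θ : V → Fin m → ℝ) (h : ℝ), IsLaw r → 0 < h → C * g * Real.exp h ≤ L →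
        (∀ v, 0 < r v → ∀ j, (R (c v) j).totalDegree ≤ K) →
        (∀ v, 0 < r v → ∀ i, |z v i - gp L (Y v) i| ≤ 1 / L) →
        (∀ v, 0 < r v → |N v| ≤ S) → (∀ v, 0 < r v → ∀ j, 0 < θ v j ∧ θ v j ≤ S) →
        ms r (fun v => ∃ j : Fin m,
          (0 < |MvPolynomial.eval (pt (z v) (N v)) (MvPolynomial.pderiv none (R (c v) j))| ∧
            2 * K * |MvPolynomial.eval (pt (z v) (N v)) (R (c v) j)| ≤
              θ v j * |MvPolynomial.eval (pt (z v) (N v)) (MvPolynomial.pderiv none (R (c v) j))|) ∧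
          ¬ ∃ i, |N v - MvPolynomial.eval (z v) (b (R (c v) j) (Y v) i)| ≤
            θ v j + C * S / g ^ (K₂ + 1)) ≤
          (k * Real.log L - CH r Y c + Real.log 2) / h := by
  classical
  obtain ⟨C₁, hC₁, hst⟩ := ext_stat k K K₂
  refine ⟨(m + 1) * C₁, ?_, ?_⟩
  · have : (0 : ℝ) ≤ m := Nat.cast_nonneg m
    nlinarith
  intro L g S hL hg hS
  have hL0 : (0 : ℝ) < L := by exact_mod_cast hL
  have hg0 : (0 : ℝ) < g := by linarith
  have hex : ∀ R : MvPolynomial (Option (Fin k)) ℝ, ∃ B : Finset (Fin k → Fin L),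
      ∃ b : (Fin k → Fin L) → Fin (K * K) → MvPolynomial (Fin k) ℝ,
      (∀ c i, (b c i).totalDegree ≤ K₂) ∧ ((B.card : ℝ) * L ≤ C₁ * g * (L : ℝ) ^ k) ∧
      (R ≠ 0 → R.totalDegree ≤ K → ∀ c, c ∉ B →
        ∀ z : Fin k → ℝ, (∀ i, |z i - gp L c i| ≤ 1 / L) → ∀ (N : ℝ) (ν : ℂ), |N| ≤ 1 →
          ‖(N : ℂ) - ν‖ ≤ 1 → evn z ν (MvPolynomial.optionEquivLeft ℝ (Fin k) R) = 0 →
          ∃ i, |N - MvPolynomial.eval z (b c i)| ≤ ‖(N : ℂ) - ν‖ + C₁ / g ^ (K₂ + 1)) := by
    intro R
    by_cases hR : R ≠ 0 ∧ R.totalDegree ≤ K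
    · obtain ⟨B, hB1, hB2⟩ := hst R hR.1 hR.2 L g hL hg
      have hch : ∀ c : Fin k → Fin L, ∃ b : Fin (K * K) → MvPolynomial (Fin k) ℝ,
          (∀ i, (b i).totalDegree ≤ K₂) ∧ (c ∉ B →
          ∀ z : Fin k → ℝ, (∀ i, |z i - gp L c i| ≤ 1 / L) → ∀ (N : ℝ) (ν : ℂ), |N| ≤ 1 →
            ‖(N : ℂ) - ν‖ ≤ 1 → evn z ν (MvPolynomial.optionEquivLeft ℝ (Fin k) R) = 0 →
            ∃ i, |N - MvPolynomial.eval z (b i)| ≤ ‖(N : ℂ) - ν‖ + C₁ / g ^ (K₂ + 1)) := by
        intro c
        by_cases hc : c ∈ B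
        · exact ⟨fun _ => 0, fun _ => by simp, fun h => absurd hc h⟩
        · obtain ⟨b, hb1, hb2⟩ := hB2 c hc
          exact ⟨b, hb1, fun _ => hb2⟩
      choose b hb1 hb2 using hch
      exact ⟨B, b, hb1, hB1, fun _ _ c hc => hb2 c hc⟩
    · refine ⟨∅, fun _ _ => 0, fun _ _ => by simp, by simp; positivity, ?_⟩
      intro h1 h2
      exact absurd ⟨h1, h2⟩ hR
  choose B b hb1 hb2 hb3 using hex
  refine ⟨fun R c i => MvPolynomial.C S * b (rsc S R) c i, ?_, ?_⟩
  · intro R c i
    refine (MvPolynomial.totalDegree_mul _ _).trans ?_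
    rw [MvPolynomial.totalDegree_C, zero_add]
    exact hb1 _ _ _
  intro V Γ _ r c Y R z N θ h hr hh hCL hdeg hzc hNS hθS
  set B' : Γ → Finset (Fin k → Fin L) := fun γ => Finset.univ.biUnion
    (fun j => B (rsc S (R γ j))) with hB'
  have h1 := bad_ev hr c Y B' hh (by
    intro v hv
    have h2 : ((B' (c v)).card : ℝ) ≤ ∑ j : Fin m, ((B (rsc S (R (c v) j))).card : ℝ) := by
      exact_mod_cast Finset.card_biUnion_le (s := Finset.univ)
        (t := fun j => B (rsc S (R (c v) j)))
    have h3 : (∑ j : Fin m, ((B (rsc S (R (c v) j))).card : ℝ)) * L ≤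
        m * (C₁ * g * (L : ℝ) ^ k) := by
      rw [Finset.sum_mul]
      refine (Finset.sum_le_sum fun j _ => hb2 (rsc S (R (c v) j))).trans (le_of_eq ?_)
      rw [Finset.sum_const, Finset.card_univ, Fintype.card_fin, nsmul_eq_mul]
    have h4 : ((B' (c v)).card : ℝ) * L ≤ m * (C₁ * g * (L : ℝ) ^ k) :=
      (mul_le_mul_of_nonneg_right h2 hL0.le).trans h3
    have h5 : m * (C₁ * g * (L : ℝ) ^ k) ≤ Real.exp (-h) * (L : ℝ) ^ k * L := by
      have h6 : (m : ℝ) * C₁ * g ≤ Real.exp (-h) * L := by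
        have h7 : (m : ℝ) * C₁ * g * Real.exp h ≤ L := by
          refine le_trans ?_ hCL
          have : 0 ≤ C₁ * g * Real.exp h := by positivity
          nlinarith
        have h8 := mul_le_mul_of_nonneg_left h7 (Real.exp_pos (-h)).le
        calc (m : ℝ) * C₁ * g = Real.exp (-h) * (m * C₁ * g * Real.exp h) := by
              rw [Real.exp_neg]
              field_simp
          _ ≤ _ := h8
      have h9 : (0 : ℝ) ≤ (L : ℝ) ^ k := by positivity
      calc m * (C₁ * g * (L : ℝ) ^ k) = (m * C₁ * g) * (L : ℝ) ^ k := by ring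
        _ ≤ (Real.exp (-h) * L) * (L : ℝ) ^ k := mul_le_mul_of_nonneg_right h6 h9
        _ = _ := by ring
    have h6 := le_of_mul_le_mul_right (h4.trans h5) hL0
    rw [Fintype.card_fun, Fintype.card_fin, Fintype.card_fin]
    push_cast
    exact h6)
  rw [Fintype.card_fun, Fintype.card_fin, Fintype.card_fin] at h1
  push_cast at h1
  rw [Real.log_pow] at h1
  refine le_trans (ms_le hr.nonneg ?_) h1
  rintro v hv ⟨j, ⟨c1, c2⟩, c3⟩
  by_contra hcon
  apply c3
  have n1 := hNS v hv
  obtain ⟨n2, n3⟩ := hθS v hv j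
  have hYB : Y v ∉ B (rsc S (R (c v) j)) := by
    intro h2
    exact hcon (Finset.mem_biUnion.mpr ⟨j, Finset.mem_univ _, h2⟩)
  have hd := rsc_deg S (hdeg v hv j)
  -- the equation after the rescaling
  have hSN : S * (N v / S) = N v := by
    field_simp
  have e1 : MvPolynomial.eval (pt (z v) (N v / S)) (rsc S (R (c v) j)) =
      MvPolynomial.eval (pt (z v) (N v)) (R (c v) j) := by
    rw [eval_rsc, hSN]
  have e2 : MvPolynomial.eval (pt (z v) (N v / S))
      (MvPolynomial.pderiv none (rsc S (R (c v) j))) =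
      S * MvPolynomial.eval (pt (z v) (N v)) (MvPolynomial.pderiv none (R (c v) j)) := by
    rw [pd_rsc, map_mul, MvPolynomial.eval_C, eval_rsc, hSN]
  obtain ⟨ν, hν1, hν2⟩ := near_root (z := z v) (N := N v / S) (θ := θ v j / S) hd
    (by positivity) (by
      rw [e2, abs_mul, abs_of_pos hS]
      positivity) (by
      rw [e1, e2, abs_mul, abs_of_pos hS]
      calc 2 * (K : ℝ) * |MvPolynomial.eval (pt (z v) (N v)) (R (c v) j)| ≤
          θ v j * |MvPolynomial.eval (pt (z v) (N v)) (MvPolynomial.pderiv none (R (c v) j))| := c2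
        _ = θ v j / S * (S *
            |MvPolynomial.eval (pt (z v) (N v)) (MvPolynomial.pderiv none (R (c v) j))|) := by
            field_simp)
  have hne : rsc S (R (c v) j) ≠ 0 := by
    intro h0
    rw [h0, map_zero, map_zero] at e2
    have : MvPolynomial.eval (pt (z v) (N v)) (MvPolynomial.pderiv none (R (c v) j)) = 0 := by
      rcases mul_eq_zero.mp e2.symm with h | h
      · exact absurd h hS.ne'
      · exact h
    rw [this, abs_zero] at c1
    exact lt_irrefl _ c1
  obtain ⟨i, hi⟩ := hb3 _ hne hd (Y v) hYB (z v) (hzc v hv) (N v / S) ν (by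
      rw [abs_div, abs_of_pos hS, div_le_one hS]
      exact n1) (by
      refine hν1.trans ?_
      rw [div_le_one hS]
      exact n3) hν2
  refine ⟨i, ?_⟩
  have h7 : |N v / S - MvPolynomial.eval (z v) (b (rsc S (R (c v) j)) (Y v) i)| ≤
      θ v j / S + C₁ / g ^ (K₂ + 1) := hi.trans (add_le_add hν1 le_rfl)
  rw [map_mul, MvPolynomial.eval_C]
  have h8 : N v - S * MvPolynomial.eval (z v) (b (rsc S (R (c v) j)) (Y v) i) =
      S * (N v / S - MvPolynomial.eval (z v) (b (rsc S (R (c v) j)) (Y v) i)) := by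
    field_simp
  rw [h8, abs_mul, abs_of_pos hS]
  calc S * |N v / S - MvPolynomial.eval (z v) (b (rsc S (R (c v) j)) (Y v) i)| ≤
      S * (θ v j / S + C₁ / g ^ (K₂ + 1)) := mul_le_mul_of_nonneg_left h7 hS.le
    _ = θ v j + C₁ * S / g ^ (K₂ + 1) := by
        field_simp
    _ ≤ θ v j + (m + 1) * C₁ * S / g ^ (K₂ + 1) := by
        refine add_le_add le_rfl (div_le_div_of_nonneg_right ?_ (by positivity))
        refine mul_le_mul_of_nonneg_right ?_ hS.le
        have : (0 : ℝ) ≤ m := Nat.cast_nonneg m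
        nlinarith

end Pool.EXS
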