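import Pool.Agent.H86.EXT.Cel
import Pool.Agent.H81.JM.RayR

/-!
# Roots of a polynomial equation are explicit polynomials on most cells

`ext_stat`: for a nonzero polynomial `R (z, N)` of degree at most `K`, and for all cells of side
`1 / L` of the unit cube but a proportion `C g / L`, all the (complex) roots of `R (z, ·)` near
the real interval `[-1, 1]` are, up to `C / g ^ (K₂ + 1)`, values of at most `K * K` polynomials
of degree at most `K₂`.
-/

set_option autoImplicit false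

namespace Pool.EXS

open Finset

lemma enumF {α : Type*} [DecidableEq α] (s : Finset α) (d : α) {n : ℕ} (h : s.card ≤ n) :
    ∃ b : Fin n → α, (∀ i, b i ∈ s ∨ b i = d) ∧ ∀ x ∈ s, ∃ i, b i = x := by
  classical
  refine ⟨fun i => if hi : (i : ℕ) < s.card then s.equivFin.symm ⟨i, hi⟩ else d, ?_, ?_⟩
  · intro i
    by_cases hi : (i : ℕ) < s.card
    · left
      simp only [hi, dif_pos]
      exact (s.equivFin.symm ⟨i, hi⟩).2
    · right
      simp only [hi, dif_neg, not_false_iff]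
  · intro x hx
    refine ⟨⟨s.equivFin ⟨x, hx⟩, lt_of_lt_of_le (s.equivFin ⟨x, hx⟩).2 h⟩, ?_⟩
    simp only [(s.equivFin ⟨x, hx⟩).2, dif_pos]
    simp

lemma evn_eq {k : ℕ} (z : Fin k → ℝ) (ν : ℂ) (P : PN k) : evn z ν P =
    ((PC P).map (MvPolynomial.eval fun l => ((z l : ℝ) : ℂ))).eval ν := by
  unfold evn PC
  rw [Polynomial.coe_eval₂RingHom, Polynomial.map_map, Polynomial.eval_map]
  congr 1
  refine MvPolynomial.ringHom_ext ?_ ?_
  · intro r
    simp
  · intro i
    simp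

/-- **Roots are explicit on most cells.** -/
theorem ext_stat (k K K₂ : ℕ) : ∃ C : ℝ, 1 ≤ C ∧
    ∀ R : MvPolynomial (Option (Fin k)) ℝ, R ≠ 0 → R.totalDegree ≤ K →
      ∀ (L : ℕ) (g : ℝ), 1 ≤ L → 2 ≤ g →
      ∃ B : Finset (Fin k → Fin L), (B.card : ℝ) * L ≤ C * g * (L : ℝ) ^ k ∧
        ∀ c, c ∉ B → ∃ b : Fin (K * K) → MvPolynomial (Fin k) ℝ,
          (∀ i, (b i).totalDegree ≤ K₂) ∧
          ∀ z : Fin k → ℝ, (∀ i, |z i - gp L c i| ≤ 1 / L) → ∀ (N : ℝ) (ν : ℂ), |N| ≤ 1 →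
            ‖(N : ℂ) - ν‖ ≤ 1 → evn z ν (MvPolynomial.optionEquivLeft ℝ (Fin k) R) = 0 →
            ∃ i, |N - MvPolynomial.eval z (b i)| ≤ ‖(N : ℂ) - ν‖ + C / g ^ (K₂ + 1) := by
  classical
  obtain ⟨C₁, hC₁, hgc⟩ := good_cell k K
  refine ⟨((K : ℝ) + 1) * C₁ + 2 * 4 ^ (K + 1), ?_, ?_⟩
  · have h1 : (0 : ℝ) ≤ K := Nat.cast_nonneg K
    have h2 : (0 : ℝ) ≤ 2 * 4 ^ (K + 1) := by positivity
    nlinarith
  intro R hR hK L g hL hg
  have hL0 : (0 : ℝ) < L := by exact_mod_cast hL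
  have hg0 : 0 < g := by linarith
  obtain ⟨s, hs, hsP, hroot⟩ := facs R hR hK
  have hex : ∀ P : PN k, ∃ B : Finset (Fin k → Fin L), P ∈ s →
      (B.card : ℝ) * L ≤ C₁ * g * (L : ℝ) ^ k ∧
        ∀ c, c ∉ B → (P.natDegree = 0 ∧ ∀ w : Fin k → ℂ,
            (∀ i, ‖w i - ((gp L c i : ℝ) : ℂ)‖ ≤ g / L) → ∀ N : ℂ,
            ((PC P).map (MvPolynomial.eval w)).eval N ≠ 0) ∨
          (P.natDegree ≠ 0 ∧ ∃ (U V : Polynomial (MvPolynomial (Fin k) ℂ))
            (d : MvPolynomial (Fin k) ℂ) (r : ℝ),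
            U * PC P + V * Polynomial.derivative (PC P) = Polynomial.C d ∧ 4 ≤ r ∧
              r ≤ 4 ^ (K + 1) ∧ ∀ w : Fin k → ℂ,
              (∀ i, ‖w i - ((gp L c i : ℝ) : ℂ)‖ ≤ g / L) →
                MvPolynomial.eval w d ≠ 0 ∧ MvPolynomial.eval w (PC P).leadingCoeff ≠ 0 ∧
                ∀ N : ℂ, ‖N‖ = r → ((PC P).map (MvPolynomial.eval w)).eval N ≠ 0) := by
    intro P
    by_cases hP : P ∈ s
    · obtain ⟨B, h1, h2⟩ := hgc P (hsP P hP).1 (hsP P hP).2 L g hL (by linarith)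
      exact ⟨B, fun _ => ⟨h1, h2⟩⟩
    · exact ⟨∅, fun h => absurd h hP⟩
  choose B hB using hex
  refine ⟨s.toFinset.biUnion B, ?_, ?_⟩
  · have h1 : (((s.toFinset.biUnion B).card : ℕ) : ℝ) ≤ ∑ P ∈ s.toFinset, ((B P).card : ℝ) := by
      exact_mod_cast Finset.card_biUnion_le (s := s.toFinset) (t := B)
    have h2 : (∑ P ∈ s.toFinset, ((B P).card : ℝ)) * L ≤ K * (C₁ * g * (L : ℝ) ^ k) := by
      rw [Finset.sum_mul]
      refine (Finset.sum_le_sum fun P hP => (hB P (Multiset.mem_toFinset.mp hP)).1).trans ?_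
      rw [Finset.sum_const, nsmul_eq_mul]
      refine mul_le_mul_of_nonneg_right ?_ (by positivity)
      exact_mod_cast (Multiset.toFinset_card_le s).trans hs
    calc _ ≤ (∑ P ∈ s.toFinset, ((B P).card : ℝ)) * L := mul_le_mul_of_nonneg_right h1 hL0.le
      _ ≤ K * (C₁ * g * (L : ℝ) ^ k) := h2
      _ ≤ (((K : ℝ) + 1) * C₁ + 2 * 4 ^ (K + 1)) * g * (L : ℝ) ^ k := by
          have h3 : (0 : ℝ) ≤ (C₁ + 2 * 4 ^ (K + 1)) * g * (L : ℝ) ^ k := by positivity
          nlinarith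
  · intro c hc
    have hcB : ∀ P ∈ s, c ∉ B P := fun P hP h =>
      hc (Finset.mem_biUnion.mpr ⟨P, Multiset.mem_toFinset.mpr hP, h⟩)
    -- the polynomials of a factor
    have hex2 : ∀ P : PN k, ∃ T : Finset (MvPolynomial (Fin k) ℝ), P ∈ s →
        T.card ≤ K ∧ (∀ b ∈ T, b.totalDegree ≤ K₂) ∧
        ∀ z : Fin k → ℝ, (∀ i, |z i - gp L c i| ≤ 1 / L) → ∀ (N : ℝ) (ν : ℂ), |N| ≤ 1 →
          ‖(N : ℂ) - ν‖ ≤ 1 → evn z ν P = 0 →
            ∃ b ∈ T, |N - MvPolynomial.eval z b| ≤ ‖(N : ℂ) - ν‖ +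
              (((K : ℝ) + 1) * C₁ + 2 * 4 ^ (K + 1)) / g ^ (K₂ + 1) := by
      intro P
      by_cases hP : P ∈ s
      · rcases (hB P hP).2 c (hcB P hP) with ⟨h0, h1⟩ | ⟨h0, U, V, d, r, h1, h2, h3, h4⟩
        · refine ⟨∅, fun _ => ⟨Nat.zero_le _, by simp, ?_⟩⟩
          intro z hz N ν _ _ hν
          exfalso
          refine h1 (fun l => ((z l : ℝ) : ℂ)) (fun i => ?_) ν ?_
          · rw [← Complex.ofReal_sub, Complex.norm_real, Real.norm_eq_abs]
            exact (hz i).trans (div_le_div_of_nonneg_right (by linarith) hL0.le)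
          · rw [← evn_eq]
            exact hν
        · obtain ⟨b, hb1, hb2⟩ := Pool.RAY.root_ray_real h1 (gp L c) (a := g / L) (r := r)
            (by positivity) (fun w hw => h4 w (fun i => (hw i).le)) K₂
          refine ⟨Finset.univ.image b, fun _ => ⟨?_, ?_, ?_⟩⟩
          · refine Finset.card_image_le.trans ?_
            rw [Finset.card_univ, Fintype.card_fin, natDegree_PC]
            exact (hsP P hP).2.1
          · intro q hq
            obtain ⟨i, _, rfl⟩ := Finset.mem_image.mp hq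
            exact hb1 i
          · intro z hz N ν hN hNν hν
            have h5 : (1 : ℝ) / L ≤ g / L / 2 := by
              rw [div_div, div_le_div_iff₀ hL0 (by positivity)]
              nlinarith
            have h6 : ‖ν‖ < r := by
              have h7 : ‖ν‖ ≤ ‖(N : ℂ)‖ + ‖(N : ℂ) - ν‖ := by
                have := norm_sub_le (N : ℂ) ((N : ℂ) - ν)
                have e : (N : ℂ) - ((N : ℂ) - ν) = ν := by ring
                rw [e] at this
                exact this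
              rw [Complex.norm_real, Real.norm_eq_abs] at h7
              linarith
            obtain ⟨i, hi⟩ := hb2 (1 / L) (by positivity) h5 z hz N ν (by
              rw [← evn_eq]
              exact hν) h6
            refine ⟨b i, Finset.mem_image.mpr ⟨i, Finset.mem_univ _, rfl⟩, hi.trans ?_⟩
            have h8 : (1 : ℝ) / L / (g / L) = 1 / g := by
              field_simp
            rw [h8, one_div, inv_pow, ← div_eq_mul_inv]
            have h9 : 2 * r / g ^ (K₂ + 1) ≤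
                (((K : ℝ) + 1) * C₁ + 2 * 4 ^ (K + 1)) / g ^ (K₂ + 1) := by
              refine div_le_div_of_nonneg_right ?_ (by positivity)
              have : 0 ≤ ((K : ℝ) + 1) * C₁ := by positivity
              linarith
            linarith
      · exact ⟨∅, fun h => absurd h hP⟩
    choose T hT using hex2
    have hcard : (s.toFinset.biUnion T).card ≤ K * K := by
      refine Finset.card_biUnion_le.trans ?_
      refine (Finset.sum_le_sum fun P hP => (hT P (Multiset.mem_toFinset.mp hP)).1).trans ?_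
      rw [Finset.sum_const, smul_eq_mul]
      exact Nat.mul_le_mul_right _ ((Multiset.toFinset_card_le s).trans hs)
    obtain ⟨b, hb1, hb2⟩ := enumF (s.toFinset.biUnion T) 0 hcard
    refine ⟨b, ?_, ?_⟩
    · intro i
      rcases hb1 i with h | h
      · obtain ⟨P, hP, hbP⟩ := Finset.mem_biUnion.mp h
        exact (hT P (Multiset.mem_toFinset.mp hP)).2.1 _ hbP
      · rw [h]
        simp
    · intro z hz N ν hN hNν hν
      obtain ⟨P, hP, hPν⟩ := hroot z ν hν
      obtain ⟨q, hq, hq2⟩ := (hT P hP).2.2 z hz N ν hN hNν hPν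
      obtain ⟨i, hi⟩ := hb2 q (Finset.mem_biUnion.mpr ⟨P, Multiset.mem_toFinset.mpr hP, hq⟩)
      exact ⟨i, by rw [hi]; exact hq2⟩

end Pool.EXS
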