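import Pool.Agent.H86.EXT.Ncn

/-!
# Irreducible factors, resultants
-/

set_option autoImplicit false

namespace Pool.EXS

open Finset

/-- Polynomials in the last coordinate. -/
abbrev PN (k : ℕ) := Polynomial (MvPolynomial (Fin k) ℝ)

/-- Degree bounds. -/
def DB {k : ℕ} (K : ℕ) (P : PN k) : Prop := P.natDegree ≤ K ∧ ∀ j, (P.coeff j).totalDegree ≤ K

lemma det_deg {n : ℕ} {σ : Type*} (A : Matrix (Fin n) (Fin n) (MvPolynomial σ ℝ)) {K : ℕ}
    (h : ∀ i j, (A i j).totalDegree ≤ K) : A.det.totalDegree ≤ n * K := by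
  classical
  rw [Matrix.det_apply]
  refine MvPolynomial.totalDegree_finsetSum_le fun s _ => ?_
  refine (MvPolynomial.totalDegree_smul_le _ _).trans ?_
  refine (MvPolynomial.totalDegree_finset_prod _ _).trans ?_
  refine (Finset.sum_le_sum fun i _ => h (s i) i).trans (le_of_eq ?_)
  rw [Finset.sum_const, Finset.card_univ, Fintype.card_fin, smul_eq_mul]

lemma sep_fac {k : ℕ} {P : PN k} (hP : Irreducible P) (h0 : P.natDegree ≠ 0) :
    P.resultant (Polynomial.derivative P) ≠ 0 := by
  classical
  have h1 := hP.isPrimitive h0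
  have h2 := (h1.irreducible_iff_irreducible_map_fraction_map
    (K := FractionRing (MvPolynomial (Fin k) ℝ))).mp hP
  haveI : CharZero (FractionRing (MvPolynomial (Fin k) ℝ)) :=
    charZero_of_injective_algebraMap (IsFractionRing.injective (MvPolynomial (Fin k) ℝ)
      (FractionRing (MvPolynomial (Fin k) ℝ)))
  have h3 := h2.separable
  have h4 := Polynomial.resultant_ne_zero _ _ h3
  rw [Polynomial.derivative_map] at h4
  have hinj := IsFractionRing.injective (MvPolynomial (Fin k) ℝ)
    (FractionRing (MvPolynomial (Fin k) ℝ))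
  rw [Polynomial.natDegree_map_eq_of_injective hinj, Polynomial.natDegree_map_eq_of_injective hinj,
    Polynomial.resultant_map_map] at h4
  intro h5
  rw [h5, map_zero] at h4
  exact h4 rfl

lemma res_fac {k K : ℕ} {P : PN k} (hP : Irreducible P) (h0 : P.natDegree ≠ 0) (hK : DB K P) :
    ∃ (d : MvPolynomial (Fin k) ℝ) (U V : PN k), d ≠ 0 ∧ d.totalDegree ≤ 2 * K * K ∧
      U * P + V * Polynomial.derivative P = Polynomial.C d := by
  classical
  obtain ⟨U, V, _, _, h1⟩ := Polynomial.exists_mul_add_mul_eq_C_resultant P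
    (Polynomial.derivative P) (m := P.natDegree) (n := (Polynomial.derivative P).natDegree)
    le_rfl le_rfl (Or.inl h0)
  refine ⟨_, U, V, sep_fac hP h0, ?_, ?_⟩
  · unfold Polynomial.resultant
    refine (det_deg (K := K) _ ?_).trans ?_
    · intro i j
      unfold Polynomial.sylvester
      rw [Matrix.of_apply]
      refine Fin.addCases (fun j₁ => ?_) (fun j₁ => ?_) j
      · rw [Fin.addCases_left]
        split_ifs
        · rw [Polynomial.coeff_derivative]
          refine (MvPolynomial.totalDegree_mul _ _).trans ?_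
          have h2 := hK.2 ((i : ℕ) - j₁ + 1)
          have h3 : (((((i : ℕ) - (j₁ : ℕ) : ℕ) : MvPolynomial (Fin k) ℝ) + 1)).totalDegree = 0 := by
            have : ((((i : ℕ) - (j₁ : ℕ) : ℕ) : MvPolynomial (Fin k) ℝ) + 1) =
                MvPolynomial.C ((((i : ℕ) - (j₁ : ℕ) : ℕ) : ℝ) + 1) := by
              simp
            rw [this]
            exact MvPolynomial.totalDegree_C _
          omega
        · simp
      · rw [Fin.addCases_right]
        split_ifs
        · exact hK.2 _
        · simp
    · have h2 : (Polynomial.derivative P).natDegree ≤ K :=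
        (Polynomial.natDegree_derivative_le P).trans ((Nat.sub_le _ _).trans hK.1)
      have h3 := hK.1
      calc _ ≤ (K + K) * K := Nat.mul_le_mul_right _ (add_le_add h3 h2)
        _ = _ := by ring
  · rw [← h1]
    ring

/-- Evaluation at a real point of the base and a complex value of the last coordinate. -/
noncomputable def evn {k : ℕ} (z : Fin k → ℝ) (ν : ℂ) : PN k →+* ℂ :=
  Polynomial.eval₂RingHom ((algebraMap ℝ ℂ).comp (MvPolynomial.eval z)) ν

/-- **Factors.** -/
theorem facs {k K : ℕ} (R : MvPolynomial (Option (Fin k)) ℝ) (hR : R ≠ 0)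
    (hK : R.totalDegree ≤ K) : ∃ (s : Multiset (PN k)), Multiset.card s ≤ K ∧
      (∀ P ∈ s, Irreducible P ∧ DB K P) ∧
      ∀ (z : Fin k → ℝ) (ν : ℂ), evn z ν (MvPolynomial.optionEquivLeft ℝ (Fin k) R) = 0 →
        ∃ P ∈ s, evn z ν P = 0 := by
  classical
  obtain ⟨f, hf, hfR⟩ := WfDvdMonoid.exists_factors R hR
  have hne : ∀ P ∈ f, P ≠ 0 := fun P hP => (hf P hP).ne_zero
  have hprod : f.prod ≠ 0 := by
    intro h0
    rw [h0] at hfR
    exact hR ((associated_zero_iff_eq_zero R).mp hfR.symm)
  obtain ⟨u, hu⟩ := hfR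
  have hudeg : (u : MvPolynomial (Option (Fin k)) ℝ).totalDegree = 0 := by
    have h1 : (u : MvPolynomial (Option (Fin k)) ℝ) * ((u⁻¹ : _) :
        MvPolynomial (Option (Fin k)) ℝ) = 1 := u.mul_inv
    have h2 := MvPolynomial.totalDegree_mul_of_isDomain (f := (u : MvPolynomial (Option (Fin k)) ℝ))
      (g := ((u⁻¹ : (MvPolynomial (Option (Fin k)) ℝ)ˣ) : MvPolynomial (Option (Fin k)) ℝ))
      (Units.ne_zero _) (Units.ne_zero _)
    rw [h1, MvPolynomial.totalDegree_one] at h2
    omega
  have hsum : (f.map MvPolynomial.totalDegree).sum = f.prod.totalDegree := by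
    clear hu hprod hudeg
    induction f using Multiset.induction_on with
    | empty => simp
    | cons a f ih =>
      rw [Multiset.map_cons, Multiset.sum_cons, Multiset.prod_cons]
      have h3 : f.prod ≠ 0 := by
        intro h0
        rw [Multiset.prod_eq_zero_iff] at h0
        exact hne 0 (Multiset.mem_cons_of_mem h0) rfl
      rw [MvPolynomial.totalDegree_mul_of_isDomain (hne a (Multiset.mem_cons_self a f)) h3,
        ih (fun P hP => hf P (Multiset.mem_cons_of_mem hP))
          (fun P hP => hne P (Multiset.mem_cons_of_mem hP))]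
  have hfdeg : (f.map MvPolynomial.totalDegree).sum ≤ K := by
    rw [hsum]
    have h3 := MvPolynomial.totalDegree_mul_of_isDomain hprod (Units.ne_zero u)
    rw [hu, hudeg] at h3
    omega
  have hpos : ∀ P ∈ f, 1 ≤ P.totalDegree := by
    intro P hP
    by_contra hcon
    have h0 : P.totalDegree = 0 := by omega
    rw [MvPolynomial.totalDegree_eq_zero_iff_eq_C] at h0
    have h1 : MvPolynomial.coeff 0 P ≠ 0 := by
      intro h2
      rw [h2, map_zero] at h0
      exact hne P hP h0
    apply (hf P hP).not_isUnit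
    rw [h0]
    exact (isUnit_iff_ne_zero.mpr h1).map MvPolynomial.C
  have hle : ∀ P ∈ f, P.totalDegree ≤ K := by
    intro P hP
    refine le_trans ?_ hfdeg
    exact Multiset.single_le_sum (fun _ _ => Nat.zero_le _) _ (Multiset.mem_map_of_mem _ hP)
  refine ⟨f.map (MvPolynomial.optionEquivLeft ℝ (Fin k)), ?_, ?_, ?_⟩
  · rw [Multiset.card_map]
    have h1 : Multiset.card (f.map MvPolynomial.totalDegree) • 1 ≤
        (f.map MvPolynomial.totalDegree).sum := by
      refine Multiset.card_nsmul_le_sum ?_
      intro x hx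
      obtain ⟨P, hP, rfl⟩ := Multiset.mem_map.mp hx
      exact hpos P hP
    rw [Multiset.card_map, smul_eq_mul, mul_one] at h1
    exact h1.trans hfdeg
  · intro P hP
    obtain ⟨Q, hQ, rfl⟩ := Multiset.mem_map.mp hP
    have hnd : ((MvPolynomial.optionEquivLeft ℝ (Fin k)) Q).natDegree ≤ Q.totalDegree := by
      rw [MvPolynomial.natDegree_optionEquivLeft]
      exact MvPolynomial.degreeOf_le_totalDegree _ _
    refine ⟨?_, hnd.trans (hle Q hQ), ?_⟩
    · exact (MulEquiv.irreducible_iff (MvPolynomial.optionEquivLeft ℝ (Fin k))).mpr (hf Q hQ)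
    · intro j
      rcases le_or_gt j Q.totalDegree with hj | hj
      · have := MvPolynomial.totalDegree_coeff_optionEquivLeft_add_le ℝ (Fin k) Q j hj
        have h2 := hle Q hQ
        omega
      · rw [Polynomial.coeff_eq_zero_of_natDegree_lt (lt_of_le_of_lt hnd hj)]
        simp
  · intro z ν h0
    have h1 : ((evn z ν).comp ((MvPolynomial.optionEquivLeft ℝ (Fin k)) :
        MvPolynomial (Option (Fin k)) ℝ →+* PN k)) (f.prod * u) = 0 := by
      rw [hu]
      exact h0
    rw [map_mul] at h1
    have hu1 : ((evn z ν).comp ((MvPolynomial.optionEquivLeft ℝ (Fin k)) :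
        MvPolynomial (Option (Fin k)) ℝ →+* PN k)) (u : MvPolynomial (Option (Fin k)) ℝ) ≠ 0 :=
      (u.isUnit.map _).ne_zero
    have h2 := (mul_eq_zero.mp h1).resolve_right hu1
    rw [map_multiset_prod, Multiset.prod_eq_zero_iff, Multiset.mem_map] at h2
    obtain ⟨P, hP, hP0⟩ := h2
    exact ⟨_, Multiset.mem_map_of_mem _ hP, hP0⟩

end Pool.EXS
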