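import Pool.Agent.H86.EXT.Lon

/-!
# The geometry at a point: values at the rounded point, gradients, doubling
-/

set_option autoImplicit false

namespace Pool.EXS

open Finset Real
open Pool.Agent.H49.Ent Pool.Agent.H32.Dense Pool.STK Pool.KAF Pool.KAL Pool.KST Pool.KS3 Pool.M3F
open Pool.KJA Pool.IEN

variable {d : ℕ}

/-- Mean value inequality on the unit cube. -/
lemma mv_ucube (P : MvPolynomial (Fin d) ℝ) (b : Fin d → ℝ)
    (h : ∀ u ∈ ucube d, ∀ i, |MvPolynomial.eval u (MvPolynomial.pderiv i P)| ≤ b i)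
    {u u' : Fin d → ℝ} (hu : u ∈ ucube d) (hu' : u' ∈ ucube d) :
    |MvPolynomial.eval u' P - MvPolynomial.eval u P| ≤ ∑ i, b i * |u' i - u i| := by
  set f : Fin d → Polynomial ℝ := fun i =>
    Polynomial.C (u i) + Polynomial.X * Polynomial.C (u' i - u i) with hf
  set g : Polynomial ℝ := MvPolynomial.aeval f P with hg
  have hev : ∀ (P : MvPolynomial (Fin d) ℝ) (t : ℝ),
      (MvPolynomial.aeval f P : Polynomial ℝ).eval t =
        MvPolynomial.eval (fun i => u i + t * (u' i - u i)) P := by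
    intro P t
    induction P using MvPolynomial.induction_on with
    | C a => simp
    | add p q hp hq => simp only [map_add, Polynomial.eval_add, hp, hq]
    | mul_X p k hp =>
      rw [map_mul, map_mul, Polynomial.eval_mul, hp]
      simp [hf]
  have hmem : ∀ t ∈ Set.Icc (0 : ℝ) 1, (fun i => u i + t * (u' i - u i)) ∈ ucube d := by
    intro t ht i
    obtain ⟨h1, h2⟩ := hu i
    obtain ⟨h3, h4⟩ := hu' i
    obtain ⟨h5, h6⟩ := ht
    constructor
    · nlinarith only [h1, h3, h5, h6]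
    · nlinarith only [h2, h4, h5, h6]
  obtain ⟨c, hc, hc'⟩ := exists_hasDerivAt_eq_slope (fun t => g.eval t)
    (fun t => g.derivative.eval t) (show (0 : ℝ) < 1 by norm_num) g.continuous.continuousOn
    (fun t _ => g.hasDerivAt t)
  have e0 : g.eval 0 = MvPolynomial.eval u P := by
    rw [hg, hev]
    have : (fun i => u i + 0 * (u' i - u i)) = u := by
      funext i
      ring
    rw [this]
  have e1 : g.eval 1 = MvPolynomial.eval u' P := by
    rw [hg, hev]
    have : (fun i => u i + 1 * (u' i - u i)) = u' := by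
      funext i
      ring
    rw [this]
  have hc2 : MvPolynomial.eval u' P - MvPolynomial.eval u P = g.derivative.eval c := by
    rw [hc', ← e0, ← e1]
    simp
  rw [hc2, hg, der_line, Polynomial.eval_finsetSum]
  refine (Finset.abs_sum_le_sum_abs _ _).trans (Finset.sum_le_sum fun i _ => ?_)
  rw [Polynomial.eval_mul, abs_mul, hev]
  have e2 : (Polynomial.derivative (f i)).eval c = u' i - u i := by
    simp [hf]
  rw [e2]
  exact mul_le_mul_of_nonneg_right (h _ (hmem c ⟨hc.1.le, hc.2.le⟩) i) (abs_nonneg _)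

/-- Near points have near positions in a triangular chart. -/
lemma upos_lip {k₀ : ℕ} {C₀ : ℝ} {M : ℕ} {Ng : Fin d → ℕ} {G : Fin d → MvPolynomial (Fin d) ℝ}
    {w : Fin d → ℝ} {F : MvPolynomial (Fin d) ℝ} (hC₀ : 1 ≤ C₀)
    (hT : Tri k₀ C₀ M Ng G w F) {u u' : Fin d → ℝ} (hu : u ∈ ucube d) (hu' : u' ∈ ucube d)
    {ε : ℝ} (hε : 0 ≤ ε)
    (h : ∀ i, |cpt (triC G w F) u' (some i) - cpt (triC G w F) u (some i)| ≤ ε) (i : Fin d) :
    (Ng i : ℝ) / M * |u' i - u i| ≤ (1 + d * C₀ * C₀) ^ (i.val + 1) * (C₀ * ε) := by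
  have hd0 : (0 : ℝ) ≤ d := Nat.cast_nonneg d
  have hB : 1 ≤ 1 + (d : ℝ) * C₀ * C₀ := by
    have : 0 ≤ (d : ℝ) * C₀ * C₀ := by positivity
    linarith
  have key : ∀ m : ℕ, ∀ i : Fin d, i.val = m →
      (Ng i : ℝ) / M * |u' i - u i| ≤ (1 + d * C₀ * C₀) ^ (i.val + 1) * (C₀ * ε) := by
    intro m
    induction m using Nat.strong_induction_on with
    | _ m ih =>
      intro i hi
      have e1 : ∀ u : Fin d → ℝ, cpt (triC G w F) u (some i) =
          MvPolynomial.eval u (G i) + w i * u i := by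
        intro u
        show MvPolynomial.eval u (G i + MvPolynomial.C (w i) * MvPolynomial.X i) = _
        rw [map_add, map_mul, MvPolynomial.eval_C, MvPolynomial.eval_X]
      have h1 := h i
      rw [e1, e1] at h1
      have h2 := mv_ucube (G i) (fun l => if l < i then C₀ * (Ng l / M) else 0) (by
        intro v hv l
        split_ifs with hl
        · exact hT.slope v hv l i
        · rw [hT.tri i l (not_lt.mp hl), map_zero, abs_zero]) hu hu'
      have h3 : ∑ l, (if l < i then C₀ * (Ng l / M) else 0) * |u' l - u l| ≤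
          d * (C₀ * ((1 + d * C₀ * C₀) ^ i.val * (C₀ * ε))) := by
        calc ∑ l, (if l < i then C₀ * (Ng l / M) else 0) * |u' l - u l| ≤
            ∑ _l : Fin d, C₀ * ((1 + d * C₀ * C₀) ^ i.val * (C₀ * ε)) := by
              refine Finset.sum_le_sum fun l _ => ?_
              split_ifs with hl
              · have h4 := ih l.val (by
                  have : l.val < i.val := hl
                  omega) l rfl
                have h5 : (1 + (d : ℝ) * C₀ * C₀) ^ (l.val + 1) ≤
                    (1 + d * C₀ * C₀) ^ i.val := by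
                  refine pow_le_pow_right₀ hB ?_
                  have : l.val < i.val := hl
                  omega
                calc C₀ * (Ng l / M) * |u' l - u l| = C₀ * (Ng l / M * |u' l - u l|) := by ring
                  _ ≤ C₀ * ((1 + d * C₀ * C₀) ^ (l.val + 1) * (C₀ * ε)) :=
                      mul_le_mul_of_nonneg_left h4 (by linarith)
                  _ ≤ _ := mul_le_mul_of_nonneg_left
                      (mul_le_mul_of_nonneg_right h5 (by positivity)) (by linarith)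
              · rw [zero_mul]
                positivity
          _ = _ := by
              rw [Finset.sum_const, Finset.card_univ, Fintype.card_fin, nsmul_eq_mul]
      have h4 : w i * |u' i - u i| ≤ ε + d * (C₀ * ((1 + d * C₀ * C₀) ^ i.val * (C₀ * ε))) := by
        have e2 : w i * (u' i - u i) = (MvPolynomial.eval u' (G i) + w i * u' i -
            (MvPolynomial.eval u (G i) + w i * u i)) -
            (MvPolynomial.eval u' (G i) - MvPolynomial.eval u (G i)) := by ring
        have e3 : w i * |u' i - u i| = |w i * (u' i - u i)| := by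
          rw [abs_mul, abs_of_pos (hT.w_pos i)]
        rw [e3, e2]
        exact (abs_sub _ _).trans (add_le_add h1 (h2.trans h3))
      have h5 : (Ng i : ℝ) / M * |u' i - u i| ≤ C₀ * (w i * |u' i - u i|) := by
        calc (Ng i : ℝ) / M * |u' i - u i| ≤ C₀ * w i * |u' i - u i| :=
              mul_le_mul_of_nonneg_right (hT.le_w i) (abs_nonneg _)
          _ = _ := by ring
      refine h5.trans ((mul_le_mul_of_nonneg_left h4 (by linarith)).trans ?_)
      have h6 : (1 : ℝ) ≤ (1 + d * C₀ * C₀) ^ i.val := one_le_pow₀ hB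
      have h7 : C₀ * ε ≤ (1 + d * C₀ * C₀) ^ i.val * (C₀ * ε) := by
        have : 0 ≤ C₀ * ε := by positivity
        nlinarith
      calc C₀ * (ε + d * (C₀ * ((1 + d * C₀ * C₀) ^ i.val * (C₀ * ε)))) =
          C₀ * ε + d * C₀ * C₀ * ((1 + d * C₀ * C₀) ^ i.val * (C₀ * ε)) := by ring
        _ ≤ (1 + d * C₀ * C₀) ^ i.val * (C₀ * ε) +
            d * C₀ * C₀ * ((1 + d * C₀ * C₀) ^ i.val * (C₀ * ε)) := by linarith
        _ = _ := by ring
  exact key i.val i rfl

/-- **The branch at the rounded point.** -/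
theorem geo_val (d K₀ K₂ : ℕ) : ∃ C : ℝ, 1 ≤ C ∧
    ∀ (Lp κ : ℝ) (M : ℕ) (N₂ : Fin d → ℕ) (G : Fin d → MvPolynomial (Fin d) ℝ)
      (gN : MvPolynomial (Fin d) ℝ) (b₂ : Fin d → ℤ) (a : MvPolynomial (Fin d) ℝ)
      (δ δ₀ X : ℝ) (x px : Option (Fin d) → ℝ),
      0 ≤ Lp → 1 ≤ κ → 1 ≤ M → (∀ i, 1 ≤ N₂ i) → (∀ i, N₂ i ≤ M) →
      TriP G → (∀ i, (G i).totalDegree ≤ K₀) → gN.totalDegree ≤ K₀ → a.totalDegree ≤ K₂ →
      (∀ y ∈ ncell M N₂ G b₂, ∀ i l,
        |MvPolynomial.eval y (MvPolynomial.pderiv l (G i))| ≤ Lp) →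
      (∀ y ∈ ncell M N₂ G b₂, ∀ l, |MvPolynomial.eval y (MvPolynomial.pderiv l gN)| ≤ Lp) →
      bse x ∈ ncell M N₂ G b₂ → bse px ∈ ncell M N₂ G b₂ → (∀ o, |x o - px o| ≤ κ / M) →
      |x none - MvPolynomial.eval (rpos M N₂ G b₂ (bse x)) a| ≤ δ →
      (∀ u ∈ ucube d, |MvPolynomial.eval u a -
        MvPolynomial.eval (cpt (nchi M N₂ G b₂) u) gN| ≤
        3 * |MvPolynomial.eval (rpos M N₂ G b₂ (bse x)) a - MvPolynomial.eval (bse x) gN|) →
      |px none - MvPolynomial.eval (bse px) gN| ≤ δ₀ → 0 ≤ X →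
      (∀ i, δ + δ₀ + κ / M ≤ X * (N₂ i / M)) →
      -- the gradient of the branch has the natural size
      (∀ u ∈ ucube d, ∀ i, |MvPolynomial.eval u (MvPolynomial.pderiv i a)| ≤
        C * (2 * (1 + d * Lp) ^ (d + 1)) ^ (2 * d + 4) * (1 + X) * (N₂ i / M)) ∧
      -- the value at the rounded point
      |px none - MvPolynomial.eval (rpos M N₂ G b₂ (bse px)) a| ≤
        δ + C * (2 * (1 + d * Lp) ^ (d + 1)) ^ (4 * d + 6) * (1 + X) * κ / M := by
  set k₀ : ℕ := (K₀ + 1) ^ (d + 1) with hk₀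
  obtain ⟨K₁, hK₁, hcen⟩ := SML.psi_center_le d (k₀ + K₂)
  set E : ℝ := ((k₀ + K₂ : ℕ) : ℝ) with hE
  have hE0 : 0 ≤ E := Nat.cast_nonneg _
  have hd0 : (0 : ℝ) ≤ d := Nat.cast_nonneg d
  set Cg : ℝ := (6 * E * K₁ + 1) * (1 + d) ^ (d + 1) with hCg
  have hEK : 0 ≤ 6 * E * K₁ := by positivity
  have hdd : (1 : ℝ) ≤ (1 + d) ^ (d + 1) := one_le_pow₀ (by linarith)
  have hCg1 : 1 ≤ Cg := by
    rw [hCg]
    nlinarith
  have hdd' : (1 : ℝ) ≤ (1 + d) ^ d := one_le_pow₀ (by linarith)
  refine ⟨1 + Cg + d * Cg * (1 + d) ^ d, by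
    have : 0 ≤ d * Cg * (1 + d) ^ d := by positivity
    linarith, ?_⟩
  set C : ℝ := 1 + Cg + d * Cg * (1 + d) ^ d with hC
  intro Lp κ M N₂ G gN b₂ a δ δ₀ X x px hLp hκ hM hN₂ hNM hG hGd hgNd had hgrG hgrN hx hpx hnear
    hxa hNC hpN hX hδX
  have hM0 : (0 : ℝ) < M := by exact_mod_cast hM
  have hN0 : ∀ i, (0 : ℝ) < N₂ i := fun i => by exact_mod_cast hN₂ i
  set C₀ : ℝ := 2 * (1 + d * Lp) ^ (d + 1) with hC₀
  have hC₀1 : 1 ≤ C₀ := by
    have h1 : (1 : ℝ) ≤ (1 + d * Lp) ^ (d + 1) := one_le_pow₀ (by nlinarith)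
    linarith
  set B : ℝ := 1 + d * C₀ * C₀ with hB
  have hB1 : 1 ≤ B := by
    have : 0 ≤ d * C₀ * C₀ := by positivity
    linarith
  have hBC : B ≤ (1 + d) * C₀ ^ 2 := by
    have h1 : 1 ≤ C₀ ^ 2 := one_le_pow₀ hC₀1
    rw [hB]
    nlinarith
  have hBpow : ∀ n : ℕ, B ^ n ≤ (1 + d) ^ n * C₀ ^ (2 * n) := by
    intro n
    calc B ^ n ≤ ((1 + d) * C₀ ^ 2) ^ n := pow_le_pow_left₀ (by linarith) hBC n
      _ = _ := by rw [mul_pow, ← pow_mul]
  set F : MvPolynomial (Fin d) ℝ := MvPolynomial.bind₁ (nchi M N₂ G b₂) gN with hF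
  have hT := tri_nchi (gN := gN) (b := b₂) hM hN₂ hNM hG hLp hGd hgNd hgrG hgrN
  rw [← hF, ← hC₀] at hT
  set ux := rpos M N₂ G b₂ (bse x) with hux
  set up := rpos M N₂ G b₂ (bse px) with hup
  have huxm : ux ∈ ucube d := rpos_mem hM hN₂ hx
  have hupm : up ∈ ucube d := rpos_mem hM hN₂ hpx
  have hFe : ∀ u, MvPolynomial.eval u F = MvPolynomial.eval (cpt (nchi M N₂ G b₂) u) gN := by
    intro u
    rw [hF, eval_bind]
  have hFx : MvPolynomial.eval ux F = MvPolynomial.eval (bse x) gN := by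
    rw [hFe, hux, nchi_rpos hM hN₂ hG]
  have hFp : MvPolynomial.eval up F = MvPolynomial.eval (bse px) gN := by
    rw [hFe, hup, nchi_rpos hM hN₂ hG]
  have hε : 0 ≤ κ / M := by positivity
  have hpos : ∀ i, (N₂ i : ℝ) / M * |ux i - up i| ≤ B ^ d * (C₀ * (κ / M)) := by
    intro i
    have h1 := upos_lip hC₀1 hT hupm huxm hε (by
      intro i
      rw [cpt_triC_nchi hG, cpt_triC_nchi hG, hux, hup]
      show |cpt (nchi M N₂ G b₂) (rpos M N₂ G b₂ (bse x)) i -
        cpt (nchi M N₂ G b₂) (rpos M N₂ G b₂ (bse px)) i| ≤ κ / M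
      rw [nchi_rpos hM hN₂ hG, nchi_rpos hM hN₂ hG]
      exact hnear (some i)) i
    refine h1.trans (mul_le_mul_of_nonneg_right ?_ (by positivity))
    exact pow_le_pow_right₀ hB1 i.2
  -- the leaf `gN` at the two points
  have hFF : |MvPolynomial.eval ux F - MvPolynomial.eval up F| ≤
      d * (C₀ * (B ^ d * (C₀ * (κ / M)))) := by
    refine (mv_ucube F (fun i => C₀ * (N₂ i / M)) (fun u hu i => hT.slopeF u hu i)
      hupm huxm).trans ?_
    calc ∑ i, C₀ * ((N₂ i : ℝ) / M) * |ux i - up i| ≤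
        ∑ _i : Fin d, C₀ * (B ^ d * (C₀ * (κ / M))) := by
          refine Finset.sum_le_sum fun i _ => ?_
          rw [mul_assoc]
          exact mul_le_mul_of_nonneg_left (hpos i) (by linarith)
      _ = _ := by rw [Finset.sum_const, Finset.card_univ, Fintype.card_fin, nsmul_eq_mul]
  have hBd1 : 1 ≤ B ^ d := one_le_pow₀ hB1
  have hδ0 : 0 ≤ δ := (abs_nonneg _).trans hxa
  have hδ₀0 : 0 ≤ δ₀ := (abs_nonneg _).trans hpN
  have hxN : |MvPolynomial.eval ux a - MvPolynomial.eval (bse x) gN| ≤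
      B ^ (d + 1) * (δ + δ₀ + κ / M) := by
    have e1 : MvPolynomial.eval ux a - MvPolynomial.eval (bse x) gN =
        -(x none - MvPolynomial.eval ux a) + (x none - px none) +
        (px none - MvPolynomial.eval (bse px) gN) -
        (MvPolynomial.eval ux F - MvPolynomial.eval up F) := by
      rw [hFx, hFp]
      ring
    have h1 : |MvPolynomial.eval ux a - MvPolynomial.eval (bse x) gN| ≤
        δ + κ / M + δ₀ + d * (C₀ * (B ^ d * (C₀ * (κ / M)))) := by
      rw [e1]
      refine (abs_sub _ _).trans (add_le_add ?_ hFF)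
      refine (abs_add_le _ _).trans (add_le_add ?_ hpN)
      refine (abs_add_le _ _).trans (add_le_add ?_ (hnear none))
      rw [abs_neg]
      exact hxa
    refine h1.trans ?_
    rw [pow_succ]
    have h2 : δ ≤ B ^ d * B * δ := by
      have : 1 ≤ B ^ d * B := by nlinarith
      nlinarith
    have h3 : δ₀ ≤ B ^ d * B * δ₀ := by
      have : 1 ≤ B ^ d * B := by nlinarith
      nlinarith
    have h4 : κ / M + d * (C₀ * (B ^ d * (C₀ * (κ / M)))) ≤ B ^ d * B * (κ / M) := by
      rw [hB]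
      have h5 : κ / M ≤ B ^ d * (κ / M) := by nlinarith
      rw [hB] at h5
      calc κ / M + d * (C₀ * ((1 + d * C₀ * C₀) ^ d * (C₀ * (κ / M)))) ≤
          (1 + d * C₀ * C₀) ^ d * (κ / M) +
            d * (C₀ * ((1 + d * C₀ * C₀) ^ d * (C₀ * (κ / M)))) := by linarith
        _ = _ := by ring
    calc δ + κ / M + δ₀ + d * (C₀ * (B ^ d * (C₀ * (κ / M)))) =
        δ + δ₀ + (κ / M + d * (C₀ * (B ^ d * (C₀ * (κ / M))))) := by ring
      _ ≤ B ^ d * B * δ + B ^ d * B * δ₀ + B ^ d * B * (κ / M) :=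
          add_le_add (add_le_add h2 h3) h4
      _ = _ := by ring
  have hcs : cs (fun _ => 0) 1 (a - F) ≤ 3 * (B ^ (d + 1) * (δ + δ₀ + κ / M)) := by
    refine SML.cs_le _ (by positivity) fun y hy => ?_
    have hy' : y ∈ ucube d := by
      intro i
      have := hy i
      rw [zero_add] at this
      exact this
    rw [map_sub, hFe]
    exact (hNC y hy').trans (mul_le_mul_of_nonneg_left hxN (by norm_num))
  have hdeg : (a - F).totalDegree ≤ k₀ + K₂ := by
    refine (MvPolynomial.totalDegree_sub _ _).trans (max_le ?_ ?_)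
    · exact had.trans (Nat.le_add_left _ _)
    · exact hT.degF.trans (Nat.le_add_right _ _)
  have hgrad : ∀ u ∈ ucube d, ∀ i, |MvPolynomial.eval u (MvPolynomial.pderiv i a)| ≤
      Cg * C₀ ^ (2 * d + 3) * (1 + X) * (N₂ i / M) := by
    intro u hu i
    have hu' : u ∈ cube (fun _ => (0 : ℝ)) 1 := by
      intro i
      have := hu i
      rw [zero_add]
      exact this
    have h1 := SML.markov (k₀ + K₂) K₁ hcen (fun _ => 0) one_pos (a - F) hdeg i hu'
    rw [div_one, mul_one, map_sub, map_sub] at h1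
    have h2 := hT.slopeF u hu i
    have hw : 0 < (N₂ i : ℝ) / M := by
      have := hN0 i
      positivity
    have h3 : |MvPolynomial.eval u (MvPolynomial.pderiv i a)| ≤
        2 * E * K₁ * cs (fun _ => 0) 1 (a - F) + C₀ * (N₂ i / M) := by
      have e1 : MvPolynomial.eval u (MvPolynomial.pderiv i a) =
          (MvPolynomial.eval u (MvPolynomial.pderiv i a) -
            MvPolynomial.eval u (MvPolynomial.pderiv i F)) +
            MvPolynomial.eval u (MvPolynomial.pderiv i F) := by ring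
      rw [e1]
      exact (abs_add_le _ _).trans (add_le_add h1 h2)
    refine h3.trans ?_
    have h4 : cs (fun _ => 0) 1 (a - F) ≤ 3 * (B ^ (d + 1) * (X * (N₂ i / M))) :=
      hcs.trans (mul_le_mul_of_nonneg_left
        (mul_le_mul_of_nonneg_left (hδX i) (by positivity)) (by norm_num))
    have h5 := hBpow (d + 1)
    have h6 : B ^ (d + 1) ≤ (1 + d) ^ (d + 1) * C₀ ^ (2 * d + 3) := by
      refine h5.trans (mul_le_mul_of_nonneg_left ?_ (by positivity))
      exact pow_le_pow_right₀ hC₀1 (by omega)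
    have h7 : C₀ ≤ (1 + d) ^ (d + 1) * C₀ ^ (2 * d + 3) := by
      have h8 : C₀ ≤ C₀ ^ (2 * d + 3) := by
        calc C₀ = C₀ ^ 1 := (pow_one _).symm
          _ ≤ _ := pow_le_pow_right₀ hC₀1 (by omega)
      have h9 : 0 ≤ C₀ ^ (2 * d + 3) := by positivity
      nlinarith
    set Y := (1 + (d : ℝ)) ^ (d + 1) * C₀ ^ (2 * d + 3) with hY
    have hY0 : 0 ≤ Y := by positivity
    calc 2 * E * K₁ * cs (fun _ => 0) 1 (a - F) + C₀ * (N₂ i / M) ≤
        2 * E * K₁ * (3 * (Y * (X * (N₂ i / M)))) + Y * (N₂ i / M) := by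
          refine add_le_add (mul_le_mul_of_nonneg_left (h4.trans ?_) (by positivity))
            (mul_le_mul_of_nonneg_right h7 hw.le)
          exact mul_le_mul_of_nonneg_left (mul_le_mul_of_nonneg_right h6 (by positivity))
            (by norm_num)
      _ = (6 * E * K₁ * X + 1) * Y * (N₂ i / M) := by ring
      _ ≤ ((6 * E * K₁ + 1) * (1 + X)) * Y * (N₂ i / M) := by
          refine mul_le_mul_of_nonneg_right (mul_le_mul_of_nonneg_right ?_ hY0) hw.le
          nlinarith
      _ = Cg * C₀ ^ (2 * d + 3) * (1 + X) * (N₂ i / M) := by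
          rw [hCg, hY]
          ring
  refine ⟨fun u hu i => (hgrad u hu i).trans ?_, ?_⟩
  · have hw : 0 < (N₂ i : ℝ) / M := by
      have := hN0 i
      positivity
    have h0 : 0 ≤ d * Cg * (1 + d) ^ d := by positivity
    refine mul_le_mul_of_nonneg_right (mul_le_mul_of_nonneg_right ?_ (by linarith)) hw.le
    refine mul_le_mul ?_ (pow_le_pow_right₀ hC₀1 (by omega)) (by positivity) (by linarith)
    linarith
  · have h1 := mv_ucube a _ (fun u hu i => hgrad u hu i) hupm huxm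
    have h2 : ∑ i, Cg * C₀ ^ (2 * d + 3) * (1 + X) * ((N₂ i : ℝ) / M) * |ux i - up i| ≤
        d * (Cg * C₀ ^ (2 * d + 3) * (1 + X) * (B ^ d * (C₀ * (κ / M)))) := by
      calc ∑ i, Cg * C₀ ^ (2 * d + 3) * (1 + X) * ((N₂ i : ℝ) / M) * |ux i - up i| ≤
          ∑ _i : Fin d, Cg * C₀ ^ (2 * d + 3) * (1 + X) * (B ^ d * (C₀ * (κ / M))) := by
            refine Finset.sum_le_sum fun i _ => ?_
            rw [mul_assoc (Cg * C₀ ^ (2 * d + 3) * (1 + X))]
            exact mul_le_mul_of_nonneg_left (hpos i) (by positivity)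
        _ = _ := by rw [Finset.sum_const, Finset.card_univ, Fintype.card_fin, nsmul_eq_mul]
    have e1 : px none - MvPolynomial.eval up a = -(x none - px none) +
        (x none - MvPolynomial.eval ux a) + (MvPolynomial.eval ux a - MvPolynomial.eval up a) := by
      ring
    have h3 : |px none - MvPolynomial.eval up a| ≤ κ / M + δ +
        d * (Cg * C₀ ^ (2 * d + 3) * (1 + X) * (B ^ d * (C₀ * (κ / M)))) := by
      rw [e1]
      refine (abs_add_le _ _).trans (add_le_add ?_ (h1.trans h2))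
      refine (abs_add_le _ _).trans (add_le_add ?_ hxa)
      rw [abs_neg]
      exact hnear none
    refine h3.trans ?_
    have h4 : B ^ d ≤ (1 + d) ^ d * C₀ ^ (2 * d) := hBpow d
    have h5 : d * (Cg * C₀ ^ (2 * d + 3) * (1 + X) * (B ^ d * (C₀ * (κ / M)))) ≤
        d * Cg * (1 + d) ^ d * C₀ ^ (4 * d + 6) * (1 + X) * (κ / M) := by
      calc d * (Cg * C₀ ^ (2 * d + 3) * (1 + X) * (B ^ d * (C₀ * (κ / M)))) ≤
          d * (Cg * C₀ ^ (2 * d + 3) * (1 + X) *
            (((1 + d) ^ d * C₀ ^ (2 * d)) * (C₀ * (κ / M)))) := by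
            refine mul_le_mul_of_nonneg_left (mul_le_mul_of_nonneg_left
              (mul_le_mul_of_nonneg_right h4 (by positivity)) (by positivity)) hd0
        _ = d * Cg * (1 + d) ^ d * C₀ ^ (4 * d + 4) * (1 + X) * (κ / M) := by ring
        _ ≤ _ := by
            refine mul_le_mul_of_nonneg_right (mul_le_mul_of_nonneg_right
              (mul_le_mul_of_nonneg_left (pow_le_pow_right₀ hC₀1 (by omega)) (by positivity))
              (by linarith)) hε
    have h6 : κ / M ≤ 1 * C₀ ^ (4 * d + 6) * (1 + X) * (κ / M) := by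
      have h7 : 1 ≤ C₀ ^ (4 * d + 6) := one_le_pow₀ hC₀1
      have h8 : 1 ≤ C₀ ^ (4 * d + 6) * (1 + X) := by nlinarith
      rw [one_mul]
      nlinarith
    have h7 : 0 ≤ Cg * C₀ ^ (4 * d + 6) * (1 + X) * (κ / M) := by positivity
    calc κ / M + δ + d * (Cg * C₀ ^ (2 * d + 3) * (1 + X) * (B ^ d * (C₀ * (κ / M)))) ≤
        1 * C₀ ^ (4 * d + 6) * (1 + X) * (κ / M) + δ +
          d * Cg * (1 + d) ^ d * C₀ ^ (4 * d + 6) * (1 + X) * (κ / M) +
          Cg * C₀ ^ (4 * d + 6) * (1 + X) * (κ / M) := by linarith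
      _ = δ + C * C₀ ^ (4 * d + 6) * (1 + X) * κ / M := by
          rw [hC]
          ring

end Pool.EXS
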