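import Pool.Agent.H86.EXT.Gpt
import Pool.Agent.H86.EXT.Brg

/-!
# The gradient of a branch from the equation

`ga_det`: a branch `a` over a natural cell, near a point `x` at which the equation `Q` has the jets
`LnR` and bounded derivatives in the base directions; `pN k Q`, `pN (k + 1) Q` and the derivatives of
`pN k Q` in the base directions are nearly constant along the branch. Then the gradient of the
branch has the natural size.
-/

set_option autoImplicit false

namespace Pool.EXS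

open Finset Real
open Pool.Agent.H49.Ent Pool.Agent.H32.Dense Pool.STK Pool.KAF Pool.KAL Pool.KST Pool.KS3 Pool.M3F
open Pool.KJA Pool.IEN

variable {d : ℕ}

/-- The derivatives at a point shifted in the passive direction. -/
lemma der_tr {D : ℕ} {Q : MvPolynomial (Option (Fin d)) ℝ} (hQ : Q.totalDegree ≤ D)
    {H' α t δ s : ℝ} {x : Option (Fin d) → ℝ} {k : ℕ} (l : Fin d) (ht : 0 < t) (hs : |s| ≤ δ)
    (hδ : 2 * δ ≤ t) (hH' : 0 ≤ H') (hα : 0 ≤ α)
    (h : ∀ m, |MvPolynomial.eval x (MvPolynomial.pderiv (some l) (pN (k + m) Q))| * t ^ m ≤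
      H' * α) :
    |MvPolynomial.eval (psh x s) (MvPolynomial.pderiv (some l) (pN k Q))| ≤ 2 * (H' * α) := by
  have hδ0 : 0 ≤ δ := (abs_nonneg _).trans hs
  have hq : δ / t ≤ 1 / 2 := by
    rw [div_le_iff₀ ht]
    linarith
  have hq0 : 0 ≤ δ / t := by positivity
  have hdeg : (MvPolynomial.pderiv (some l) (pN k Q)).totalDegree ≤ D :=
    (tdeg_pd _ _).trans ((Nat.sub_le _ _).trans (pN_deg k D hQ))
  have e1 := abs_psh_le x hs hdeg
  refine e1.trans ?_
  calc ∑ m ∈ range (D + 1), δ ^ m * |MvPolynomial.eval x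
        (pN m (MvPolynomial.pderiv (some l) (pN k Q)))| ≤
      ∑ m ∈ range (D + 1), δ ^ m * (H' * α / t ^ m) := by
        refine Finset.sum_le_sum fun m _ => ?_
        rw [pN_pderiv, pN_pN, add_comm m k]
        refine mul_le_mul_of_nonneg_left ?_ (by positivity)
        rw [le_div_iff₀ (by positivity)]
        exact h m
    _ = (H' * α) * ∑ m ∈ range (D + 1), (δ / t) ^ m := by
        rw [Finset.mul_sum]
        refine Finset.sum_congr rfl fun m _ => ?_
        rw [div_pow]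
        field_simp
    _ ≤ (H' * α) * 2 := mul_le_mul_of_nonneg_left (geo_le hq0 hq _) (by positivity)
    _ = _ := by ring

/-- **The gradient of a branch, and its value at the rounded point.** -/
theorem ga_det (d D K₀ K₂ : ℕ) : ∃ C : ℝ, 1 ≤ C ∧
    ∀ (Lp κ : ℝ) (M : ℕ) (N₂ : Fin d → ℕ) (G : Fin d → MvPolynomial (Fin d) ℝ)
      (b₂ : Fin d → ℤ) (a : MvPolynomial (Fin d) ℝ) (Q : MvPolynomial (Option (Fin d)) ℝ)
      (H H' X δ : ℝ) (θ : ℕ → ℝ) (k : ℕ) (x px : Option (Fin d) → ℝ),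
      0 ≤ Lp → 1 ≤ κ → 1 ≤ M → (∀ i, 1 ≤ N₂ i) → (∀ i, N₂ i ≤ M) →
      TriP G → (∀ i, (G i).totalDegree ≤ K₀) → a.totalDegree ≤ K₂ → Q.totalDegree ≤ D →
      (∀ y ∈ ncell M N₂ G b₂, ∀ i l,
        |MvPolynomial.eval y (MvPolynomial.pderiv l (G i))| ≤ Lp) →
      bse x ∈ ncell M N₂ G b₂ → bse px ∈ ncell M N₂ G b₂ → (∀ o, |x o - px o| ≤ κ / M) →
      |x none - MvPolynomial.eval (rpos M N₂ G b₂ (bse x)) a| ≤ δ →
      LnR D Q H θ x k → 1 ≤ H → 0 ≤ H' → 0 ≤ θ k → 0 < θ (k + 1) → 4 * H * δ ≤ θ (k + 1) →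
      (∀ (l : Fin d) (m : ℕ), |MvPolynomial.eval x (MvPolynomial.pderiv (some l)
        (pN (k + m) Q))| * θ (k + 1) ^ m ≤ H' * |MvPolynomial.eval x (pN (k + 1) Q)|) →
      (∀ R, (R = pN k Q ∨ R = pN (k + 1) Q ∨ ∃ l, R = MvPolynomial.pderiv (some l) (pN k Q)) →
        ∀ u ∈ ucube d, ∀ u' ∈ ucube d,
          |MvPolynomial.eval (pt (cpt (nchi M N₂ G b₂) u) (MvPolynomial.eval u a)) R| ≤
          3 * |MvPolynomial.eval (pt (cpt (nchi M N₂ G b₂) u') (MvPolynomial.eval u' a)) R|) →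
      0 ≤ X → (∀ i, H * (θ k + 2 * δ) ≤ X * (N₂ i / M)) →
      -- the gradient of the branch has the natural size
      (∀ u ∈ ucube d, ∀ i, |MvPolynomial.eval u (MvPolynomial.pderiv i a)| ≤
        C * (2 * (1 + d * Lp) ^ (d + 1)) * (H' + X) * (N₂ i / M)) ∧
      -- the value at the rounded point
      |px none - MvPolynomial.eval (rpos M N₂ G b₂ (bse px)) a| ≤
        δ + C * (2 * (1 + d * Lp) ^ (d + 1)) ^ (2 * d + 2) * (1 + H' + X) * κ / M := by
  classical
  set k₀ : ℕ := (K₀ + 1) ^ d with hk₀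
  obtain ⟨K₁, hK₁, hcen⟩ := SML.psi_center_le d ((k₀ + K₂) * D)
  set E : ℝ := (((k₀ + K₂) * D : ℕ) : ℝ) with hE
  have hE0 : 0 ≤ E := Nat.cast_nonneg _
  have hd0 : (0 : ℝ) ≤ d := Nat.cast_nonneg d
  set Cg : ℝ := 36 * E * K₁ + 36 * d + 1 with hCg
  have hEK : 0 ≤ 36 * E * K₁ := by positivity
  have hCg1 : 1 ≤ Cg := by
    rw [hCg]
    nlinarith
  have hdd : (1 : ℝ) ≤ (1 + d) ^ d := one_le_pow₀ (by linarith)
  refine ⟨1 + Cg + d * Cg * (1 + d) ^ d, by
    have : 0 ≤ d * Cg * (1 + d) ^ d := by positivity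
    linarith, ?_⟩
  set C : ℝ := 1 + Cg + d * Cg * (1 + d) ^ d with hC
  intro Lp κ M N₂ G b₂ a Q H H' X δ θ k x px hLp hκ hM hN₂ hNM hG hGd had hQd hgrG hx hpx hnear
    hxa hL hH hH' hθk hθ hδθ hder hNC hX hXN
  have hM0 : (0 : ℝ) < M := by exact_mod_cast hM
  have hN0 : ∀ i, (0 : ℝ) < N₂ i := fun i => by exact_mod_cast hN₂ i
  set C₀ : ℝ := 2 * (1 + d * Lp) ^ (d + 1) with hC₀
  have hB1' : (1 : ℝ) ≤ 1 + d * Lp := by
    have : 0 ≤ (d : ℝ) * Lp := by positivity
    linarith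
  have hC₀1 : 1 ≤ C₀ := by
    have h1 : (1 : ℝ) ≤ (1 + d * Lp) ^ (d + 1) := one_le_pow₀ hB1'
    linarith
  set χ := nchi M N₂ G b₂ with hχ
  set ux := rpos M N₂ G b₂ (bse x) with hux
  set up := rpos M N₂ G b₂ (bse px) with hup
  have huxm : ux ∈ ucube d := rpos_mem hM hN₂ hx
  have hupm : up ∈ ucube d := rpos_mem hM hN₂ hpx
  set α := |MvPolynomial.eval x (pN (k + 1) Q)| with hα
  have hα0 : 0 < α := hL.pos
  have hδ0 : 0 ≤ δ := (abs_nonneg _).trans hxa
  -- the point on the branch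
  set s : ℝ := MvPolynomial.eval ux a - x none with hs
  have hsδ : |s| ≤ δ := by
    rw [hs, abs_sub_comm]
    exact hxa
  have hpt : pt (cpt χ ux) (MvPolynomial.eval ux a) = psh x s := by
    funext o
    cases o with
    | none =>
      show MvPolynomial.eval ux a = x none + s
      rw [hs]
      ring
    | some i =>
      show cpt χ ux i = x (some i)
      rw [hχ, hux, nchi_rpos hM hN₂ hG]
      rfl
  obtain ⟨t1, t2, -⟩ := lnr_tr hQd hL hH hθ hsδ hδθ
  have t3 : ∀ l, |MvPolynomial.eval (psh x s) (MvPolynomial.pderiv (some l) (pN k Q))| ≤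
      2 * (H' * α) := fun l => der_tr hQd l hθ hsδ (by nlinarith) hH' hα0.le (hder l)
  -- the values along the branch
  have v1 : ∀ u ∈ ucube d, |MvPolynomial.eval (pt (cpt χ u) (MvPolynomial.eval u a))
      (pN k Q)| ≤ 3 * ((θ k + 2 * δ) * (H * α)) := by
    intro u hu
    refine (hNC _ (Or.inl rfl) u hu ux huxm).trans ?_
    rw [hpt]
    exact mul_le_mul_of_nonneg_left t2 (by norm_num)
  have v2 : ∀ u ∈ ucube d, α ≤ 6 * |MvPolynomial.eval (pt (cpt χ u) (MvPolynomial.eval u a))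
      (pN (k + 1) Q)| := by
    intro u hu
    have h1 := hNC _ (Or.inr (Or.inl rfl)) ux huxm u hu
    rw [hpt] at h1
    linarith
  have v3 : ∀ u ∈ ucube d, ∀ l, |MvPolynomial.eval (pt (cpt χ u) (MvPolynomial.eval u a))
      (MvPolynomial.pderiv (some l) (pN k Q))| ≤ 6 * (H' * α) := by
    intro u hu l
    refine (hNC _ (Or.inr (Or.inr ⟨l, rfl⟩)) u hu ux huxm).trans ?_
    rw [hpt]
    have := t3 l
    linarith
  -- the composite
  set P := MvPolynomial.bind₁ (och a χ) (pN k Q) with hP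
  have hχd : ∀ i, (χ i).totalDegree ≤ k₀ :=
    fun i => deg_chiN G (ncor M N₂ b₂) (nwid M N₂) K₀ hGd d i
  have hPd : P.totalDegree ≤ (k₀ + K₂) * D := och_deg hχd had (pN_deg k D hQd)
  have hPe : ∀ (R : MvPolynomial (Option (Fin d)) ℝ) (u : Fin d → ℝ),
      MvPolynomial.eval u (MvPolynomial.bind₁ (och a χ) R) =
        MvPolynomial.eval (pt (cpt χ u) (MvPolynomial.eval u a)) R := by
    intro R u
    rw [eval_bind, cpt_och]
  have hcs : cs (fun _ => 0) 1 P ≤ 3 * ((θ k + 2 * δ) * (H * α)) := by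
    refine SML.cs_le _ (by positivity) fun y hy => ?_
    rw [hPe]
    refine v1 y fun i => ?_
    have := hy i
    rw [zero_add] at this
    exact this
  have hPder : ∀ u ∈ ucube d, ∀ i, |MvPolynomial.eval u (MvPolynomial.pderiv i P)| ≤
      2 * E * K₁ * (3 * ((θ k + 2 * δ) * (H * α))) := by
    intro u hu i
    have hu' : u ∈ cube (fun _ => (0 : ℝ)) 1 := by
      intro i
      have := hu i
      rw [zero_add]
      exact this
    have h1 := SML.markov ((k₀ + K₂) * D) K₁ hcen (fun _ => 0) one_pos P hPd i hu'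
    rw [div_one, mul_one] at h1
    exact h1.trans (mul_le_mul_of_nonneg_left hcs (by positivity))
  have hχder : ∀ u ∈ ucube d, ∀ l i, |MvPolynomial.eval u (MvPolynomial.pderiv i (χ l))| ≤
      C₀ * (N₂ i / M) := by
    intro u hu l i
    have hw : ∀ i, 0 < nwid M N₂ i := fun i => by
      have := hN0 i
      unfold nwid
      positivity
    have h1 := abs_pderiv_chiN G hG (ncor M N₂ b₂) (nwid M N₂) hw Lp hLp u
      (fun i l => hgrG _ (nchi_mem hM hN₂ hG hu) i l) l i
    have h2 : (1 + (d : ℝ) * Lp) ^ ((l : ℕ) + 1) ≤ C₀ := by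
      have h3 : (1 + (d : ℝ) * Lp) ^ ((l : ℕ) + 1) ≤ (1 + d * Lp) ^ (d + 1) :=
        pow_le_pow_right₀ hB1' (by have := l.2; omega)
      have h4 : (0 : ℝ) ≤ (1 + d * Lp) ^ (d + 1) := by positivity
      linarith
    calc |MvPolynomial.eval u (MvPolynomial.pderiv i (χ l))| ≤
        nwid M N₂ i * (1 + d * Lp) ^ ((l : ℕ) + 1) := h1
      _ ≤ nwid M N₂ i * C₀ := mul_le_mul_of_nonneg_left h2 (hw i).le
      _ = _ := mul_comm _ _
  have hgrad : ∀ u ∈ ucube d, ∀ i, |MvPolynomial.eval u (MvPolynomial.pderiv i a)| ≤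
      Cg * C₀ * (H' + X) * (N₂ i / M) := by
    intro u hu i
    have hw : 0 < (N₂ i : ℝ) / M := by
      have := hN0 i
      positivity
    have e1 : MvPolynomial.eval u (MvPolynomial.pderiv i P) =
        MvPolynomial.eval (pt (cpt χ u) (MvPolynomial.eval u a)) (pN (k + 1) Q) *
          MvPolynomial.eval u (MvPolynomial.pderiv i a) +
        ∑ l, MvPolynomial.eval (pt (cpt χ u) (MvPolynomial.eval u a))
          (MvPolynomial.pderiv (some l) (pN k Q)) *
            MvPolynomial.eval u (MvPolynomial.pderiv i (χ l)) := by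
      rw [hP, pderiv_bind, map_sum, Fintype.sum_option]
      congr 1
      · rw [map_mul, hPe, ← pN_succ]
        rfl
      · refine Finset.sum_congr rfl fun l _ => ?_
        rw [map_mul, hPe]
        rfl
    have h1 := hPder u hu i
    have h2 : |∑ l, MvPolynomial.eval (pt (cpt χ u) (MvPolynomial.eval u a))
        (MvPolynomial.pderiv (some l) (pN k Q)) *
          MvPolynomial.eval u (MvPolynomial.pderiv i (χ l))| ≤
        d * (6 * (H' * α) * (C₀ * (N₂ i / M))) := by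
      have hb : ∀ l, |MvPolynomial.eval (pt (cpt χ u) (MvPolynomial.eval u a))
          (MvPolynomial.pderiv (some l) (pN k Q)) *
            MvPolynomial.eval u (MvPolynomial.pderiv i (χ l))| ≤
          6 * (H' * α) * (C₀ * (N₂ i / M)) := by
        intro l
        rw [abs_mul]
        exact mul_le_mul (v3 u hu l) (hχder u hu l i) (abs_nonneg _) (by positivity)
      refine (Finset.abs_sum_le_sum_abs _ _).trans ((Finset.sum_le_sum fun l _ => hb l).trans ?_)
      rw [Finset.sum_const, Finset.card_univ, Fintype.card_fin, nsmul_eq_mul]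
    have h3 : |MvPolynomial.eval (pt (cpt χ u) (MvPolynomial.eval u a)) (pN (k + 1) Q)| *
        |MvPolynomial.eval u (MvPolynomial.pderiv i a)| ≤
        2 * E * K₁ * (3 * ((θ k + 2 * δ) * (H * α))) +
          d * (6 * (H' * α) * (C₀ * (N₂ i / M))) := by
      rw [← abs_mul]
      have e2 : MvPolynomial.eval (pt (cpt χ u) (MvPolynomial.eval u a)) (pN (k + 1) Q) *
          MvPolynomial.eval u (MvPolynomial.pderiv i a) =
          MvPolynomial.eval u (MvPolynomial.pderiv i P) -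
          ∑ l, MvPolynomial.eval (pt (cpt χ u) (MvPolynomial.eval u a))
          (MvPolynomial.pderiv (some l) (pN k Q)) *
            MvPolynomial.eval u (MvPolynomial.pderiv i (χ l)) := by
        rw [e1]
        ring
      rw [e2]
      exact (abs_sub _ _).trans (add_le_add h1 h2)
    have h4 := v2 u hu
    have h5 : H * (θ k + 2 * δ) ≤ X * (N₂ i / M) := hXN i
    have h6 : α * |MvPolynomial.eval u (MvPolynomial.pderiv i a)| ≤
        α * (36 * E * K₁ * (X * (N₂ i / M)) + 36 * d * (H' * (C₀ * (N₂ i / M)))) := by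
      have h7 : α * |MvPolynomial.eval u (MvPolynomial.pderiv i a)| ≤
          6 * (|MvPolynomial.eval (pt (cpt χ u) (MvPolynomial.eval u a)) (pN (k + 1) Q)| *
            |MvPolynomial.eval u (MvPolynomial.pderiv i a)|) := by
        rw [← mul_assoc]
        exact mul_le_mul_of_nonneg_right h4 (abs_nonneg _)
      refine h7.trans ((mul_le_mul_of_nonneg_left h3 (by norm_num)).trans ?_)
      have h8 : 36 * E * K₁ * (H * (θ k + 2 * δ)) ≤ 36 * E * K₁ * (X * (N₂ i / M)) :=
        mul_le_mul_of_nonneg_left h5 hEK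
      have h9 := mul_le_mul_of_nonneg_left h8 hα0.le
      calc 6 * (2 * E * K₁ * (3 * ((θ k + 2 * δ) * (H * α))) +
          d * (6 * (H' * α) * (C₀ * (N₂ i / M)))) =
          α * (36 * E * K₁ * (H * (θ k + 2 * δ))) +
            α * (36 * d * (H' * (C₀ * (N₂ i / M)))) := by ring
        _ ≤ α * (36 * E * K₁ * (X * (N₂ i / M))) +
            α * (36 * d * (H' * (C₀ * (N₂ i / M)))) := by linarith
        _ = _ := by ring
    have h7 := le_of_mul_le_mul_left h6 hα0
    refine h7.trans ?_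
    have h8 : 36 * E * K₁ * (X * (N₂ i / M)) ≤ 36 * E * K₁ * (C₀ * (X * (N₂ i / M))) := by
      refine mul_le_mul_of_nonneg_left ?_ hEK
      have : 0 ≤ X * ((N₂ i : ℝ) / M) := by positivity
      nlinarith
    have h9 : 0 ≤ C₀ * (X * ((N₂ i : ℝ) / M)) := by positivity
    have h10 : 0 ≤ C₀ * (H' * ((N₂ i : ℝ) / M)) := by positivity
    calc 36 * E * K₁ * (X * (N₂ i / M)) + 36 * d * (H' * (C₀ * (N₂ i / M))) ≤
        36 * E * K₁ * (C₀ * (X * (N₂ i / M))) + 36 * d * (C₀ * (H' * (N₂ i / M))) := by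
          have e3 : H' * (C₀ * ((N₂ i : ℝ) / M)) = C₀ * (H' * (N₂ i / M)) := by ring
          rw [e3]
          linarith
      _ ≤ (36 * E * K₁ + 36 * d + 1) * (C₀ * (X * (N₂ i / M))) +
          (36 * E * K₁ + 36 * d + 1) * (C₀ * (H' * (N₂ i / M))) := by
          have h11 : 36 * E * K₁ ≤ 36 * E * K₁ + 36 * d + 1 := by linarith
          have h12 : 36 * (d : ℝ) ≤ 36 * E * K₁ + 36 * d + 1 := by linarith
          exact add_le_add (mul_le_mul_of_nonneg_right h11 h9)
            (mul_le_mul_of_nonneg_right h12 h10)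
      _ = Cg * C₀ * (H' + X) * (N₂ i / M) := by
          rw [hCg]
          ring
  have hCC : Cg ≤ C := by
    rw [hC]
    have : 0 ≤ d * Cg * (1 + (d : ℝ)) ^ d := by positivity
    linarith
  refine ⟨fun u hu i => (hgrad u hu i).trans ?_, ?_⟩
  · have hw : 0 < (N₂ i : ℝ) / M := by
      have := hN0 i
      positivity
    refine mul_le_mul_of_nonneg_right ?_ hw.le
    refine mul_le_mul_of_nonneg_right ?_ (by positivity)
    exact mul_le_mul_of_nonneg_right hCC (by linarith)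
  -- the value at the rounded point
  have hT := tri_nchi (gN := 0) (b := b₂) hM hN₂ hNM hG hLp hGd (by
    rw [MvPolynomial.totalDegree_zero]
    exact Nat.zero_le _) hgrG (fun y _ l => by
      rw [map_zero, map_zero, abs_zero]
      exact hLp)
  rw [← hC₀] at hT
  set B : ℝ := 1 + d * C₀ * C₀ with hB
  have hB1 : 1 ≤ B := by
    have : 0 ≤ d * C₀ * C₀ := by positivity
    linarith
  have hBC : B ≤ (1 + d) * C₀ ^ 2 := by
    have h1 : 1 ≤ C₀ ^ 2 := one_le_pow₀ hC₀1
    rw [hB]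
    nlinarith
  have hBpow : B ^ d ≤ (1 + d) ^ d * C₀ ^ (2 * d) := by
    calc B ^ d ≤ ((1 + d) * C₀ ^ 2) ^ d := pow_le_pow_left₀ (by linarith) hBC d
      _ = _ := by rw [mul_pow, ← pow_mul]
  have hε : 0 ≤ κ / M := by positivity
  have hpos : ∀ i, (N₂ i : ℝ) / M * |up i - ux i| ≤ B ^ d * (C₀ * (κ / M)) := by
    intro i
    have h1 := upos_lip hC₀1 hT huxm hupm hε (by
      intro i
      rw [cpt_triC_nchi hG, cpt_triC_nchi hG, hux, hup]
      show |cpt (nchi M N₂ G b₂) (rpos M N₂ G b₂ (bse px)) i -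
        cpt (nchi M N₂ G b₂) (rpos M N₂ G b₂ (bse x)) i| ≤ κ / M
      rw [nchi_rpos hM hN₂ hG, nchi_rpos hM hN₂ hG, abs_sub_comm]
      exact hnear (some i)) i
    refine h1.trans (mul_le_mul_of_nonneg_right ?_ (by positivity))
    exact pow_le_pow_right₀ hB1 i.2
  have h1 := mv_ucube a (fun i => Cg * C₀ * (H' + X) * (N₂ i / M)) hgrad huxm hupm
  have h2 : ∑ i, Cg * C₀ * (H' + X) * ((N₂ i : ℝ) / M) * |up i - ux i| ≤
      d * (Cg * C₀ * (H' + X) * (B ^ d * (C₀ * (κ / M)))) := by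
    calc ∑ i, Cg * C₀ * (H' + X) * ((N₂ i : ℝ) / M) * |up i - ux i| ≤
        ∑ _i : Fin d, Cg * C₀ * (H' + X) * (B ^ d * (C₀ * (κ / M))) := by
          refine Finset.sum_le_sum fun i _ => ?_
          rw [mul_assoc (Cg * C₀ * (H' + X))]
          exact mul_le_mul_of_nonneg_left (hpos i) (by
            have : 0 ≤ H' + X := by linarith
            have : 0 ≤ C₀ := by linarith
            positivity)
      _ = _ := by rw [Finset.sum_const, Finset.card_univ, Fintype.card_fin, nsmul_eq_mul]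
  have h3 := hnear none
  have e4 : px none - MvPolynomial.eval up a = (x none - MvPolynomial.eval ux a) -
      (x none - px none) - (MvPolynomial.eval up a - MvPolynomial.eval ux a) := by ring
  have h4 : |px none - MvPolynomial.eval up a| ≤ δ + κ / M +
      d * (Cg * C₀ * (H' + X) * (B ^ d * (C₀ * (κ / M)))) := by
    rw [e4]
    refine (abs_sub _ _).trans (add_le_add ?_ (h1.trans h2))
    exact (abs_sub _ _).trans (add_le_add hxa h3)
  refine h4.trans ?_
  have hC2 : C₀ ^ (2 * d) * (C₀ * C₀) = C₀ ^ (2 * d + 2) := by ring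
  have h5 : (1 : ℝ) ≤ C₀ ^ (2 * d + 2) := one_le_pow₀ hC₀1
  have h6 : d * (Cg * C₀ * (H' + X) * (B ^ d * (C₀ * (κ / M)))) ≤
      d * Cg * (1 + d) ^ d * C₀ ^ (2 * d + 2) * (H' + X) * (κ / M) := by
    have h7 : Cg * C₀ * (H' + X) * (B ^ d * (C₀ * (κ / M))) ≤
        Cg * C₀ * (H' + X) * ((1 + d) ^ d * C₀ ^ (2 * d) * (C₀ * (κ / M))) := by
      refine mul_le_mul_of_nonneg_left ?_ (by
        have : 0 ≤ H' + X := by linarith
        have : 0 ≤ C₀ := by linarith
        positivity)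
      exact mul_le_mul_of_nonneg_right hBpow (by positivity)
    calc d * (Cg * C₀ * (H' + X) * (B ^ d * (C₀ * (κ / M)))) ≤
        d * (Cg * C₀ * (H' + X) * ((1 + d) ^ d * C₀ ^ (2 * d) * (C₀ * (κ / M)))) :=
          mul_le_mul_of_nonneg_left h7 hd0
      _ = _ := by
          rw [← hC2]
          ring
  have h7 : κ / M ≤ (1 + Cg) * C₀ ^ (2 * d + 2) * (κ / M) := by
    have : 1 ≤ (1 + Cg) * C₀ ^ (2 * d + 2) := by nlinarith
    nlinarith
  have h8 : 0 ≤ C₀ ^ (2 * d + 2) * (κ / M) := by positivity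
  have h9 : 0 ≤ H' + X := by linarith
  have h10 : 0 ≤ d * Cg * (1 + (d : ℝ)) ^ d := by positivity
  have e5 : δ + C * C₀ ^ (2 * d + 2) * (1 + H' + X) * κ / M =
      δ + ((1 + Cg) * C₀ ^ (2 * d + 2) * (κ / M) + d * Cg * (1 + d) ^ d * C₀ ^ (2 * d + 2) *
        (H' + X) * (κ / M)) + ((1 + Cg) * (H' + X) * (C₀ ^ (2 * d + 2) * (κ / M)) +
          d * Cg * (1 + d) ^ d * (C₀ ^ (2 * d + 2) * (κ / M))) := by
    rw [hC]
    ring
  rw [e5]
  have h11 : 0 ≤ (1 + Cg) * (H' + X) * (C₀ ^ (2 * d + 2) * (κ / M)) :=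
    mul_nonneg (mul_nonneg (by linarith) h9) h8
  have h12 : 0 ≤ d * Cg * (1 + (d : ℝ)) ^ d * (C₀ ^ (2 * d + 2) * (κ / M)) :=
    mul_nonneg h10 h8
  linarith

end Pool.EXS
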