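import Mathlib

/-!
# Near-constancy of a polynomial around most points of a grid

`nc_count`: a nonzero polynomial of degree at most `K` in `k` variables is nearly constant on the
complex polydisc of radius `g / L` around all the points of the grid of mesh `1 / L` of the unit
cube but at most `C g L ^ (k - 1)`.
-/

set_option autoImplicit false

namespace Pool.EXS

open Finset

/-- The grid of mesh `1 / L` has few points near a given point. -/
lemma card_near (L : ℕ) (hL : 1 ≤ L) (s r : ℝ) (hr : 0 ≤ r) :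
    (((Finset.univ : Finset (Fin L)).filter (fun j : Fin L => |((j : ℕ) : ℝ) / L - s| < r)).card : ℝ) ≤
      2 * r * L + 1 := by
  classical
  have hL0 : (0 : ℝ) < L := by exact_mod_cast hL
  have h1 : ((Finset.univ : Finset (Fin L)).filter (fun j : Fin L => |((j : ℕ) : ℝ) / L - s| < r)).card ≤
      (Finset.Icc ⌈s * L - r * L⌉ ⌊s * L + r * L⌋).card := by
    refine Finset.card_le_card_of_injOn (fun j => ((j : ℕ) : ℤ)) ?_ ?_
    · intro j hj
      have h2 := (Finset.mem_filter.mp (Finset.mem_coe.mp hj)).2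
      rw [abs_lt] at h2
      have h3 : (j : ℝ) / L * L = j := by field_simp
      have h4 : ((j : ℝ) / L - s) * L < r * L := mul_lt_mul_of_pos_right h2.2 hL0
      have h5 : -r * L < ((j : ℝ) / L - s) * L := mul_lt_mul_of_pos_right h2.1 hL0
      simp only [Finset.coe_Icc, Set.mem_Icc]
      constructor
      · rw [Int.ceil_le]
        push_cast
        nlinarith
      · rw [Int.le_floor]
        push_cast
        nlinarith
    · intro a _ b _ hab
      simp only [Nat.cast_inj] at hab
      exact Fin.ext hab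
  rw [Int.card_Icc] at h1
  have h2 : ((⌊s * L + r * L⌋ + 1 - ⌈s * L - r * L⌉ : ℤ) : ℝ) ≤ 2 * r * L + 1 := by
    push_cast
    have a1 := Int.floor_le (s * L + r * L)
    have a2 := Int.le_ceil (s * L - r * L)
    linarith
  have h3 : (((⌊s * L + r * L⌋ + 1 - ⌈s * L - r * L⌉).toNat : ℕ) : ℝ) ≤ 2 * r * L + 1 := by
    rcases le_or_gt 0 (⌊s * L + r * L⌋ + 1 - ⌈s * L - r * L⌉) with h | h
    · have : (((⌊s * L + r * L⌋ + 1 - ⌈s * L - r * L⌉).toNat : ℤ) : ℝ) ≤ 2 * r * L + 1 := by
        rw [Int.toNat_of_nonneg h]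
        exact h2
      exact_mod_cast this
    · rw [Int.toNat_of_nonpos h.le]
      have : 0 ≤ 2 * r * L := by positivity
      push_cast
      linarith
  exact le_trans (by exact_mod_cast h1) h3

/-- Far from the roots the logarithmic derivative is small. -/
lemma log_deriv {p : Polynomial ℝ} (hp : p ≠ 0) {K : ℕ} (hK : p.natDegree ≤ K) {x r : ℝ}
    (hr : 0 < r) (h : ∀ ζ ∈ (p.map (algebraMap ℝ ℂ)).roots, r ≤ ‖(x : ℂ) - ζ‖) :
    p.eval x ≠ 0 ∧ r * |p.derivative.eval x| ≤ K * |p.eval x| := by
  have hmap : p.map (algebraMap ℝ ℂ) ≠ 0 := by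
    rwa [Ne, Polynomial.map_eq_zero]
  have hev : ∀ q : Polynomial ℝ, (q.map (algebraMap ℝ ℂ)).eval (x : ℂ) = ((q.eval x : ℝ) : ℂ) := by
    intro q
    have := Polynomial.eval_map_algebraMap (R := ℝ) (B := ℂ) q (x : ℂ)
    rw [this]
    have h2 := Polynomial.aeval_algebraMap_apply ℂ x q
    simpa using h2
  have hx : p.eval x ≠ 0 := by
    intro h0
    have h1 : (x : ℂ) ∈ (p.map (algebraMap ℝ ℂ)).roots := by
      rw [Polynomial.mem_roots hmap, Polynomial.IsRoot.def, hev, h0]
      simp
    have h2 := h _ h1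
    rw [sub_self, norm_zero] at h2
    linarith
  refine ⟨hx, ?_⟩
  have hxc : (p.map (algebraMap ℝ ℂ)).eval (x : ℂ) ≠ 0 := by
    rw [hev]
    exact_mod_cast hx
  have h1 := (IsAlgClosed.splits (p.map (algebraMap ℝ ℂ))).eval_derivative_div_eval_of_ne_zero hxc
  rw [Polynomial.derivative_map, hev, hev] at h1
  have h2 : ‖((p.map (algebraMap ℝ ℂ)).roots.map fun z => 1 / ((x : ℂ) - z)).sum‖ ≤ K * (1 / r) := by
    have a1 : ‖((p.map (algebraMap ℝ ℂ)).roots.map fun z => 1 / ((x : ℂ) - z)).sum‖ ≤
        (((p.map (algebraMap ℝ ℂ)).roots.map fun z => 1 / ((x : ℂ) - z)).map norm).sum :=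
      norm_multiset_sum_le _
    refine a1.trans ?_
    rw [Multiset.map_map]
    have a2 : ((p.map (algebraMap ℝ ℂ)).roots.map (norm ∘ fun z => 1 / ((x : ℂ) - z))).sum ≤
        (Multiset.card ((p.map (algebraMap ℝ ℂ)).roots.map
          (norm ∘ fun z => 1 / ((x : ℂ) - z)))) • (1 / r) := by
      refine Multiset.sum_le_card_nsmul _ _ ?_
      intro y hy
      obtain ⟨z, hz, rfl⟩ := Multiset.mem_map.mp hy
      simp only [Function.comp_apply, norm_div, norm_one]
      exact one_div_le_one_div_of_le hr (h z hz)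
    refine a2.trans ?_
    rw [Multiset.card_map, nsmul_eq_mul]
    refine mul_le_mul_of_nonneg_right ?_ (by positivity)
    have a3 := Polynomial.card_roots' (p.map (algebraMap ℝ ℂ))
    rw [Polynomial.natDegree_map] at a3
    exact_mod_cast a3.trans hK
  rw [← h1, norm_div] at h2
  simp only [Complex.norm_real, Real.norm_eq_abs] at h2
  have h3 : 0 < |p.eval x| := abs_pos.mpr hx
  rw [div_le_iff₀ h3] at h2
  calc r * |p.derivative.eval x| ≤ r * (K * (1 / r) * |p.eval x|) :=
        mul_le_mul_of_nonneg_left h2 hr.le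
    _ = K * |p.eval x| := by field_simp

/-- Count of the bad points of a line. -/
lemma uni_count {p : Polynomial ℝ} (hp : p ≠ 0) {K : ℕ} (hK : p.natDegree ≤ K) (L : ℕ)
    (hL : 1 ≤ L) {r : ℝ} (hr : 0 < r) :
    (((Finset.univ : Finset (Fin L)).filter (fun j : Fin L =>
      ¬ (p.eval (((j : ℕ) : ℝ) / L) ≠ 0 ∧ r * |p.derivative.eval (((j : ℕ) : ℝ) / L)| ≤
        K * |p.eval (((j : ℕ) : ℝ) / L)|))).card : ℝ) ≤ K * (2 * r * L + 1) := by
  classical
  set Z := (p.map (algebraMap ℝ ℂ)).roots.toFinset with hZ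
  have h1 : ((Finset.univ : Finset (Fin L)).filter (fun j : Fin L =>
      ¬ (p.eval (((j : ℕ) : ℝ) / L) ≠ 0 ∧ r * |p.derivative.eval (((j : ℕ) : ℝ) / L)| ≤
        K * |p.eval (((j : ℕ) : ℝ) / L)|))) ⊆
      Z.biUnion (fun ζ => (Finset.univ : Finset (Fin L)).filter
        (fun j : Fin L => |((j : ℕ) : ℝ) / L - ζ.re| < r)) := by
    intro j hj
    have h2 := (Finset.mem_filter.mp hj).2
    by_contra hcon
    refine h2 (log_deriv hp hK hr ?_)
    intro ζ hζ
    by_contra hlt
    push Not at hlt
    refine hcon (Finset.mem_biUnion.mpr ⟨ζ, Multiset.mem_toFinset.mpr hζ, ?_⟩)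
    refine Finset.mem_filter.mpr ⟨Finset.mem_univ _, ?_⟩
    refine lt_of_le_of_lt ?_ hlt
    have := Complex.abs_re_le_norm ((((j : ℝ) / L : ℝ) : ℂ) - ζ)
    simpa using this
  have h2 := (Finset.card_le_card h1).trans Finset.card_biUnion_le
  have h3 : ((∑ ζ ∈ Z, ((Finset.univ : Finset (Fin L)).filter
        (fun j : Fin L => |((j : ℕ) : ℝ) / L - ζ.re| < r)).card : ℕ) : ℝ) ≤ K * (2 * r * L + 1) := by
    push_cast
    have h4 : ∀ ζ ∈ Z, (((Finset.univ : Finset (Fin L)).filter
        (fun j : Fin L => |((j : ℕ) : ℝ) / L - ζ.re| < r)).card : ℝ) ≤ 2 * r * L + 1 :=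
      fun ζ _ => card_near L hL ζ.re r hr.le
    refine (Finset.sum_le_sum h4).trans ?_
    rw [Finset.sum_const, nsmul_eq_mul]
    refine mul_le_mul_of_nonneg_right ?_ (by positivity)
    have a3 := Polynomial.card_roots' (p.map (algebraMap ℝ ℂ))
    rw [Polynomial.natDegree_map] at a3
    have a4 := Multiset.toFinset_card_le (p.map (algebraMap ℝ ℂ)).roots
    exact_mod_cast (a4.trans a3).trans hK
  exact le_trans (by exact_mod_cast h2) h3

/-- The points of the grid. -/
noncomputable def gp {k : ℕ} (L : ℕ) (c : Fin k → Fin L) : Fin k → ℝ :=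
  fun i => ((c i : ℕ) : ℝ) / L

/-- The zeros on the grid. -/
lemma sz_count {k : ℕ} {P : MvPolynomial (Fin k) ℝ} (hP : P ≠ 0) {K : ℕ} (hK : P.totalDegree ≤ K)
    (L : ℕ) (hL : 1 ≤ L) :
    (((Finset.univ : Finset (Fin k → Fin L)).filter
      (fun c => MvPolynomial.eval (gp L c) P = 0)).card : ℝ) * L ≤ K * (L : ℝ) ^ k := by
  classical
  have hL0 : (0 : ℝ) < L := by exact_mod_cast hL
  set S : Finset ℝ := (Finset.univ : Finset (Fin L)).image
    (fun j : Fin L => ((j : ℕ) : ℝ) / L) with hS
  have hinj : Function.Injective (fun j : Fin L => ((j : ℕ) : ℝ) / L) := by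
    intro a b hab
    simp only at hab
    rw [div_left_inj' hL0.ne'] at hab
    exact Fin.ext (by exact_mod_cast hab)
  have hSc : S.card = L := by
    rw [hS, Finset.card_image_of_injective _ hinj, Finset.card_univ, Fintype.card_fin]
  have h1 := MvPolynomial.schwartz_zippel_totalDegree hP S
  rw [hSc] at h1
  have h2 : ((Finset.univ : Finset (Fin k → Fin L)).filter
      (fun c => MvPolynomial.eval (gp L c) P = 0)).card ≤
      ((Fintype.piFinset fun _ => S).filter (fun f => MvPolynomial.eval f P = 0)).card := by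
    refine Finset.card_le_card_of_injOn (fun c => gp L c) ?_ ?_
    · intro c hc
      refine Finset.mem_coe.mpr (Finset.mem_filter.mpr ⟨?_, (Finset.mem_filter.mp
        (Finset.mem_coe.mp hc)).2⟩)
      rw [Fintype.mem_piFinset]
      intro i
      exact Finset.mem_image.mpr ⟨c i, Finset.mem_univ _, rfl⟩
    · intro a _ b _ hab
      funext i
      exact hinj (congrFun hab i)
  have h3 : ((((Fintype.piFinset fun _ => S).filter
      (fun f => MvPolynomial.eval f P = 0)).card : ℝ)) / (L : ℝ) ^ k ≤ (P.totalDegree : ℝ) / L := by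
    have h1' := (NNRat.cast_le (K := ℝ)).mpr h1
    push_cast at h1'
    exact h1'
  have h4 : ((((Fintype.piFinset fun _ => S).filter
      (fun f => MvPolynomial.eval f P = 0)).card : ℝ)) * L ≤ P.totalDegree * (L : ℝ) ^ k := by
    rw [div_le_div_iff₀ (by positivity) hL0] at h3
    exact h3
  have h5 : (P.totalDegree : ℝ) ≤ K := by exact_mod_cast hK
  calc _ ≤ ((((Fintype.piFinset fun _ => S).filter
        (fun f => MvPolynomial.eval f P = 0)).card : ℝ)) * L :=
        mul_le_mul_of_nonneg_right (by exact_mod_cast h2) hL0.le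
    _ ≤ P.totalDegree * (L : ℝ) ^ k := h4
    _ ≤ K * (L : ℝ) ^ k := mul_le_mul_of_nonneg_right h5 (by positivity)

/-- The restriction to a line parallel to an axis. -/
noncomputable def ln {k : ℕ} (v : Fin k → ℝ) (i : Fin k) (P : MvPolynomial (Fin k) ℝ) :
    Polynomial ℝ :=
  MvPolynomial.aeval (fun j => if j = i then Polynomial.X else Polynomial.C (v j)) P

lemma eval_ln {k : ℕ} (v : Fin k → ℝ) (i : Fin k) (P : MvPolynomial (Fin k) ℝ) (x : ℝ) :
    (ln v i P).eval x = MvPolynomial.eval (Function.update v i x) P := by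
  unfold ln
  have h1 : (Polynomial.evalRingHom x).comp ((MvPolynomial.aeval (fun j => if j = i then
      (Polynomial.X : Polynomial ℝ) else Polynomial.C (v j)) :
      MvPolynomial (Fin k) ℝ →ₐ[ℝ] Polynomial ℝ) : MvPolynomial (Fin k) ℝ →+* Polynomial ℝ) =
      MvPolynomial.eval (Function.update v i x) := by
    refine MvPolynomial.ringHom_ext ?_ ?_
    · intro r
      simp
    · intro j
      by_cases hj : j = i
      · subst hj
        simp
      · simp [hj]
  exact congrArg (fun f : MvPolynomial (Fin k) ℝ →+* ℝ => f P) h1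

lemma deriv_ln {k : ℕ} (v : Fin k → ℝ) (i : Fin k) (P : MvPolynomial (Fin k) ℝ) :
    Polynomial.derivative (ln v i P) = ln v i (MvPolynomial.pderiv i P) := by
  induction P using MvPolynomial.induction_on with
  | C a => simp [ln]
  | add p q hp hq =>
    unfold ln at *
    rw [map_add, map_add, map_add, map_add, hp, hq]
  | mul_X p j hp =>
    unfold ln at *
    rw [map_mul, Polynomial.derivative_mul, hp, Derivation.leibniz, map_add, smul_eq_mul,
      smul_eq_mul, map_mul, map_mul, MvPolynomial.aeval_X, MvPolynomial.pderiv_X]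
    by_cases hj : j = i
    · subst hj
      simp
      ring
    · simp [hj, Pi.single_apply]
      ring

lemma natDegree_ln {k : ℕ} (v : Fin k → ℝ) (i : Fin k) (P : MvPolynomial (Fin k) ℝ) :
    (ln v i P).natDegree ≤ P.totalDegree := by
  unfold ln
  rw [MvPolynomial.aeval_def, MvPolynomial.eval₂_eq]
  refine Polynomial.natDegree_sum_le_of_forall_le _ _ ?_
  intro m hm
  refine (Polynomial.natDegree_mul_le).trans ?_
  have h1 : ((algebraMap ℝ (Polynomial ℝ)) (MvPolynomial.coeff m P)).natDegree = 0 := by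
    rw [Polynomial.algebraMap_eq]
    exact Polynomial.natDegree_C _
  rw [h1, zero_add]
  refine (Polynomial.natDegree_prod_le _ _).trans ?_
  have h2 : ∀ j ∈ m.support, ((if j = i then (Polynomial.X : Polynomial ℝ) else
      Polynomial.C (v j)) ^ m j).natDegree ≤ m j := by
    intro j _
    refine (Polynomial.natDegree_pow_le).trans ?_
    split_ifs
    · rw [Polynomial.natDegree_X, mul_one]
    · rw [Polynomial.natDegree_C, mul_zero]
      exact Nat.zero_le _
  refine (Finset.sum_le_sum h2).trans ?_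
  exact MvPolynomial.le_totalDegree hm

/-- Count of the points of the grid where the logarithmic derivative in one direction is large. -/
lemma dir_count {k : ℕ} {P : MvPolynomial (Fin k) ℝ} (hP : P ≠ 0) {K : ℕ}
    (hK : P.totalDegree ≤ K) (i : Fin k) (L : ℕ) (hL : 1 ≤ L) {r : ℝ} (hr : 0 < r) :
    (((Finset.univ : Finset (Fin k → Fin L)).filter
      (fun c => ¬ (MvPolynomial.eval (gp L c) P ≠ 0 ∧
        r * |MvPolynomial.eval (gp L c) (MvPolynomial.pderiv i P)| ≤
          K * |MvPolynomial.eval (gp L c) P|))).card : ℝ) * L ≤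
      K * (2 * r * L + 2) * (L : ℝ) ^ k := by
  classical
  have hL0 : (0 : ℝ) < L := by exact_mod_cast hL
  set good : (Fin k → Fin L) → Prop := fun c =>
    r * |MvPolynomial.eval (gp L c) (MvPolynomial.pderiv i P)| ≤
          K * |MvPolynomial.eval (gp L c) P| with hgood
  have h1 : (Finset.univ : Finset (Fin k → Fin L)).filter
      (fun c => ¬ (MvPolynomial.eval (gp L c) P ≠ 0 ∧ good c)) ⊆
      (Finset.univ : Finset (Fin k → Fin L)).filter
        (fun c => MvPolynomial.eval (gp L c) P = 0) ∪
      (Finset.univ : Finset (Fin k → Fin L)).filter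
        (fun c => MvPolynomial.eval (gp L c) P ≠ 0 ∧ ¬ good c) := by
    intro c hc
    have h2 := (Finset.mem_filter.mp hc).2
    by_cases h0 : MvPolynomial.eval (gp L c) P = 0
    · exact Finset.mem_union_left _ (Finset.mem_filter.mpr ⟨Finset.mem_univ _, h0⟩)
    · refine Finset.mem_union_right _ (Finset.mem_filter.mpr ⟨Finset.mem_univ _, h0, ?_⟩)
      exact fun h3 => h2 ⟨h0, h3⟩
  have h2 : (((Finset.univ : Finset (Fin k → Fin L)).filter
        (fun c => MvPolynomial.eval (gp L c) P ≠ 0 ∧ ¬ good c)).card : ℝ) * L ≤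
      K * (2 * r * L + 1) * (L : ℝ) ^ k := by
    set B := (Finset.univ : Finset (Fin k → Fin L)).filter
        (fun c => MvPolynomial.eval (gp L c) P ≠ 0 ∧ ¬ good c) with hB
    set f : (Fin k → Fin L) → ({j // j ≠ i} → Fin L) := fun c j => c j with hf
    have h3 : (B.card : ℝ) ≤ ∑ b ∈ (Finset.univ : Finset ({j // j ≠ i} → Fin L)),
        K * (2 * r * L + 1) := by
      rw [Finset.card_eq_sum_card_fiberwise (f := f) (t := Finset.univ)
        (fun x _ => Finset.mem_coe.mpr (Finset.mem_univ _))]
      push_cast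
      refine Finset.sum_le_sum fun b _ => ?_
      rcases (B.filter (fun c => f c = b)).eq_empty_or_nonempty with he | hne
      · rw [he]
        simp only [Finset.card_empty, Nat.cast_zero]
        positivity
      · obtain ⟨c₀, hc₀⟩ := hne
        obtain ⟨hc₀B, hc₀b⟩ := Finset.mem_filter.mp hc₀
        have hc₀P := (Finset.mem_filter.mp hc₀B).2.1
        have hcn : ∀ c, f c = b → gp L c = Function.update (gp L c₀) i (((c i : ℕ) : ℝ) / L) := by
          intro c hc
          funext j
          by_cases hj : j = i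
          · subst hj
            simp [gp]
          · rw [Function.update_of_ne hj]
            have h4 : f c ⟨j, hj⟩ = f c₀ ⟨j, hj⟩ := by rw [hc, hc₀b]
            have h5 : c j = c₀ j := h4
            simp only [gp, h5]
        have hp0 : ln (gp L c₀) i P ≠ 0 := by
          intro h4
          apply hc₀P
          have h5 := eval_ln (gp L c₀) i P (((c₀ i : ℕ) : ℝ) / L)
          rw [h4, Polynomial.eval_zero] at h5
          rw [hcn c₀ hc₀b, ← h5]
        refine le_trans ?_ (uni_count hp0 ((natDegree_ln _ _ _).trans hK) L hL hr)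
        have h6 : (B.filter (fun c => f c = b)).card ≤ ((Finset.univ : Finset (Fin L)).filter
            (fun j : Fin L => ¬ ((ln (gp L c₀) i P).eval (((j : ℕ) : ℝ) / L) ≠ 0 ∧
            r * |(ln (gp L c₀) i P).derivative.eval (((j : ℕ) : ℝ) / L)| ≤
              K * |(ln (gp L c₀) i P).eval (((j : ℕ) : ℝ) / L)|))).card := by
          refine Finset.card_le_card_of_injOn (fun c => c i) ?_ ?_
          · intro c hc
            obtain ⟨hcB, hcb⟩ := Finset.mem_filter.mp (Finset.mem_coe.mp hc)
            refine Finset.mem_coe.mpr (Finset.mem_filter.mpr ⟨Finset.mem_univ _, ?_⟩)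
            rw [deriv_ln, eval_ln, eval_ln, ← hcn c hcb]
            intro h7
            exact (Finset.mem_filter.mp hcB).2.2 h7.2
          · intro c hc c' hc' hcc
            obtain ⟨_, hcb⟩ := Finset.mem_filter.mp (Finset.mem_coe.mp hc)
            obtain ⟨_, hcb'⟩ := Finset.mem_filter.mp (Finset.mem_coe.mp hc')
            funext j
            by_cases hj : j = i
            · rw [hj]
              exact hcc
            · have h4 : f c ⟨j, hj⟩ = f c' ⟨j, hj⟩ := by rw [hcb, hcb']
              exact h4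
        exact_mod_cast h6
    rw [Finset.sum_const, nsmul_eq_mul, Finset.card_univ] at h3
    have h4 : ((Fintype.card ({j // j ≠ i} → Fin L) : ℕ) : ℝ) * L = (L : ℝ) ^ k := by
      have h5 := Fintype.card_congr (Equiv.funSplitAt i (Fin L))
      rw [Fintype.card_prod, Fintype.card_fun, Fintype.card_fin, Fintype.card_fin] at h5
      have h6 : ((L ^ k : ℕ) : ℝ) = ((L * Fintype.card ({j // j ≠ i} → Fin L) : ℕ) : ℝ) := by
        rw [h5]
      push_cast at h6 ⊢
      rw [h6]
      ring
    calc (B.card : ℝ) * L ≤ (Fintype.card ({j // j ≠ i} → Fin L) : ℝ) *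
          (K * (2 * r * L + 1)) * L := mul_le_mul_of_nonneg_right h3 hL0.le
      _ = K * (2 * r * L + 1) * ((Fintype.card ({j // j ≠ i} → Fin L) : ℝ) * L) := by ring
      _ = _ := by rw [h4]
  have h3 := sz_count hP hK L hL
  have h4 := (Finset.card_le_card h1).trans (Finset.card_union_le _ _)
  have h5 : (((Finset.univ : Finset (Fin k → Fin L)).filter
      (fun c => ¬ (MvPolynomial.eval (gp L c) P ≠ 0 ∧ good c))).card : ℝ) ≤
      (((Finset.univ : Finset (Fin k → Fin L)).filter
        (fun c => MvPolynomial.eval (gp L c) P = 0)).card : ℝ) +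
      (((Finset.univ : Finset (Fin k → Fin L)).filter
        (fun c => MvPolynomial.eval (gp L c) P ≠ 0 ∧ ¬ good c)).card : ℝ) := by
    exact_mod_cast h4
  calc _ ≤ ((((Finset.univ : Finset (Fin k → Fin L)).filter
        (fun c => MvPolynomial.eval (gp L c) P = 0)).card : ℝ) +
      (((Finset.univ : Finset (Fin k → Fin L)).filter
        (fun c => MvPolynomial.eval (gp L c) P ≠ 0 ∧ ¬ good c)).card : ℝ)) * L :=
        mul_le_mul_of_nonneg_right h5 hL0.le
    _ ≤ K * (L : ℝ) ^ k + K * (2 * r * L + 1) * (L : ℝ) ^ k := by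
        rw [add_mul]
        exact add_le_add h3 h2
    _ = _ := by ring

/-- The degree drops. -/
lemma tdeg_pd {σ : Type*} (i : σ) (P : MvPolynomial σ ℝ) :
    (MvPolynomial.pderiv i P).totalDegree ≤ P.totalDegree - 1 := by
  classical
  refine Finset.sup_le fun s hs => ?_
  rw [MvPolynomial.mem_support_iff, MvPolynomial.coeff_pderiv] at hs
  have h1 : MvPolynomial.coeff (s + Finsupp.single i 1) P ≠ 0 := fun h0 =>
    hs (by rw [h0, zero_mul])
  have h2 := MvPolynomial.le_totalDegree (MvPolynomial.mem_support_iff.2 h1)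
  have h3 : (s.sum fun _ e => e) + 1 = ((s + Finsupp.single i 1).sum fun _ e => e) := by
    rw [Finsupp.sum_add_index' (fun _ => rfl) (fun _ _ _ => rfl), Finsupp.sum_single_index rfl]
  omega

/-- Iterated partial derivatives. -/
noncomputable def pdl {k : ℕ} (l : List (Fin k)) (P : MvPolynomial (Fin k) ℝ) :
    MvPolynomial (Fin k) ℝ := l.foldr (fun i Q => MvPolynomial.pderiv i Q) P

@[simp] lemma pdl_nil {k : ℕ} (P : MvPolynomial (Fin k) ℝ) : pdl [] P = P := rfl

@[simp] lemma pdl_cons {k : ℕ} (i : Fin k) (l : List (Fin k)) (P : MvPolynomial (Fin k) ℝ) :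
    pdl (i :: l) P = MvPolynomial.pderiv i (pdl l P) := rfl

lemma pdl_append {k : ℕ} (l l' : List (Fin k)) (P : MvPolynomial (Fin k) ℝ) :
    pdl (l ++ l') P = pdl l (pdl l' P) := by
  unfold pdl
  rw [List.foldr_append]

lemma pdl_deg {k : ℕ} (l : List (Fin k)) (P : MvPolynomial (Fin k) ℝ) :
    (pdl l P).totalDegree ≤ P.totalDegree := by
  induction l with
  | nil => exact le_rfl
  | cons i l ih =>
    rw [pdl_cons]
    exact ((tdeg_pd i _).trans (Nat.sub_le _ _)).trans ih

/-- The point of the complex polydisc. -/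
noncomputable def cev {k : ℕ} (z : Fin k → ℝ) (y : Fin k → ℂ) (P : MvPolynomial (Fin k) ℝ) : ℂ :=
  MvPolynomial.aeval (fun i => ((z i : ℝ) : ℂ) + y i) P

lemma cev_zero {k : ℕ} (z : Fin k → ℝ) (P : MvPolynomial (Fin k) ℝ) :
    cev z (fun _ => 0) P = ((MvPolynomial.eval z P : ℝ) : ℂ) := by
  unfold cev
  simp only [add_zero]
  exact MvPolynomial.aeval_algebraMap_apply ℂ z P

lemma hasDerivAt_cev {k : ℕ} (z : Fin k → ℝ) (y : Fin k → ℂ) (P : MvPolynomial (Fin k) ℝ)
    (s : ℝ) : HasDerivAt (fun s : ℝ => cev z (fun i => (s : ℂ) * y i) P)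
      (∑ i, y i * cev z (fun i => (s : ℂ) * y i) (MvPolynomial.pderiv i P)) s := by
  induction P using MvPolynomial.induction_on with
  | C a =>
    simp only [cev, MvPolynomial.algHom_C, MvPolynomial.pderiv_C, map_zero, mul_zero,
      Finset.sum_const_zero]
    exact hasDerivAt_const _ _
  | add p q hp hq =>
    have h1 := hp.add hq
    refine (h1.congr_deriv ?_).congr_of_eventuallyEq ?_
    · rw [← Finset.sum_add_distrib]
      refine Finset.sum_congr rfl fun i _ => ?_
      simp only [cev, map_add]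
      ring
    · refine Filter.Eventually.of_forall fun s => ?_
      simp [cev]
  | mul_X p j hp =>
    have h2 : HasDerivAt (fun s : ℝ => ((z j : ℝ) : ℂ) + (s : ℂ) * y j) (y j) s := by
      have h3 : HasDerivAt (fun s : ℝ => (s : ℂ)) 1 s := Complex.ofRealCLM.hasDerivAt
      have h4 := (h3.mul_const (y j)).const_add ((z j : ℝ) : ℂ)
      simpa using h4
    have h1 := hp.mul h2
    refine (h1.congr_deriv ?_).congr_of_eventuallyEq ?_
    · have e1 : ∀ i, y i * cev z (fun i => (s : ℂ) * y i) (MvPolynomial.pderiv i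
          (p * MvPolynomial.X j)) =
          y i * cev z (fun i => (s : ℂ) * y i) (MvPolynomial.pderiv i p) *
            (((z j : ℝ) : ℂ) + (s : ℂ) * y j) +
          (if i = j then cev z (fun i => (s : ℂ) * y i) p * y j else 0) := by
        intro i
        simp only [cev]
        rw [Derivation.leibniz, map_add, smul_eq_mul, smul_eq_mul, map_mul, map_mul,
          MvPolynomial.aeval_X, MvPolynomial.pderiv_X]
        by_cases hij : i = j
        · subst hij
          simp
          ring
        · have hji : j ≠ i := fun h => hij h.symm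
          simp [hij, Pi.single_apply, hji]
          ring
      rw [Finset.sum_congr rfl fun i _ => e1 i, Finset.sum_add_distrib, ← Finset.sum_mul,
        Finset.sum_ite_eq' Finset.univ j]
      simp
    · refine Filter.Eventually.of_forall fun s => ?_
      simp [cev]

/-- A polynomial with small derivatives is bounded on the polydisc. -/
lemma cev_bound {k : ℕ} {z : Fin k → ℝ} {a q : ℝ} (ha : 0 ≤ a) (hq : 0 ≤ q) :
    ∀ (n : ℕ) (P : MvPolynomial (Fin k) ℝ) (A : ℝ), 0 ≤ A → P.totalDegree ≤ n →
      (∀ l : List (Fin k), l.length ≤ n → |MvPolynomial.eval z (pdl l P)| ≤ A * q ^ l.length) →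
      ∀ y : Fin k → ℂ, (∀ i, ‖y i‖ ≤ a) →
        ‖cev z y P‖ ≤ A * (1 + k * (a * q)) ^ n ∧
        (∀ m, n = m + 1 → ‖cev z y P - ((MvPolynomial.eval z P : ℝ) : ℂ)‖ ≤
          A * (k * (a * q)) * (1 + k * (a * q)) ^ m) := by
  intro n
  induction n with
  | zero =>
    intro P A hA hP hl y hy
    refine ⟨?_, fun m hm => absurd hm (by omega)⟩
    rw [Nat.le_zero, MvPolynomial.totalDegree_eq_zero_iff_eq_C] at hP
    rw [hP]
    have h1 := hl [] (by simp)
    rw [pdl_nil, hP] at h1
    simp only [cev, MvPolynomial.algHom_C]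
    simpa using h1
  | succ n ih =>
    intro P A hA hP hl y hy
    have hd : ‖cev z y P - ((MvPolynomial.eval z P : ℝ) : ℂ)‖ ≤
          A * (k * (a * q)) * (1 + k * (a * q)) ^ n := by
      have h1 : ∀ s ∈ Set.Icc (0 : ℝ) 1, HasDerivWithinAt
          (fun s : ℝ => cev z (fun i => (s : ℂ) * y i) P)
          (∑ i, y i * cev z (fun i => (s : ℂ) * y i) (MvPolynomial.pderiv i P))
          (Set.Icc 0 1) s := fun s _ => (hasDerivAt_cev z y P s).hasDerivWithinAt
      have h2 : ∀ s ∈ Set.Ico (0 : ℝ) 1,
          ‖∑ i, y i * cev z (fun i => (s : ℂ) * y i) (MvPolynomial.pderiv i P)‖ ≤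
          A * (k * (a * q)) * (1 + k * (a * q)) ^ n := by
        intro s hs
        refine (norm_sum_le _ _).trans ?_
        have h3 : ∀ i ∈ (Finset.univ : Finset (Fin k)),
            ‖y i * cev z (fun i => (s : ℂ) * y i) (MvPolynomial.pderiv i P)‖ ≤
            a * (A * q * (1 + k * (a * q)) ^ n) := by
          intro i _
          rw [norm_mul]
          refine mul_le_mul (hy i) ?_ (norm_nonneg _) ha
          refine (ih (MvPolynomial.pderiv i P) (A * q) (by positivity) ?_ ?_
            (fun i => (s : ℂ) * y i) ?_).1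
          · have := tdeg_pd i P
            omega
          · intro l hll
            have h4 := hl (l ++ [i]) (by simp; omega)
            rw [pdl_append, pdl_cons, pdl_nil] at h4
            refine h4.trans (le_of_eq ?_)
            simp only [List.length_append, List.length_cons, List.length_nil]
            ring
          · intro j
            rw [norm_mul, Complex.norm_real, Real.norm_eq_abs, abs_of_nonneg hs.1]
            calc s * ‖y j‖ ≤ 1 * ‖y j‖ := mul_le_mul_of_nonneg_right hs.2.le (norm_nonneg _)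
              _ ≤ a := by rw [one_mul]; exact hy j
        refine (Finset.sum_le_sum h3).trans (le_of_eq ?_)
        rw [Finset.sum_const, Finset.card_univ, Fintype.card_fin, nsmul_eq_mul]
        ring
      have h5 := norm_image_sub_le_of_norm_deriv_le_segment_01' h1 h2
      simp only [Complex.ofReal_one, one_mul, Complex.ofReal_zero, zero_mul] at h5
      rw [cev_zero] at h5
      exact h5
    refine ⟨?_, ?_⟩
    · have h1 := hl [] (by simp)
      rw [pdl_nil] at h1
      simp only [List.length_nil, pow_zero, mul_one] at h1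
      have h6 : ‖cev z y P‖ ≤ ‖cev z y P - ((MvPolynomial.eval z P : ℝ) : ℂ)‖ +
          ‖((MvPolynomial.eval z P : ℝ) : ℂ)‖ := by
        have := norm_add_le (cev z y P - ((MvPolynomial.eval z P : ℝ) : ℂ))
          ((MvPolynomial.eval z P : ℝ) : ℂ)
        simpa using this
      rw [Complex.norm_real, Real.norm_eq_abs] at h6
      have h7 : (1 : ℝ) ≤ (1 + k * (a * q)) ^ n := one_le_pow₀ (by
        have : 0 ≤ k * (a * q) := by positivity
        linarith)
      calc ‖cev z y P‖ ≤ A * (k * (a * q)) * (1 + k * (a * q)) ^ n + A * 1 := by linarith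
        _ ≤ A * (k * (a * q)) * (1 + k * (a * q)) ^ n + A * (1 + k * (a * q)) ^ n := by
            have := mul_le_mul_of_nonneg_left h7 hA
            linarith
        _ = _ := by ring
    · intro m hm
      have : m = n := by omega
      rw [this]
      exact hd

/-- Near-constancy on the complex polydisc of radius `a` around `z`. -/
def NC {k : ℕ} (ε a : ℝ) (z : Fin k → ℝ) (P : MvPolynomial (Fin k) ℝ) : Prop :=
  MvPolynomial.eval z P ≠ 0 ∧ ∀ y : Fin k → ℂ, (∀ i, ‖y i‖ ≤ a) →
    ‖cev z y P - ((MvPolynomial.eval z P : ℝ) : ℂ)‖ ≤ ε * |MvPolynomial.eval z P|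

/-- **Near-constancy around most points of the grid.** -/
theorem nc_count (k K : ℕ) (ε : ℝ) (hε : 0 < ε) : ∃ C : ℝ, 1 ≤ C ∧
    ∀ P : MvPolynomial (Fin k) ℝ, P ≠ 0 → P.totalDegree ≤ K → ∀ (L : ℕ) (g : ℝ), 1 ≤ L → 1 ≤ g →
      ∃ B : Finset (Fin k → Fin L), (B.card : ℝ) * L ≤ C * g * (L : ℝ) ^ k ∧
        ∀ c, c ∉ B → NC ε (g / L) (gp L c) P := by
  classical
  -- the ratio `q = K / r`, `r = A g / L`
  set A : ℝ := (K + 1) * (1 + k * 2 ^ (K + 1) * (1 + 1 / ε)) with hA
  have hA1 : 1 ≤ A := by
    have h1 : (0 : ℝ) ≤ K := Nat.cast_nonneg K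
    have h2 : 0 ≤ k * 2 ^ (K + 1) * (1 + 1 / ε) := by positivity
    rw [hA]
    nlinarith
  set N : ℝ := ((Finset.range (K + 1)).sum (fun n => (k : ℝ) ^ n * k) + 1) with hN
  have hN0 : 0 ≤ (Finset.range (K + 1)).sum (fun n => (k : ℝ) ^ n * k) :=
    Finset.sum_nonneg fun n _ => by positivity
  refine ⟨N * (K * (2 * A + 2) + K + 1), ?_, ?_⟩
  · have h1 : (1 : ℝ) ≤ K * (2 * A + 2) + K + 1 := by
      have : (0 : ℝ) ≤ K * (2 * A + 2) := by positivity
      have : (0 : ℝ) ≤ K := Nat.cast_nonneg K
      linarith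
    have h2 : (1 : ℝ) ≤ N := by linarith
    nlinarith
  intro P hP hK L g hL hg
  have hL0 : (0 : ℝ) < L := by exact_mod_cast hL
  have hg0 : 0 < g := by linarith
  set r : ℝ := A * g / L with hr
  have hr0 : 0 < r := by positivity
  -- the bad sets
  set bad : (Q : MvPolynomial (Fin k) ℝ) → Fin k → Finset (Fin k → Fin L) := fun Q i =>
    if Q = 0 then ∅ else (Finset.univ : Finset (Fin k → Fin L)).filter
      (fun c => ¬ (MvPolynomial.eval (gp L c) Q ≠ 0 ∧
        r * |MvPolynomial.eval (gp L c) (MvPolynomial.pderiv i Q)| ≤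
          K * |MvPolynomial.eval (gp L c) Q|)) with hbad
  have hbadc : ∀ Q : MvPolynomial (Fin k) ℝ, Q.totalDegree ≤ K → ∀ i,
      ((bad Q i).card : ℝ) * L ≤ K * (2 * A + 2) * g * (L : ℝ) ^ k := by
    intro Q hQ i
    by_cases h0 : Q = 0
    · simp only [hbad, h0, if_true, Finset.card_empty, Nat.cast_zero, zero_mul]
      positivity
    · simp only [hbad, h0, if_false]
      refine (dir_count h0 hQ i L hL hr0).trans ?_
      refine mul_le_mul_of_nonneg_right ?_ (by positivity)
      have e1 : 2 * r * L = 2 * A * g := by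
        rw [hr]
        field_simp
      rw [e1]
      have : (2 : ℝ) ≤ 2 * g := by linarith
      have hK0 : (0 : ℝ) ≤ K := Nat.cast_nonneg K
      nlinarith
  set Z : Finset (Fin k → Fin L) := (Finset.univ : Finset (Fin k → Fin L)).filter
      (fun c => MvPolynomial.eval (gp L c) P = 0) with hZ
  set B : Finset (Fin k → Fin L) := Z ∪ (Finset.range (K + 1)).biUnion (fun n =>
    (Finset.univ : Finset (Fin n → Fin k)).biUnion (fun w =>
      (Finset.univ : Finset (Fin k)).biUnion (fun i => bad (pdl (List.ofFn w) P) i))) with hB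
  refine ⟨B, ?_, ?_⟩
  · have h1 : (B.card : ℝ) ≤ Z.card + ∑ n ∈ Finset.range (K + 1),
        ∑ w : Fin n → Fin k, ∑ i : Fin k, ((bad (pdl (List.ofFn w) P) i).card : ℝ) := by
      have h2 : B.card ≤ Z.card + ∑ n ∈ Finset.range (K + 1),
        ∑ w : Fin n → Fin k, ∑ i : Fin k, (bad (pdl (List.ofFn w) P) i).card := by
        refine (Finset.card_union_le _ _).trans (Nat.add_le_add_left ?_ _)
        refine Finset.card_biUnion_le.trans (Finset.sum_le_sum fun n _ => ?_)
        refine Finset.card_biUnion_le.trans (Finset.sum_le_sum fun w _ => ?_)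
        exact Finset.card_biUnion_le
      exact_mod_cast h2
    have h3 := sz_count hP hK L hL
    have h4 : (∑ n ∈ Finset.range (K + 1),
        ∑ w : Fin n → Fin k, ∑ i : Fin k, ((bad (pdl (List.ofFn w) P) i).card : ℝ)) * L ≤
        (Finset.range (K + 1)).sum (fun n => (k : ℝ) ^ n * k) *
          (K * (2 * A + 2) * g * (L : ℝ) ^ k) := by
      rw [Finset.sum_mul, Finset.sum_mul]
      refine Finset.sum_le_sum fun n _ => ?_
      rw [Finset.sum_mul]
      have h5 : ∀ w ∈ (Finset.univ : Finset (Fin n → Fin k)),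
          (∑ i : Fin k, ((bad (pdl (List.ofFn w) P) i).card : ℝ)) * L ≤
          k * (K * (2 * A + 2) * g * (L : ℝ) ^ k) := by
        intro w _
        rw [Finset.sum_mul]
        refine (Finset.sum_le_sum fun i _ => hbadc _ ((pdl_deg _ _).trans hK) i).trans ?_
        rw [Finset.sum_const, Finset.card_univ, Fintype.card_fin, nsmul_eq_mul]
      refine (Finset.sum_le_sum h5).trans (le_of_eq ?_)
      rw [Finset.sum_const, Finset.card_univ, Fintype.card_fun, Fintype.card_fin,
        Fintype.card_fin, nsmul_eq_mul]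
      push_cast
      ring
    have h6 : (0 : ℝ) ≤ (L : ℝ) ^ k := by positivity
    have hK0 : (0 : ℝ) ≤ K := Nat.cast_nonneg K
    calc (B.card : ℝ) * L ≤ (Z.card + ∑ n ∈ Finset.range (K + 1),
        ∑ w : Fin n → Fin k, ∑ i : Fin k, ((bad (pdl (List.ofFn w) P) i).card : ℝ)) * L :=
          mul_le_mul_of_nonneg_right h1 hL0.le
      _ ≤ K * (L : ℝ) ^ k + (Finset.range (K + 1)).sum (fun n => (k : ℝ) ^ n * k) *
          (K * (2 * A + 2) * g * (L : ℝ) ^ k) := by
          rw [add_mul]
          exact add_le_add h3 h4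
      _ ≤ (K * g) * (L : ℝ) ^ k + (Finset.range (K + 1)).sum (fun n => (k : ℝ) ^ n * k) *
          (K * (2 * A + 2) * g * (L : ℝ) ^ k) := by
          have : K * (L : ℝ) ^ k ≤ (K * g) * (L : ℝ) ^ k := by
            refine mul_le_mul_of_nonneg_right ?_ h6
            nlinarith
          linarith
      _ ≤ N * (K * (2 * A + 2) + K + 1) * g * (L : ℝ) ^ k := by
          have e1 : N * (K * (2 * A + 2) + K + 1) * g * (L : ℝ) ^ k =
              (K * g) * (L : ℝ) ^ k + (Finset.range (K + 1)).sum (fun n => (k : ℝ) ^ n * k) *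
              (K * (2 * A + 2) * g * (L : ℝ) ^ k) +
              ((K * (2 * A + 2)) * g * (L : ℝ) ^ k + g * (L : ℝ) ^ k +
              (Finset.range (K + 1)).sum (fun n => (k : ℝ) ^ n * k) * ((K + 1) * g *
                (L : ℝ) ^ k)) := by
            rw [hN]
            ring
          rw [e1]
          have : 0 ≤ (K * (2 * A + 2)) * g * (L : ℝ) ^ k + g * (L : ℝ) ^ k +
              (Finset.range (K + 1)).sum (fun n => (k : ℝ) ^ n * k) * ((K + 1) * g *
                (L : ℝ) ^ k) := by positivity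
          linarith
  · intro c hc
    have hcZ : MvPolynomial.eval (gp L c) P ≠ 0 := by
      intro h0
      exact hc (Finset.mem_union_left _ (Finset.mem_filter.mpr ⟨Finset.mem_univ _, h0⟩))
    -- the derivatives
    have hder : ∀ l : List (Fin k), l.length ≤ K + 1 → |MvPolynomial.eval (gp L c) (pdl l P)| ≤
        |MvPolynomial.eval (gp L c) P| * (K / r) ^ l.length := by
      intro l
      induction l with
      | nil => intro _; simp
      | cons i l ih =>
        intro hl
        have hl' : l.length ≤ K := by simpa using hl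
        have h1 := ih (by omega)
        have h2 : c ∉ bad (pdl l P) i := by
          intro h3
          refine hc (Finset.mem_union_right _ ?_)
          refine Finset.mem_biUnion.mpr ⟨l.length, Finset.mem_range.mpr (by omega), ?_⟩
          refine Finset.mem_biUnion.mpr ⟨l.get, Finset.mem_univ _, ?_⟩
          refine Finset.mem_biUnion.mpr ⟨i, Finset.mem_univ _, ?_⟩
          rw [List.ofFn_get]
          exact h3
        have h3 : r * |MvPolynomial.eval (gp L c) (MvPolynomial.pderiv i (pdl l P))| ≤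
            K * |MvPolynomial.eval (gp L c) (pdl l P)| := by
          by_cases h0 : pdl l P = 0
          · rw [h0]
            simp
          · simp only [hbad, h0, if_false, Finset.mem_filter, Finset.mem_univ, true_and,
              not_not] at h2
            exact h2.2
        rw [pdl_cons, List.length_cons, pow_succ]
        have h4 : |MvPolynomial.eval (gp L c) (MvPolynomial.pderiv i (pdl l P))| ≤
            (K / r) * |MvPolynomial.eval (gp L c) (pdl l P)| := by
          rw [div_mul_eq_mul_div, le_div_iff₀ hr0]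
          linarith
        calc _ ≤ (K / r) * |MvPolynomial.eval (gp L c) (pdl l P)| := h4
          _ ≤ (K / r) * (|MvPolynomial.eval (gp L c) P| * (K / r) ^ l.length) :=
              mul_le_mul_of_nonneg_left h1 (by positivity)
          _ = _ := by ring
    refine ⟨hcZ, ?_⟩
    intro y hy
    have h1 := (cev_bound (z := gp L c) (a := g / L) (q := K / r) (by positivity) (by positivity)
      (K + 1) P |MvPolynomial.eval (gp L c) P| (abs_nonneg _) (by omega) hder y hy).2 K rfl
    refine h1.trans ?_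
    have e1 : (k : ℝ) * (g / L * (K / r)) = k * K / A := by
      rw [hr]
      field_simp
    rw [e1]
    have hK0 : (0 : ℝ) ≤ K := Nat.cast_nonneg K
    have hk0 : (0 : ℝ) ≤ k := Nat.cast_nonneg k
    have hA0 : 0 < A := by linarith
    have h2K : (1 : ℝ) ≤ 2 ^ (K + 1) := one_le_pow₀ (by norm_num)
    have h2 : (k : ℝ) * K / A ≤ 1 := by
      rw [div_le_one hA0, hA]
      have a1 : (k : ℝ) * K ≤ (K + 1) * (k * 2 ^ (K + 1)) := by
        have : (k : ℝ) * 1 ≤ k * 2 ^ (K + 1) := mul_le_mul_of_nonneg_left h2K hk0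
        nlinarith
      have a2 : (k : ℝ) * 2 ^ (K + 1) ≤ 1 + k * 2 ^ (K + 1) * (1 + 1 / ε) := by
        have : 0 ≤ k * 2 ^ (K + 1) * (1 / ε) := by positivity
        nlinarith
      have a3 : ((K : ℝ) + 1) * (k * 2 ^ (K + 1)) ≤
          (K + 1) * (1 + k * 2 ^ (K + 1) * (1 + 1 / ε)) :=
        mul_le_mul_of_nonneg_left a2 (by positivity)
      linarith
    have h3 : (1 + (k : ℝ) * K / A) ^ K ≤ 2 ^ K :=
      pow_le_pow_left₀ (by positivity) (by linarith) K
    have h4 : (k : ℝ) * K / A * 2 ^ K ≤ ε := by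
      rw [div_mul_eq_mul_div, div_le_iff₀ hA0, hA]
      have a1 : (k : ℝ) * K * 2 ^ K ≤ (K + 1) * (k * 2 ^ (K + 1)) := by
        have : (2 : ℝ) ^ K ≤ 2 ^ (K + 1) := pow_le_pow_right₀ (by norm_num) (by omega)
        have b1 : (k : ℝ) * K * 2 ^ K ≤ k * K * 2 ^ (K + 1) :=
          mul_le_mul_of_nonneg_left this (by positivity)
        nlinarith [mul_nonneg hk0 (by positivity : (0:ℝ) ≤ 2 ^ (K + 1))]
      have a2 : (k : ℝ) * 2 ^ (K + 1) ≤ ε * (1 + k * 2 ^ (K + 1) * (1 + 1 / ε)) := by
        have : ε * (k * 2 ^ (K + 1) * (1 / ε)) = k * 2 ^ (K + 1) := by field_simp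
        have b2 : 0 ≤ ε * (k * 2 ^ (K + 1)) := by positivity
        nlinarith
      have a3 : ((K : ℝ) + 1) * (k * 2 ^ (K + 1)) ≤
          (K + 1) * (ε * (1 + k * 2 ^ (K + 1) * (1 + 1 / ε))) :=
        mul_le_mul_of_nonneg_left a2 (by positivity)
      linarith
    calc |MvPolynomial.eval (gp L c) P| * (k * K / A) * (1 + k * K / A) ^ K ≤
        |MvPolynomial.eval (gp L c) P| * (k * K / A) * 2 ^ K :=
          mul_le_mul_of_nonneg_left h3 (by positivity)
      _ = (k * K / A * 2 ^ K) * |MvPolynomial.eval (gp L c) P| := by ring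
      _ ≤ ε * |MvPolynomial.eval (gp L c) P| := mul_le_mul_of_nonneg_right h4 (abs_nonneg _)

end Pool.EXS
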