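import Pool.Agent.H86.EXT.Def
import Pool.Agent.H91.LA.Nbxc
import Pool.Agent.H45.EXA.Prj
import Pool.Agent.H72.ACT.Stm

/-!
# One more coordinate: points, lines, classes, activity
-/

set_option autoImplicit false

namespace Pool.EXTC

open Finset Real MvPolynomial
open Pool.Agent.H49.Ent Pool.Agent.H32.Dense Pool.STK Pool.KA Pool.KSAT Pool.K2S Pool.PB Pool.GEN
open Pool.S6C

variable {m J : ℕ}

/-! ### The coordinates -/

section basic

variable (k : Fin m) (s : ℕ) (F : Fam m J) (ω : F.Ω)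

theorem exF_u_cs (i : Fin m) : (exF k s F).u ω i.castSucc = F.u ω i := by
  change (Fin.snoc (F.u ω) (F.u ω k / 2 ^ s) : Fin (m + 1) → ℝ) i.castSucc = _
  rw [Fin.snoc_castSucc]

theorem exF_u_last : (exF k s F).u ω (Fin.last m) = F.u ω k / 2 ^ s := by
  change (Fin.snoc (F.u ω) (F.u ω k / 2 ^ s) : Fin (m + 1) → ℝ) (Fin.last m) = _
  rw [Fin.snoc_last]

theorem exF_d_cs (i : Fin m) : (exF k s F).d ω i.castSucc = F.d ω i := by
  change (Fin.snoc (F.d ω) (F.d ω k / 2 ^ s) : Fin (m + 1) → ℝ) i.castSucc = _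
  rw [Fin.snoc_castSucc]

theorem exF_d_last : (exF k s F).d ω (Fin.last m) = F.d ω k / 2 ^ s := by
  change (Fin.snoc (F.d ω) (F.d ω k / 2 ^ s) : Fin (m + 1) → ℝ) (Fin.last m) = _
  rw [Fin.snoc_last]

theorem exF_t : (exF k s F).t ω = F.t ω := rfl

theorem exF_x_cs (i : Fin m) : (exF k s F).x ω i.castSucc = F.x ω i := by
  unfold Fam.x
  rw [exF_u_cs, exF_d_cs, exF_t]

theorem exF_x_last : (exF k s F).x ω (Fin.last m) = F.x ω k / 2 ^ s := by
  unfold Fam.x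
  rw [exF_u_last, exF_d_last, exF_t]
  ring

end basic

/-- One more integer coordinate. -/
def upX (k : Fin m) (s : ℕ) (v : Fin m → ℤ) : Fin (m + 1) → ℤ := Fin.snoc v (v k / 2 ^ s)

/-- Without the last coordinate. -/
def dnX (v : Fin (m + 1) → ℤ) : Fin m → ℤ := fun i => v i.castSucc

theorem dn_up (k : Fin m) (s : ℕ) (v : Fin m → ℤ) : dnX (upX k s v) = v := by
  funext i
  unfold dnX upX
  rw [Fin.snoc_castSucc]

theorem fl_ex (k : Fin m) (s j : ℕ) (x : Fin m → ℝ) (x' : Fin (m + 1) → ℝ)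
    (h1 : ∀ i : Fin m, x' i.castSucc = x i) (h2 : x' (Fin.last m) = x k / 2 ^ s) :
    fl j x' = upX k s (fl j x) := by
  funext i
  refine Fin.lastCases ?_ (fun i => ?_) i
  · unfold upX
    rw [Fin.snoc_last]
    change ⌊(2 : ℝ) ^ j * x' (Fin.last m)⌋ = ⌊(2 : ℝ) ^ j * x k⌋ / 2 ^ s
    rw [h2]
    have e : (2 : ℝ) ^ j * (x k / 2 ^ s) = (2 ^ j * x k) / ((2 ^ s : ℕ) : ℝ) := by
      push_cast
      ring
    rw [e, Int.floor_div_natCast]
    push_cast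
    rfl
  · unfold upX
    rw [Fin.snoc_castSucc]
    change ⌊(2 : ℝ) ^ j * x' i.castSucc⌋ = ⌊(2 : ℝ) ^ j * x i⌋
    rw [h1]

theorem exF_X (k : Fin m) (s : ℕ) (F : Fam m J) (j : ℕ) (ω : F.Ω) :
    (exF k s F).X j ω = upX k s (F.X j ω) :=
  fl_ex k s j _ _ (exF_x_cs k s F ω) (exF_x_last k s F ω)

theorem exF_D (k : Fin m) (s : ℕ) (F : Fam m J) (j : ℕ) (ω : F.Ω) :
    (exF k s F).D j ω = upX k s (F.D j ω) :=
  fl_ex k s j _ _ (exF_d_cs k s F ω) (exF_d_last k s F ω)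

/-! ### Points and lines -/

/-- The points of the extension. -/
def upP (k : Fin m) (s : ℕ) {F : Fam m J} (y : PtT F) : PtT (exF k s F) := (upX k s y.1, y.2)

/-- The points of the family. -/
def dnP {k : Fin m} {s : ℕ} {F : Fam m J} (y : PtT (exF k s F)) : PtT F := (dnX y.1, y.2)

/-- The lines of the extension. -/
noncomputable def upL (k : Fin m) (s : ℕ) {F : Fam m J} (l : LnT F) : LnT (exF k s F) :=
  ((Fin.snoc l.1.1 (l.1.1 k / 2 ^ s), Fin.snoc l.1.2 (l.1.2 k / 2 ^ s)), l.2)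

/-- The lines of the family. -/
def dnL {k : Fin m} {s : ℕ} {F : Fam m J} (l : LnT (exF k s F)) : LnT F :=
  ((fun i => l.1.1 i.castSucc, fun i => l.1.2 i.castSucc), l.2)

section pts

variable (k : Fin m) (s : ℕ) (F : Fam m J) (ω : F.Ω)

theorem ptr_up (r : ℕ) : ptr (exF k s F) r ω = upP k s (ptr F r ω) := by
  unfold ptr upP
  rw [exF_X]
  rfl

theorem ptr_dn (r : ℕ) : dnP (ptr (exF k s F) r ω) = ptr F r ω := by
  rw [ptr_up]
  unfold dnP upP
  rw [dn_up]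

theorem slam_up (w : ℕ) : slam (exF k s F) w ω = upL k s (slam F w ω) := rfl

theorem slam_dn (w : ℕ) : dnL (slam (exF k s F) w ω) = slam F w ω := by
  unfold dnL slam Fam.l
  refine Prod.ext (Prod.ext ?_ ?_) rfl
  · funext i
    exact exF_u_cs k s F ω i
  · funext i
    exact exF_d_cs k s F ω i

theorem bt_dn : (fun o => bt (exF k s F) ω (Option.map Fin.castSucc o)) = bt F ω := by
  funext o
  cases o with
  | none => rfl
  | some i => exact exF_x_cs k s F ω i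

theorem bd_dn : (fun o => bd (exF k s F) ω (Option.map Fin.castSucc o)) = bd F ω := by
  funext o
  cases o with
  | none => rfl
  | some i => exact exF_d_cs k s F ω i

end pts

/-! ### Classes -/

section cls

variable {S : PCl m} {S' : PCl (m + 1)} {k : Fin m} {s : ℝ}

theorem ne_exC (h : S.Ne) : (exC S k s).Ne := by
  intro τ hτ J₁
  obtain ⟨J, hJ, F, A, hF⟩ := h τ hτ J₁
  exact ⟨J, hJ, exF k ⌊s * J⌋₊ F, A, exSt.mk J F A hF⟩

theorem ne_bkC (hs : ∀ (τ : ℝ) (J : ℕ) (F : Fam (m + 1) J) (A : F.Ω → Prop),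
    S'.St τ J F A → (exC S k s).St τ J F A) (h : S'.Ne) : (bkC S' S k s).Ne := by
  intro τ hτ J₁
  obtain ⟨J, hJ, F, A, hF⟩ := h τ hτ J₁
  obtain ⟨F, A, hS⟩ := hs τ J F A hF
  exact ⟨J, hJ, F, A, hS, hF⟩

theorem bkC_le (τ : ℝ) (J : ℕ) (F : Fam m J) (A : F.Ω → Prop) (h : (bkC S' S k s).St τ J F A) :
    S.St τ J F A := h.1

theorem exC_bkC (τ : ℝ) (J : ℕ) (F : Fam (m + 1) J) (A : F.Ω → Prop)
    (h : (exC (bkC S' S k s) k s).St τ J F A) : S'.St τ J F A := by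
  obtain ⟨F, A, hS⟩ := h
  exact hS.2

theorem exC_mono {S₁ : PCl m} (hs : ∀ (τ : ℝ) (J : ℕ) (F : Fam m J) (A : F.Ω → Prop),
    S₁.St τ J F A → S.St τ J F A) (τ : ℝ) (J : ℕ) (F : Fam (m + 1) J) (A : F.Ω → Prop)
    (h : (exC S₁ k s).St τ J F A) : (exC S k s).St τ J F A := by
  obtain ⟨F, A, hS⟩ := h
  exact exSt.mk J F A (hs _ _ _ _ hS)

/-- **Statements about all events of the extension.** -/
theorem bas_exC {Φ : Stat (m + 1)} :
    Bas (exC S k s) Φ ↔ Bas S (fun J F A => Φ J (exF k ⌊s * J⌋₊ F) A) := by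
  constructor
  · rintro ⟨τ, hτ, J₁, h⟩
    exact ⟨τ, hτ, J₁, fun J hJ F A hA => h J hJ _ _ (exSt.mk J F A hA)⟩
  · rintro ⟨τ, hτ, J₁, h⟩
    refine ⟨τ, hτ, J₁, fun J hJ G A hA => ?_⟩
    obtain ⟨F, A, hS⟩ := hA
    exact h J hJ F A hS

theorem pos_exC (h : ∀ (τ : ℝ) (J : ℕ) (F : Fam m J) (A : F.Ω → Prop), S.St τ J F A →
    0 < Pe F.p A) (τ : ℝ) (J : ℕ) (F : Fam (m + 1) J) (A : F.Ω → Prop)
    (hA : (exC S k s).St τ J F A) : 0 < Pe F.p A := by
  obtain ⟨F, A, hS⟩ := hA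
  exact h τ J F A hS

/-- The line of the extension and the line of the family. -/
theorem tm_ex {k : Fin m} {s : ℕ} {F : Fam m J} {e : ℝ} (h : F.Tm e) : (exF k s F).Tm e := by
  unfold Fam.Tm at h ⊢
  refine h.trans (le_of_eq ?_)
  refine CH_congr F.isLaw.nonneg (fun ω ω' _ _ hh => (Prod.ext_iff.1 hh).1)
    (fun ω ω' _ _ hh => (Prod.ext_iff.1 hh).1) (fun ω ω' _ _ hh => ?_) (fun ω ω' _ _ hh => ?_)
  · have h1 := Prod.ext_iff.1 hh
    have h2 := Prod.ext_iff.1 h1.1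
    refine Prod.ext (Prod.ext ?_ ?_) h1.2
    · change (Fin.snoc (F.u ω) (F.u ω k / 2 ^ s) : Fin (m + 1) → ℝ) =
        Fin.snoc (F.u ω') (F.u ω' k / 2 ^ s)
      rw [show F.u ω = F.u ω' from h2.1]
    · change (Fin.snoc (F.d ω) (F.d ω k / 2 ^ s) : Fin (m + 1) → ℝ) =
        Fin.snoc (F.d ω') (F.d ω' k / 2 ^ s)
      rw [show F.d ω = F.d ω' from h2.2]
  · have h1 := Prod.ext_iff.1 hh
    have h2 := Prod.ext_iff.1 h1.1
    refine Prod.ext (Prod.ext ?_ ?_) h1.2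
    · funext i
      have := congrFun h2.1 i.castSucc
      change (exF k s F).u ω i.castSucc = (exF k s F).u ω' i.castSucc at this
      rw [exF_u_cs, exF_u_cs] at this
      exact this
    · funext i
      have := congrFun h2.2 i.castSucc
      change (exF k s F).d ω i.castSucc = (exF k s F).d ω' i.castSucc at this
      rw [exF_d_cs, exF_d_cs] at this
      exact this

/-- **The time deficit.** -/
theorem tmC_ex {C₀ : ℝ} (h : TmC S C₀) : TmC (exC S k s) C₀ := by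
  rintro τ J G A hτ hA
  obtain ⟨F, A, hS⟩ := hA
  obtain ⟨h1, h2⟩ := h τ J F A hτ hS
  refine ⟨h1, fun hl => ?_⟩
  exact tm_ex (k := k) (s := ⌊s * J⌋₊) (h2 hl)

/-! ### Activity -/

/-- Entropies of the extension. -/
theorem ch_ex {F : Fam m J} {A : F.Ω → Prop} {X X' Y Y' : Type} {x : F.Ω → X} {x' : F.Ω → X'}
    {y : F.Ω → Y} {y' : F.Ω → Y'} (fx : X' → X) (gx : X → X') (fy : Y' → Y) (gy : Y → Y')
    (h1 : ∀ ω, fx (x' ω) = x ω) (h2 : ∀ ω, gx (x ω) = x' ω) (h3 : ∀ ω, fy (y' ω) = y ω)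
    (h4 : ∀ ω, gy (y ω) = y' ω) :
    CH (Pool.Agent.H49.Ent.cond F.p A True) x y = CH (Pool.Agent.H49.Ent.cond F.p A True) x' y' := by
  refine CH_congr (fun ω => cond_nonneg F.isLaw.nonneg _ _ ω) ?_ ?_ ?_ ?_
  · intro ω ω' _ _ hh
    rw [← h2, ← h2]
    exact congrArg gx (Prod.ext_iff.1 hh).1
  · intro ω ω' _ _ hh
    rw [← h1, ← h1]
    exact congrArg fx (Prod.ext_iff.1 hh).1
  · intro ω ω' _ _ hh
    rw [← h4, ← h4, hh]
  · intro ω ω' _ _ hh
    rw [← h3, ← h3, hh]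

theorem actF_ex {y : Fin m} (h : Pool.MIC6.ActF S y) : Pool.MIC6.ActF (exC S k s) y.castSucc := by
  intro g hg
  obtain ⟨c, hc, τ, hτ, J₁, hb⟩ := h g hg
  refine ⟨c, hc, τ, hτ, J₁, fun J hJ G A hA => ?_⟩
  obtain ⟨F, A, hS⟩ := hA
  refine (hb J hJ F A hS).trans (le_of_eq ?_)
  refine ch_ex (F := F) id id dnP (upP k ⌊s * J⌋₊) ?_ ?_ ?_ ?_
  · intro ω
    change (exF k ⌊s * J⌋₊ F).D ⌊g * J⌋₊ ω y.castSucc = _
    rw [exF_D]
    unfold upX
    rw [Fin.snoc_castSucc]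
  · intro ω
    change _ = (exF k ⌊s * J⌋₊ F).D ⌊g * J⌋₊ ω y.castSucc
    rw [exF_D]
    unfold upX
    rw [Fin.snoc_castSucc]
    rfl
  · exact fun ω => ptr_dn k ⌊s * J⌋₊ F ω J
  · exact fun ω => (ptr_up k ⌊s * J⌋₊ F ω J).symm

/-- The digits of the velocities and the point. -/
theorem act_ex (F : Fam m J) (A : F.Ω → Prop) (k : Fin m) (s a b : ℕ) (y : Fin m) :
    CH (Pool.Agent.H49.Ent.cond F.p A True) (fun ω => F.D b ω y)
      (fun ω => (F.D a ω, (F.X J ω, F.W ω))) =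
    CH (Pool.Agent.H49.Ent.cond (exF k s F).p A True) (fun ω => (exF k s F).D b ω y.castSucc)
      (fun ω => ((exF k s F).D a ω, ((exF k s F).X J ω, (exF k s F).W ω))) := by
  refine ch_ex (F := F) id id (fun v => (dnX v.1, (dnX v.2.1, v.2.2)))
    (fun v => (upX k s v.1, (upX k s v.2.1, v.2.2))) ?_ ?_ ?_ ?_
  · intro ω
    change (exF k s F).D b ω y.castSucc = _
    rw [exF_D]
    unfold upX
    rw [Fin.snoc_castSucc]
  · intro ω
    change _ = (exF k s F).D b ω y.castSucc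
    rw [exF_D]
    unfold upX
    rw [Fin.snoc_castSucc]
    rfl
  · intro ω
    rw [exF_D, exF_X]
    simp only [dn_up]
    rfl
  · intro ω
    rw [exF_D, exF_X]
    rfl

theorem actB_ex {N : ℚ → ℚ → ℝ} {y : Fin m} (h : ActB N S y) :
    ActB N (exC S k s) y.castSucc := by
  intro q q' h0 h1 h2 e he
  obtain ⟨τ, hτ, J₁, hb⟩ := h q q' h0 h1 h2 e he
  refine ⟨τ, hτ, J₁, fun J hJ G A hA => ?_⟩
  obtain ⟨F, A, hS⟩ := hA
  exact (hb J hJ F A hS).trans (le_of_eq (act_ex F A k ⌊s * J⌋₊ _ _ y))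

theorem actBr_ex {N : ℝ → ℝ → ℝ} {y : Fin m} (h : ActBr N S y) :
    ActBr N (exC S k s) y.castSucc := by
  intro q q' h0 h1 h2 e he
  obtain ⟨τ, hτ, J₁, hb⟩ := h q q' h0 h1 h2 e he
  refine ⟨τ, hτ, J₁, fun J hJ G A hA => ?_⟩
  obtain ⟨F, A, hS⟩ := hA
  exact (hb J hJ F A hS).trans (le_of_eq (act_ex F A k ⌊s * J⌋₊ _ _ y))

/-! ### Fullness -/

/-- The coordinates `I` in the extension. -/
abbrev upI (I : Finset (Fin m)) : Finset (Fin (m + 1)) := I.map Fin.castSuccEmb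

theorem mem_upI {I : Finset (Fin m)} {i : Fin m} : i.castSucc ∈ upI I ↔ i ∈ I := by
  unfold upI
  rw [Finset.mem_map]
  constructor
  · rintro ⟨j, hj, he⟩
    have : j = i := Fin.castSucc_injective m he
    rwa [← this]
  · intro h
    exact ⟨i, h, rfl⟩

theorem last_upI (I : Finset (Fin m)) : Fin.last m ∉ upI I := by
  unfold upI
  rw [Finset.mem_map]
  rintro ⟨j, -, he⟩
  exact absurd he (Fin.castSucc_lt_last j).ne

/-- The cells of the coordinates `I`. -/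
theorem ceI_ex (I : Finset (Fin m)) (a : ℕ) (x : Fin m → ℝ) (x' : Fin (m + 1) → ℝ)
    (h : ∀ i : Fin m, x' i.castSucc = x i) :
    Pool.UNJ.ceI (upI I) (fun _ => a) x' = Fin.snoc (Pool.UNJ.ceI I (fun _ => a) x) (0 : ℤ) := by
  funext i
  refine Fin.lastCases ?_ (fun i => ?_) i
  · rw [Fin.snoc_last]
    unfold Pool.UNJ.ceI
    rw [if_neg (last_upI I)]
  · rw [Fin.snoc_castSucc]
    unfold Pool.UNJ.ceI
    by_cases hi : i ∈ I
    · rw [if_pos hi, if_pos (mem_upI.2 hi), h]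
    · rw [if_neg hi, if_neg (fun hh => hi (mem_upI.1 hh))]

theorem dn_snoc (v : Fin m → ℤ) (a : ℤ) : dnX (Fin.snoc v a) = v := by
  funext i
  unfold dnX
  rw [Fin.snoc_castSucc]

theorem ch_ful (F : Fam m J) (A : F.Ω → Prop) (k : Fin m) (s a b w : ℕ) (I : Finset (Fin m))
    {V : Type} (z : LnT F → V) (z' : LnT (exF k s F) → V)
    (hz : ∀ ω, z (slam F w ω) = z' (slam (exF k s F) w ω)) :
    CH (Pool.Agent.H49.Ent.cond F.p A True) (fun ω => Pool.UNJ.ceI I (fun _ => b) (F.x ω))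
      (fun ω => (Pool.UNJ.ceI I (fun _ => a) (F.x ω), z (slam F w ω), F.W ω)) =
    CH (Pool.Agent.H49.Ent.cond (exF k s F).p A True)
      (fun ω => Pool.UNJ.ceI (upI I) (fun _ => b) ((exF k s F).x ω))
      (fun ω => (Pool.UNJ.ceI (upI I) (fun _ => a) ((exF k s F).x ω),
        z' (slam (exF k s F) w ω), (exF k s F).W ω)) := by
  have e : ∀ (c : ℕ) (ω : F.Ω), Pool.UNJ.ceI (upI I) (fun _ => c) ((exF k s F).x ω) =
      Fin.snoc (Pool.UNJ.ceI I (fun _ => c) (F.x ω)) (0 : ℤ) := fun c ω =>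
    ceI_ex I c (F.x ω) ((exF k s F).x ω) (exF_x_cs k s F ω)
  refine ch_ex (F := F) dnX (fun v => (Fin.snoc v (0 : ℤ) : Fin (m + 1) → ℤ))
    (fun v => (dnX v.1, v.2)) (fun v => ((Fin.snoc v.1 (0 : ℤ) : Fin (m + 1) → ℤ), v.2))
    ?_ ?_ ?_ ?_
  · intro ω
    rw [e, dn_snoc]
  · intro ω
    rw [e]
  · intro ω
    rw [e]
    simp only [dn_snoc]
    rw [hz]
    rfl
  · intro ω
    rw [e]
    simp only
    rw [hz]
    rfl

/-- **Fullness.** -/
theorem ful_ex {I : Finset (Fin m)} {w u : ℝ} :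
    Pool.LA91.Ful (exC S k s) (upI I) w u ↔ Pool.LA91.Ful S I w u := by
  constructor
  · intro h ρ hρ
    refine Bas.mono 0 (bas_exC.1 (h ρ hρ)) fun J _ F A hb V z z' hz => ?_
    have := hb V (fun y => z (dnP y)) (fun l => z' (dnL l)) (fun ω hω =>
      (congrArg z (ptr_dn k ⌊s * J⌋₊ F ω J)).trans
        ((hz ω hω).trans (congrArg z' (slam_dn k ⌊s * J⌋₊ F ω _)).symm))
    rw [Finset.card_map] at this
    refine this.trans (le_of_eq ?_)
    exact (ch_ful F A k ⌊s * J⌋₊ _ _ _ I z' (fun l => z' (dnL l)) (fun ω => by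
      rw [slam_dn])).symm
  · intro h ρ hρ
    refine bas_exC.2 (Bas.mono 0 (h ρ hρ) fun J _ F A hb V z z' hz => ?_)
    have := hb V (fun y => z (upP k ⌊s * J⌋₊ y)) (fun l => z' (upL k ⌊s * J⌋₊ l))
      (fun ω hω => by
        rw [← ptr_up, ← slam_up]
        exact hz ω hω)
    rw [Finset.card_map]
    refine this.trans (le_of_eq ?_)
    exact ch_ful F A k ⌊s * J⌋₊ _ _ _ I (fun l => z' (upL k ⌊s * J⌋₊ l)) z' (fun ω => by
      rw [← slam_up])

theorem ch_fulC (F : Fam m J) (A : F.Ω → Prop) (k : Fin m) (s w i : ℕ) (c : ℕ → Fin m)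
    {V : Type} (z : LnT F → V) (z' : LnT (exF k s F) → V)
    (hz : ∀ ω, z (slam F w ω) = z' (slam (exF k s F) w ω)) :
    CH (Pool.Agent.H49.Ent.cond F.p A True) (fun ω => F.X J ω (c i))
      (fun ω => ((fun l' : Fin i => F.X J ω (c l')), z (slam F w ω), F.W ω)) =
    CH (Pool.Agent.H49.Ent.cond (exF k s F).p A True)
      (fun ω => (exF k s F).X J ω (c i).castSucc)
      (fun ω => ((fun l' : Fin i => (exF k s F).X J ω (c l').castSucc),
        z' (slam (exF k s F) w ω), (exF k s F).W ω)) := by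
  have e : ∀ (j : Fin m) (ω : F.Ω), (exF k s F).X J ω j.castSucc = F.X J ω j := by
    intro j ω
    rw [exF_X]
    unfold upX
    rw [Fin.snoc_castSucc]
  refine ch_ex (F := F) id id id id ?_ ?_ ?_ ?_
  · intro ω
    exact e _ ω
  · intro ω
    exact (e _ ω).symm
  · intro ω
    simp only [e, id_eq]
    rw [hz]
    rfl
  · intro ω
    simp only [e, id_eq]
    rw [hz]
    rfl

/-- **Fullness of the coordinates with charts.** -/
theorem fulC_ex {c : ℕ → Fin m} {r₀ r : ℕ} {w : ℝ} {σ : ℕ → ℝ} :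
    Pool.LA91.FulC (exC S k s) (fun i => (c i).castSucc) r₀ r w σ ↔
      Pool.LA91.FulC S c r₀ r w σ := by
  constructor
  · intro h ρ hρ
    refine Bas.mono 0 (bas_exC.1 (h ρ hρ)) fun J _ F A hb V z z' hz i h0 h1 => ?_
    have := hb V (fun y => z (dnP y)) (fun l => z' (dnL l)) (fun ω hω =>
      (congrArg z (ptr_dn k ⌊s * J⌋₊ F ω J)).trans
        ((hz ω hω).trans (congrArg z' (slam_dn k ⌊s * J⌋₊ F ω _)).symm)) i h0 h1
    refine this.trans (le_of_eq ?_)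
    exact (ch_fulC F A k ⌊s * J⌋₊ _ i c z' (fun l => z' (dnL l)) (fun ω => by
      rw [slam_dn])).symm
  · intro h ρ hρ
    refine bas_exC.2 (Bas.mono 0 (h ρ hρ) fun J _ F A hb V z z' hz i h0 h1 => ?_)
    have := hb V (fun y => z (upP k ⌊s * J⌋₊ y)) (fun l => z' (upL k ⌊s * J⌋₊ l))
      (fun ω hω => by
        rw [← ptr_up, ← slam_up]
        exact hz ω hω) i h0 h1
    refine this.trans (le_of_eq ?_)
    exact ch_fulC F A k ⌊s * J⌋₊ _ i c (fun l => z' (upL k ⌊s * J⌋₊ l)) z' (fun ω => by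
      rw [← slam_up])

/-! ### Velocities of the last coordinate -/

/-- **From the last coordinate to the coordinate `k`.** -/
theorem hasB_of (hs : 0 ≤ s) {I : Finset (Fin m)} {w N : ℝ}
    (h : Pool.OWN72.HasA (exC S k s) (upI I) (Fin.last m) w N) : HasB S I k w (N - s) s := by
  intro x hx
  obtain ⟨J₀, hJ₀⟩ := exists_nat_ge (4 / x)
  refine Bas.mono J₀ (bas_exC.1 (h (x / 2) (by linarith))) ?_
  rintro J hJ F A ⟨a, c, hac⟩
  have hJr : 4 ≤ x * J := by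
    have : (J₀ : ℝ) ≤ J := by exact_mod_cast hJ
    have h1 := hJ₀.trans this
    rw [div_le_iff₀ hx] at h1
    linarith
  have hJ0 : (0 : ℝ) ≤ J := Nat.cast_nonneg J
  by_cases hneg : N - s - w - x < 0
  · -- trivial label
    have hfl : ⌊(N - s - w - x) * (J : ℝ)⌋₊ = 0 :=
      Nat.floor_of_nonpos (mul_nonpos_of_nonpos_of_nonneg hneg.le hJ0)
    refine ⟨fun _ _ => 0, fun _ => 0, ⟨fun ω _ => ⟨fun i _ => ?_, ?_, ?_⟩, fun i _ => ?_, ?_⟩⟩
    · rw [abs_zero]; positivity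
    · rw [abs_zero]; positivity
    · simp only [zero_mul, Finset.sum_const_zero, sub_zero]
      rw [hfl, pow_zero, div_one]
      exact F.dir ω k
    · exact ⟨fun _ => 0, fun _ _ => rfl⟩
    · exact ⟨fun _ => 0, fun _ _ => rfl⟩
  · push Not at hneg
    have e1 : ⌊x / 2 * (J : ℝ)⌋₊ + ⌊s * (J : ℝ)⌋₊ ≤ ⌊(s + x) * (J : ℝ)⌋₊ := by
      apply Nat.le_floor
      push_cast
      have f1 : (⌊x / 2 * (J : ℝ)⌋₊ : ℝ) ≤ x / 2 * J := Nat.floor_le (by positivity)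
      have f2 : (⌊s * (J : ℝ)⌋₊ : ℝ) ≤ s * J := Nat.floor_le (by positivity)
      nlinarith
    have e2 : ⌊(N - s - w - x) * (J : ℝ)⌋₊ + ⌊s * (J : ℝ)⌋₊ ≤
        ⌊(N - w - x / 2) * (J : ℝ)⌋₊ := by
      apply Nat.le_floor
      push_cast
      have f1 : (⌊(N - s - w - x) * (J : ℝ)⌋₊ : ℝ) ≤ (N - s - w - x) * J :=
        Nat.floor_le (by positivity)
      have f2 : (⌊s * (J : ℝ)⌋₊ : ℝ) ≤ s * J := Nat.floor_le (by positivity)
      nlinarith
    obtain ⟨hdp, hca, hcc⟩ := hac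
    refine ⟨fun y i => 2 ^ ⌊s * (J : ℝ)⌋₊ * a (upP k ⌊s * (J : ℝ)⌋₊ y) i.castSucc,
      fun y => 2 ^ ⌊s * (J : ℝ)⌋₊ * c (upP k ⌊s * (J : ℝ)⌋₊ y),
      ⟨fun ω hω => ?_, fun i hi => ?_, ?_⟩⟩
    · obtain ⟨g1, g2, g3⟩ := hdp ω hω
      have hpe : ptr (exF k ⌊s * (J : ℝ)⌋₊ F) J ω = upP k ⌊s * (J : ℝ)⌋₊ (ptr F J ω) :=
        ptr_up k _ F ω J
      have hbig : (2 : ℝ) ^ ⌊s * (J : ℝ)⌋₊ * 2 ^ ⌊x / 2 * (J : ℝ)⌋₊ ≤
          2 ^ ⌊(s + x) * (J : ℝ)⌋₊ := by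
        rw [← pow_add, add_comm]
        exact pow_le_pow_right₀ (by norm_num) e1
      have hp0 : (0 : ℝ) < 2 ^ ⌊s * (J : ℝ)⌋₊ := by positivity
      refine ⟨fun i hi => ?_, ?_, ?_⟩
      · rw [abs_mul, abs_of_pos hp0, ← hpe]
        exact (mul_le_mul_of_nonneg_left (g1 i.castSucc (mem_upI.2 hi)) hp0.le).trans hbig
      · rw [abs_mul, abs_of_pos hp0, ← hpe]
        exact (mul_le_mul_of_nonneg_left g2 hp0.le).trans hbig
      · have hsum : ∑ i ∈ upI I, a (ptr (exF k ⌊s * (J : ℝ)⌋₊ F) J ω) i *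
            (exF k ⌊s * (J : ℝ)⌋₊ F).d ω i =
            ∑ i ∈ I, a (ptr (exF k ⌊s * (J : ℝ)⌋₊ F) J ω) i.castSucc * F.d ω i := by
          unfold upI
          rw [Finset.sum_map]
          refine Finset.sum_congr rfl fun i _ => ?_
          change _ * (exF k ⌊s * (J : ℝ)⌋₊ F).d ω i.castSucc = _
          rw [exF_d_cs]
          rfl
        rw [hsum, exF_d_last] at g3
        simp only [← hpe]
        have e3 : F.d ω k - 2 ^ ⌊s * (J : ℝ)⌋₊ * c (ptr (exF k ⌊s * (J : ℝ)⌋₊ F) J ω) -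
            ∑ i ∈ I, 2 ^ ⌊s * (J : ℝ)⌋₊ * a (ptr (exF k ⌊s * (J : ℝ)⌋₊ F) J ω) i.castSucc *
              F.d ω i = 2 ^ ⌊s * (J : ℝ)⌋₊ * (F.d ω k / 2 ^ ⌊s * (J : ℝ)⌋₊ -
              c (ptr (exF k ⌊s * (J : ℝ)⌋₊ F) J ω) -
              ∑ i ∈ I, a (ptr (exF k ⌊s * (J : ℝ)⌋₊ F) J ω) i.castSucc * F.d ω i) := by
          rw [mul_sub, mul_sub, Finset.mul_sum]
          congr 1
          · rw [mul_div_cancel₀ _ hp0.ne']
          · refine Finset.sum_congr rfl fun i _ => ?_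
            ring
        rw [e3, abs_mul, abs_of_pos hp0]
        refine (mul_le_mul_of_nonneg_left g3 hp0.le).trans ?_
        rw [mul_one_div, div_le_div_iff₀ (by positivity) (by positivity), one_mul, ← pow_add]
        refine pow_le_pow_right₀ (by norm_num) ?_
        have e4 : N - s - w - x = N - s - w - x := rfl
        omega
    · obtain ⟨f', hf⟩ := hca i.castSucc (mem_upI.2 hi)
      refine ⟨fun l => 2 ^ ⌊s * (J : ℝ)⌋₊ * f' (upL k ⌊s * (J : ℝ)⌋₊ l), fun ω hω => ?_⟩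
      have := hf ω hω
      rw [ptr_up, slam_up] at this
      exact congrArg (fun r => 2 ^ ⌊s * (J : ℝ)⌋₊ * r) this
    · obtain ⟨f', hf⟩ := hcc
      refine ⟨fun l => 2 ^ ⌊s * (J : ℝ)⌋₊ * f' (upL k ⌊s * (J : ℝ)⌋₊ l), fun ω hω => ?_⟩
      have := hf ω hω
      rw [ptr_up, slam_up] at this
      exact congrArg (fun r => 2 ^ ⌊s * (J : ℝ)⌋₊ * r) this

end cls

end Pool.EXTC
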